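import Pool.Agent.Lib.MP_640417_ag.Tg.SpecR
import Pool.Agent.Lib.MP_640417_ag.Dfr.Cent
import Pool.Agent.Lib.MP_640417_ag.Lef.FftK

/-!
# The structure of the Tate classes: definitions and first properties

`Dat`: the setting. `IsLef`: the Lefschetz Lie algebra. `KL`, `KP`: killed by it, by its derived algebra. `hh a`: the
central element of the class of `a`. `Tops p n`: the top forms of the images of the range of `p` in the
`n`-th power. `NN S`: the algebra generated by the elements killed by the Lefschetz Lie algebra and by the top forms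
of the types in `S`. `inn`, `las`, `gb`: the first `n` copies, the last copy, an operator on the last copy.
-/

set_option autoImplicit false

namespace Pool.Agent.Lib.MP_640417_ag.Ws

open Module Pool.Agent.Lib.MP_640417_ag Pool.Agent.Lib.MP_640417_ag.Tor
  Pool.Agent.Lib.MP_640417_ag.Lef Pool.Agent.Lib.MP_640417_ag.Dfr

open Pool.Agent.Lib.MP_640417_ag.Four (Dv IsDer isDer_Dv)

section defs

variable {K V : Type} [Field K] [AddCommGroup V] [Module K V]

/-- A symplectic space, a subalgebra `C` with minimal idempotents and matrix units, equal to the centralizer of the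
skew operators which commute with it. -/
structure Dat (ψ : LinearMap.BilinForm K V) (C : Subalgebra K (Module.End K V)) (N : ℕ)
    (st : Fin N → Fin N) (ε : Fin N → Module.End K V) (r : Fin N → Fin N)
    (u v : Fin N → Module.End K V) : Prop where
  alt : ∀ x, ψ x x = 0
  anti : ∀ x y, ψ x y = - ψ y x
  nd : ∀ x, (∀ y, ψ x y = 0) → x = 0
  sys : Sys ψ C N st ε
  uv : UV ψ C N st ε r u v
  bic : ∀ c : Module.End K V, (∀ X, Skew ψ X → (∀ d ∈ C, X * d = d * X) → c * X = X * c) → c ∈ C

/-- The Lefschetz Lie algebra. -/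
def IsLef (ψ : LinearMap.BilinForm K V) (C : Subalgebra K (Module.End K V))
    (X : Module.End K V) : Prop := Skew ψ X ∧ ∀ c ∈ C, X * c = c * X

/-- The central element of the Lefschetz Lie algebra attached to the class of `a`. -/
def hh {N : ℕ} (ε : Fin N → Module.End K V) (r st : Fin N → Fin N) (a : Fin N) :
    Module.End K V := eC ε r a - eC ε r (st a)

/-- Killed by the Lefschetz Lie algebra. -/
def KL [FiniteDimensional K V] (ψ : LinearMap.BilinForm K V) (C : Subalgebra K (Module.End K V))
    (n : ℕ) (x : ExteriorAlgebra K (Fin n → V)) : Prop := ∀ X, IsLef ψ C X → Dv n X x = 0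

/-- Killed by the elements of the Lefschetz Lie algebra with trace zero on all blocks. -/
def KP [FiniteDimensional K V] (ψ : LinearMap.BilinForm K V) (C : Subalgebra K (Module.End K V))
    {N : ℕ} (ε : Fin N → Module.End K V) (n : ℕ) (x : ExteriorAlgebra K (Fin n → V)) : Prop :=
  ∀ X, IsLef ψ C X → (∀ j, tr (ε j * X) = 0) → Dv n X x = 0

/-- The top forms of the images of the range of `p` under linear maps `V → Vⁿ` with components in `C`. -/
def Tops (C : Subalgebra K (Module.End K V)) (p : Module.End K V) (n : ℕ) :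
    Set (ExteriorAlgebra K (Fin n → V)) :=
  {w | ∃ (d : ℕ) (e : Fin d → V) (c : V →ₗ[K] (Fin n → V)), LinearIndependent K e ∧
    Submodule.span K (Set.range e) = LinearMap.range p ∧
    (∀ i, (LinearMap.proj i ∘ₗ c : Module.End K V) ∈ C) ∧
    w = ExteriorAlgebra.ιMulti K d fun q => c (e q)}

/-- The algebra generated by the elements killed by the Lefschetz Lie algebra and by the top forms of the
types in `S`. -/
def NN [FiniteDimensional K V] (ψ : LinearMap.BilinForm K V) (C : Subalgebra K (Module.End K V))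
    {N : ℕ} (ε : Fin N → Module.End K V) (S : Set (Fin N)) (n : ℕ) :
    Subalgebra K (ExteriorAlgebra K (Fin n → V)) :=
  Algebra.adjoin K ({z | KL ψ C n z} ∪ {w | ∃ a ∈ S, w ∈ Tops C (ε a) n})

/-- The first `n` copies. -/
def inn (K V : Type) [Field K] [AddCommGroup V] [Module K V] (n : ℕ) :
    (Fin n → V) →ₗ[K] (Fin (n + 1) → V) where
  toFun x := Fin.snoc (α := fun _ => V) x 0
  map_add' x y := by
    funext i
    refine Fin.lastCases ?_ (fun j => ?_) i
    · simp
    · simp
  map_smul' c x := by
    funext i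
    refine Fin.lastCases ?_ (fun j => ?_) i
    · simp
    · simp

/-- The last copy. -/
def las (K V : Type) [Field K] [AddCommGroup V] [Module K V] (n : ℕ) :
    V →ₗ[K] (Fin (n + 1) → V) := LinearMap.single K (fun _ => V) (Fin.last n)

/-- The projection to the first `n` copies. -/
def out (K V : Type) [Field K] [AddCommGroup V] [Module K V] (n : ℕ) :
    (Fin (n + 1) → V) →ₗ[K] (Fin n → V) := LinearMap.pi fun i => LinearMap.proj i.castSucc

/-- The operator `q` on the last copy. -/
def gb (n : ℕ) (q : Module.End K V) : Module.End K (Fin (n + 1) → V) :=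
  inn K V n ∘ₗ out K V n + las K V n ∘ₗ q ∘ₗ LinearMap.proj (Fin.last n)

/-- Dual bases of the ranges of `p` and `q`. -/
structure DB (ψ : LinearMap.BilinForm K V) (p q : Module.End K V) (d : ℕ) (e f : Fin d → V) :
    Prop where
  pe : ∀ i, p (e i) = e i
  qf : ∀ i, q (f i) = f i
  dual : ∀ i j, ψ (e i) (f j) = if i = j then 1 else 0
  exp : ∀ x, p x = ∑ i, ψ x (f i) • e i
  exq : ∀ x, q x = ∑ i, ψ (e i) x • f i

/-- The invariant of degree two attached to `c`. -/
noncomputable def Th (n d : ℕ) (e f : Fin d → V) (c : V →ₗ[K] (Fin n → V)) :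
    ExteriorAlgebra K (Fin (n + 1) → V) :=
  ∑ i, ExteriorAlgebra.ι K (inn K V n (c (e i))) * ExteriorAlgebra.ι K (las K V n (f i))

end defs

section basic

variable {K V : Type} [Field K] [AddCommGroup V] [Module K V]

@[simp] theorem inn_castSucc (n : ℕ) (x : Fin n → V) (i : Fin n) :
    inn K V n x i.castSucc = x i := by
  simp [inn]

@[simp] theorem inn_last (n : ℕ) (x : Fin n → V) : inn K V n x (Fin.last n) = 0 := by
  simp [inn]

@[simp] theorem las_castSucc (n : ℕ) (x : V) (i : Fin n) : las K V n x i.castSucc = 0 := by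
  simp [las, Pi.single_apply, (Fin.castSucc_lt_last i).ne]

@[simp] theorem las_last (n : ℕ) (x : V) : las K V n x (Fin.last n) = x := by
  simp [las]

@[simp] theorem out_apply (n : ℕ) (x : Fin (n + 1) → V) (i : Fin n) :
    out K V n x i = x i.castSucc := rfl

theorem out_inn (n : ℕ) (x : Fin n → V) : out K V n (inn K V n x) = x := by
  funext i
  simp

theorem out_las (n : ℕ) (x : V) : out K V n (las K V n x) = 0 := by
  funext i
  simp

theorem split_last (n : ℕ) (x : Fin (n + 1) → V) :
    x = inn K V n (out K V n x) + las K V n (x (Fin.last n)) := by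
  funext i
  refine Fin.lastCases ?_ (fun j => ?_) i
  · simp
  · simp

theorem gb_apply (n : ℕ) (q : Module.End K V) (x : Fin (n + 1) → V) :
    gb n q x = inn K V n (out K V n x) + las K V n (q (x (Fin.last n))) := rfl

theorem gb_inn (n : ℕ) (q : Module.End K V) (x : Fin n → V) :
    gb n q (inn K V n x) = inn K V n x := by
  rw [gb_apply, out_inn, inn_last, map_zero, map_zero, add_zero]

theorem gb_las (n : ℕ) (q : Module.End K V) (x : V) :
    gb n q (las K V n x) = las K V n (q x) := by
  rw [gb_apply, out_las, las_last, map_zero, zero_add]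

theorem compLeft_inn (n : ℕ) (X : Module.End K V) (x : Fin n → V) :
    X.compLeft (Fin (n + 1)) (inn K V n x) = inn K V n (X.compLeft (Fin n) x) := by
  funext i
  refine Fin.lastCases ?_ (fun j => ?_) i
  · simp [LinearMap.compLeft]
  · simp [LinearMap.compLeft]

theorem compLeft_las (n : ℕ) (X : Module.End K V) (x : V) :
    X.compLeft (Fin (n + 1)) (las K V n x) = las K V n (X x) := by
  funext i
  refine Fin.lastCases ?_ (fun j => ?_) i
  · simp [LinearMap.compLeft]
  · simp [LinearMap.compLeft]

theorem compLeft_out (n : ℕ) (X : Module.End K V) (x : Fin (n + 1) → V) :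
    out K V n (X.compLeft (Fin (n + 1)) x) = X.compLeft (Fin n) (out K V n x) := rfl

end basic

section der

variable {K : Type} [Field K]

theorem isDer_mul {W : Type} [AddCommGroup W] [Module K W]
    {D : Module.End K (ExteriorAlgebra K W)} {s : Module.End K W} (h : IsDer D s)
    (x y : ExteriorAlgebra K W) : D (x * y) = D x * y + x * D y := by
  induction x using CliffordAlgebra.left_induction with
  | algebraMap r =>
    have e1 : ∀ z : ExteriorAlgebra K W, algebraMap K (ExteriorAlgebra K W) r * z = r • z :=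
      fun z => (Algebra.smul_def r z).symm
    have e2 : D (algebraMap K (ExteriorAlgebra K W) r * y) =
        D (algebraMap K (ExteriorAlgebra K W) r) * y + algebraMap K (ExteriorAlgebra K W) r * D y := by
      rw [e1, e1, h.1, zero_mul, zero_add, map_smul]
    exact e2
  | add a b ha hb =>
    rw [add_mul, map_add, ha, hb, map_add, add_mul, add_mul]
    abel
  | ι_mul a m ha =>
    have h1 := h.2 m (a * y)
    have h2 := h.2 m a
    change D (ExteriorAlgebra.ι K m * a * y) = D (ExteriorAlgebra.ι K m * a) * y +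
      ExteriorAlgebra.ι K m * a * D y
    rw [mul_assoc, h1, h2, ha, add_mul, mul_add, mul_assoc, mul_assoc, mul_assoc]
    abel

variable {V : Type} [AddCommGroup V] [Module K V] [FiniteDimensional K V]

theorem Dv_mul (n : ℕ) (X : Module.End K V) (x y : ExteriorAlgebra K (Fin n → V)) :
    Dv n X (x * y) = Dv n X x * y + x * Dv n X y := isDer_mul (isDer_Dv n X) x y

theorem Dv_algebraMap (n : ℕ) (X : Module.End K V) (t : K) :
    Dv n X (algebraMap K (ExteriorAlgebra K (Fin n → V)) t) = 0 := (isDer_Dv n X).1 t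

theorem Dv_one (n : ℕ) (X : Module.End K V) :
    Dv n X (1 : ExteriorAlgebra K (Fin n → V)) = 0 := by
  rw [← map_one (algebraMap K (ExteriorAlgebra K (Fin n → V)))]
  exact Dv_algebraMap n X 1

theorem Dv_ι (n : ℕ) (X : Module.End K V) (w : Fin n → V) :
    Dv n X (ExteriorAlgebra.ι K w) = ExteriorAlgebra.ι K (X.compLeft (Fin n) w) := by
  have h := (isDer_Dv n X).2 w 1
  rw [mul_one, mul_one, Dv_one, mul_zero, add_zero] at h
  exact h

/-- `Dv` and maps which commute with `X`. -/
theorem Dv_map {m n : ℕ} (X : Module.End K V) (g : (Fin m → V) →ₗ[K] (Fin n → V))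
    (hg : ∀ w, g (X.compLeft (Fin m) w) = X.compLeft (Fin n) (g w))
    (x : ExteriorAlgebra K (Fin m → V)) :
    Dv n X (ExteriorAlgebra.map g x) = ExteriorAlgebra.map g (Dv m X x) :=
  ((isDer_Dv m X).map (isDer_Dv n X) g hg x).symm

theorem Dv_inn (n : ℕ) (X : Module.End K V) (x : ExteriorAlgebra K (Fin n → V)) :
    Dv (n + 1) X (ExteriorAlgebra.map (inn K V n) x) =
      ExteriorAlgebra.map (inn K V n) (Dv n X x) :=
  Dv_map X _ (fun w => (compLeft_inn n X w).symm) x

theorem gb_comm (n : ℕ) {q X : Module.End K V} (h : q * X = X * q) (w : Fin (n + 1) → V) :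
    gb n q (X.compLeft (Fin (n + 1)) w) = X.compLeft (Fin (n + 1)) (gb n q w) := by
  have e1 : X.compLeft (Fin (n + 1)) w (Fin.last n) = X (w (Fin.last n)) := rfl
  have e2 : q (X (w (Fin.last n))) = X (q (w (Fin.last n))) := LinearMap.congr_fun h _
  rw [gb_apply, gb_apply, map_add, compLeft_inn, compLeft_las, compLeft_out, e1, e2]

theorem Dv_gb (n : ℕ) {q X : Module.End K V} (h : q * X = X * q)
    (x : ExteriorAlgebra K (Fin (n + 1) → V)) :
    Dv (n + 1) X (ExteriorAlgebra.map (gb n q) x) =
      ExteriorAlgebra.map (gb n q) (Dv (n + 1) X x) :=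
  Dv_map X _ (gb_comm n h) x

end der

section kl

variable {K V : Type} [Field K] [AddCommGroup V] [Module K V] [FiniteDimensional K V]
  {ψ : LinearMap.BilinForm K V} {C : Subalgebra K (Module.End K V)} {n : ℕ}

/-- The elements killed by the Lefschetz Lie algebra form a subalgebra. -/
def KLalg (ψ : LinearMap.BilinForm K V) (C : Subalgebra K (Module.End K V)) (n : ℕ) :
    Subalgebra K (ExteriorAlgebra K (Fin n → V)) where
  carrier := {x | KL ψ C n x}
  mul_mem' {x y} hx hy := fun X hX => by rw [Dv_mul, hx X hX, hy X hX, zero_mul, mul_zero, add_zero]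
  add_mem' {x y} hx hy := fun X hX => by rw [map_add, hx X hX, hy X hX, add_zero]
  algebraMap_mem' t := fun X _ => Dv_algebraMap n X t

theorem mem_KLalg {x : ExteriorAlgebra K (Fin n → V)} : x ∈ KLalg ψ C n ↔ KL ψ C n x := Iff.rfl

/-- The elements killed by the derived algebra form a subalgebra. -/
def KPalg (ψ : LinearMap.BilinForm K V) (C : Subalgebra K (Module.End K V)) {N : ℕ}
    (ε : Fin N → Module.End K V) (n : ℕ) : Subalgebra K (ExteriorAlgebra K (Fin n → V)) where
  carrier := {x | KP ψ C ε n x}
  mul_mem' {x y} hx hy := fun X hX h => by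
    rw [Dv_mul, hx X hX h, hy X hX h, zero_mul, mul_zero, add_zero]
  add_mem' {x y} hx hy := fun X hX h => by rw [map_add, hx X hX h, hy X hX h, add_zero]
  algebraMap_mem' t := fun X _ _ => Dv_algebraMap n X t

theorem mem_KPalg {N : ℕ} {ε : Fin N → Module.End K V} {x : ExteriorAlgebra K (Fin n → V)} :
    x ∈ KPalg ψ C ε n ↔ KP ψ C ε n x := Iff.rfl

theorem KL.inn {x : ExteriorAlgebra K (Fin n → V)} (h : KL ψ C n x) :
    KL ψ C (n + 1) (ExteriorAlgebra.map (inn K V n) x) := fun X hX => by
  rw [Dv_inn, h X hX, map_zero]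

theorem KP.inn {N : ℕ} {ε : Fin N → Module.End K V} {x : ExteriorAlgebra K (Fin n → V)}
    (h : KP ψ C ε n x) : KP ψ C ε (n + 1) (ExteriorAlgebra.map (Ws.inn K V n) x) :=
  fun X hX h' => by rw [Dv_inn, h X hX h', map_zero]

theorem NN_mono {N : ℕ} {ε : Fin N → Module.End K V} {S S' : Set (Fin N)} (h : S ⊆ S') :
    NN ψ C ε S n ≤ NN ψ C ε S' n := by
  refine Algebra.adjoin_mono (Set.union_subset_union_right _ ?_)
  rintro w ⟨a, ha, hw⟩
  exact ⟨a, h ha, hw⟩

theorem KL.mem_NN {N : ℕ} {ε : Fin N → Module.End K V} {S : Set (Fin N)}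
    {x : ExteriorAlgebra K (Fin n → V)} (h : KL ψ C n x) : x ∈ NN ψ C ε S n :=
  Algebra.subset_adjoin (Or.inl h)

theorem Tops.mem_NN {N : ℕ} {ε : Fin N → Module.End K V} {S : Set (Fin N)} {a : Fin N}
    (ha : a ∈ S) {x : ExteriorAlgebra K (Fin n → V)} (h : x ∈ Tops C (ε a) n) :
    x ∈ NN ψ C ε S n :=
  Algebra.subset_adjoin (Or.inr ⟨a, ha, h⟩)

end kl

end Pool.Agent.Lib.MP_640417_ag.Ws
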