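import Pool.Agent.Lib.MP_640417_ag.Ws.SpecB
import Pool.Agent.Lib.MP_640417_ag.Dfr.BeInj

/-!
# The structure of the Tate classes: base change of the exterior algebra
-/

set_option autoImplicit false

namespace Pool.Agent.Lib.MP_640417_ag.Ws

theorem pBeInj : SBeInj := by
  intro l _ V _ _ _ K _ _ n x hx
  exact Dfr.be_inj n x hx

end Pool.Agent.Lib.MP_640417_ag.Ws
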