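import Pool.Agent.Lib.MP_640417_ag.Ws.SpecB
import Pool.Agent.Lib.MP_640417_ag.Tg.NtK

/-!
# The structure of the Tate classes: central elements over `K`
-/

set_option autoImplicit false

namespace Pool.Agent.Lib.MP_640417_ag.Ws

open Module TensorProduct Pool.Agent.Lib.MP_640417_ag Pool.Agent.Lib.MP_640417_ag.Frob
  Pool.Agent.Lib.MP_640417_ag.Tor Pool.Agent.Lib.MP_640417_ag.Tg
  Pool.Agent.Lib.MP_640417_ag.Lef Pool.Agent.Lib.MP_640417_ag.Dfr
  Pool.Agent.Lib.MP_640417_ag.Ty Pool.Agent.Lib.MP_640417_ag.Ctl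

open Pool.Agent.Lib.MP_640417_ag.Four (Dv cp sum_cp cp_mul_baseChange cp_baseChange_mul form_cp
  Dv_sum Dv_smul)

theorem pCenK : SCenK := by
  intro l _ Γ _ _ _ _ V _ _ _ ρ U hU K _ _ n x hx z hz hzc hzs
  classical
  have hanti : ∀ u v, ρ.form u v = - ρ.form v u := Four.anti ρ.form_alt
  have hanti' : ∀ u v, ρ.form.baseChange K u v = - ρ.form.baseChange K v u :=
    Four.anti (alt_baseChange K ρ.form ρ.form_alt)
  have hcen : ∀ ℓ : K →ₗ[ℚ_[l]] ℚ_[l], CentralSkew ρ (cp ℓ z) := by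
    intro ℓ
    refine ⟨⟨U, fun γ hγ => ?_⟩, fun c hc => ?_, fun x y => ?_⟩
    · rw [← cp_mul_baseChange, ← cp_baseChange_mul]
      congr 1
      rw [cenK, Subalgebra.mem_centralizer_iff] at hz
      exact (hz _ ⟨⟨γ, hγ⟩, rfl⟩).symm
    · rw [← cp_mul_baseChange, ← cp_baseChange_mul, hzc _ (NtK_mem ρ U hU hc)]
    · rw [hanti x, form_cp, form_cp, ← map_neg, ← hanti', ← map_add, hzs, neg_add_cancel,
        map_zero]
  let b := Module.Free.chooseBasis ℚ_[l] K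
  obtain ⟨τ, hτ⟩ := sum_cp b z
  rw [hτ, Dv_sum, LinearMap.sum_apply]
  refine Finset.sum_eq_zero fun t _ => ?_
  rw [Dv_smul, LinearMap.smul_apply, Dv_be, hx _ (hcen _), map_zero, smul_zero]

end Pool.Agent.Lib.MP_640417_ag.Ws
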