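import Pool.Agent.Lib.MP_640417_ag.Ws.Hh

/-!
# The structure of the Tate classes: the center of the Lefschetz Lie algebra
-/

set_option autoImplicit false

namespace Pool.Agent.Lib.MP_640417_ag.Ws

open Module Pool.Agent.Lib.MP_640417_ag Pool.Agent.Lib.MP_640417_ag.Tor
  Pool.Agent.Lib.MP_640417_ag.Lef Pool.Agent.Lib.MP_640417_ag.Dfr

open Pool.Agent.Lib.MP_640417_ag.Four (Dv IsDer isDer_Dv)

theorem pCenL : SCenL := by
  intro K V _ _ _ _ _ ψ C N st ε r u v hD X hX
  classical
  have hs := hD.sys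
  have huv := hD.uv
  have hn : ∀ j, (rk (ε j) : K) ≠ 0 := fun j => by exact_mod_cast rk_ne hs j
  have hτr : ∀ j, tr (ε j * X) = tr (ε (r j) * X) := by
    intro j
    rw [← huv.uv j, mul_assoc, tr_comm, mul_assoc, hX.2 _ (huv.uC j), ← mul_assoc, huv.vu]
  have hτs : ∀ j, tr (ε (st j) * X) = - tr (ε j * X) := by
    intro j
    have h2 : tr (ε j * X) = tr (-(X * ε (st j))) := by
      refine tr_adj ψ hD.nd fun x y => ?_
      show ψ (ε j (X x)) y = ψ x (-(X (ε (st j) y)))
      rw [hs.adj, hX.1, map_neg]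
    have h3 : tr (-(X * ε (st j))) = - tr (ε (st j) * X) := by
      rw [tr_comm]
      unfold tr
      rw [map_neg]
    rw [h2, h3, neg_neg]
  let t : Fin N → K := fun a => if r a = a then tr (ε a * X) / (2 * (rk (ε a) : K)) else 0
  refine ⟨t, fun j => ?_⟩
  have h1 : ε j * ∑ a, t a • hh ε r st a = (∑ a, t a * wt K r st a j) • ε j := by
    rw [Finset.mul_sum, Finset.sum_smul]
    refine Finset.sum_congr rfl fun a _ => ?_
    rw [mul_smul_comm, eps_hh hs, smul_smul]
  have h2 : ∑ a, t a * wt K r st a j = t (r j) - t (st (r j)) := by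
    unfold wt
    simp only [mul_sub, Finset.sum_sub_distrib, mul_ite, mul_one, mul_zero]
    congr 1
    · rw [Finset.sum_ite_eq]
      simp
    · rw [Finset.sum_eq_single (st (r j))]
      · rw [if_pos (hs.inv (r j)).symm]
      · intro b _ hb
        rw [if_neg]
        intro h
        apply hb
        rw [h, hs.inv]
      · intro h
        exact absurd (Finset.mem_univ _) h
  have h3 : t (r j) = tr (ε j * X) / (2 * (rk (ε j) : K)) := by
    change (if r (r j) = r j then tr (ε (r j) * X) / (2 * (rk (ε (r j)) : K)) else 0) = _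
    rw [if_pos (huv.rr j), ← hτr, rk_r hD]
  have h4 : t (st (r j)) = - (tr (ε j * X) / (2 * (rk (ε j) : K))) := by
    change (if r (st (r j)) = st (r j) then tr (ε (st (r j)) * X) /
      (2 * (rk (ε (st (r j))) : K)) else 0) = _
    rw [if_pos (by rw [huv.rst, huv.rr]), hτs, ← hτr, rk_st hD, rk_r hD, neg_div]
  rw [mul_sub, h1, h2, h3, h4]
  unfold tr
  rw [map_sub, map_smul, smul_eq_mul]
  have h5 := tr_idem (hs.idem j)
  unfold tr at h5
  rw [h5]
  have h6 := hn j
  field_simp
  ring

end Pool.Agent.Lib.MP_640417_ag.Ws
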