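import Pool.Agent.Lib.MP_640417_ag.Ws.Hh

/-!
# The structure theorem, algebraic form
-/

set_option autoImplicit false

namespace Pool.Agent.Lib.MP_640417_ag.Ws

open Module Pool.Agent.Lib.MP_640417_ag Pool.Agent.Lib.MP_640417_ag.Tor
  Pool.Agent.Lib.MP_640417_ag.Lef Pool.Agent.Lib.MP_640417_ag.Dfr

open Pool.Agent.Lib.MP_640417_ag.Four (Dv IsDer isDer_Dv Dv_zero Dv_add Dv_smul Dv_sum)

/-- An element which is killed by the derived algebra and by all central elements is killed by
the Lefschetz Lie algebra. -/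
theorem CoreW_kl (hCenL : SCenL) {K V : Type} [Field K] [CharZero K] [AddCommGroup V] [Module K V]
    [FiniteDimensional K V] {ψ : LinearMap.BilinForm K V} {C : Subalgebra K (Module.End K V)}
    {N : ℕ} {st : Fin N → Fin N} {ε : Fin N → Module.End K V} {r : Fin N → Fin N}
    {u v : Fin N → Module.End K V} (hD : Dat ψ C N st ε r u v) {n : ℕ}
    {y : ExteriorAlgebra K (Fin n → V)} (hy : KP ψ C ε n y)
    (h0 : ∀ a, Dv n (hh ε r st a) y = 0) : KL ψ C n y := by
  intro X hX
  obtain ⟨t, ht⟩ := hCenL K V ψ C N st ε r u v hD X hX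
  have hl : ∀ a, IsLef ψ C (hh ε r st a) := fun a => hh_lef hD a
  have hsum : IsLef ψ C (∑ a, t a • hh ε r st a) := by
    refine ⟨fun x z => ?_, fun c hc => ?_⟩
    · rw [LinearMap.sum_apply, LinearMap.sum_apply, map_sum, map_sum, LinearMap.sum_apply,
        ← Finset.sum_neg_distrib]
      refine Finset.sum_congr rfl fun a _ => ?_
      rw [LinearMap.smul_apply, LinearMap.smul_apply, map_smul, map_smul, LinearMap.smul_apply,
        (hl a).1, smul_neg]
    · rw [Finset.sum_mul, Finset.mul_sum]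
      refine Finset.sum_congr rfl fun a _ => ?_
      rw [smul_mul_assoc, mul_smul_comm, (hl a).2 c hc]
  have hX' : IsLef ψ C (X - ∑ a, t a • hh ε r st a) := by
    refine ⟨fun x z => ?_, fun c hc => ?_⟩
    · rw [LinearMap.sub_apply, LinearMap.sub_apply, map_sub, map_sub, LinearMap.sub_apply, hX.1,
        hsum.1]
      ring
    · rw [sub_mul, mul_sub, hX.2 c hc, hsum.2 c hc]
  have h1 := hy _ hX' ht
  have h2 : Dv n X = Dv n (X - ∑ a, t a • hh ε r st a) + Dv n (∑ a, t a • hh ε r st a) := by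
    rw [← Dv_add, sub_add_cancel]
  rw [h2, LinearMap.add_apply, h1, zero_add, Dv_sum, LinearMap.sum_apply]
  refine Finset.sum_eq_zero fun a _ => ?_
  rw [Dv_smul, LinearMap.smul_apply, h0, smul_zero]

theorem pCoreW (hWts : SWts) (hDiv : SDiv) (_hHh : SHh) (hCenL : SCenL) (hInd : SInd) :
    SCoreW := by
  intro K V _ _ _ _ _ ψ C N st ε r u v hD n m x hx hKP
  classical
  have hs := hD.sys
  have huv := hD.uv
  -- integral weights of a weight vector
  have key : ∀ y : ExteriorAlgebra K (Fin n → V), y ∈ ⋀[K]^m (Fin n → V) → KP ψ C ε n y → y ≠ 0 →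
      (∃ κ : Fin N → K, ∀ a, Dv n (hh ε r st a) y = κ a • y) →
      ∃ κ : Fin N → ℤ, (∀ a, r a = a →
        Dv n (hh ε r st a) y = (((κ a * (rk (ε a) : ℤ) : ℤ)) : K) • y) ∧
        (∀ a, r a = a → |κ a| * (rk (ε a) : ℤ) ≤ (m : ℤ)) := by
    intro y hy hyP hy0 hκ
    obtain ⟨κ, hκ⟩ := hκ
    have h1 : ∀ a, ∃ k : ℤ, r a = a → κ a = (k : K) * (rk (ε a) : K) ∧
        |k| * (rk (ε a) : ℤ) ≤ (m : ℤ) := by
      intro a
      by_cases ha : r a = a
      · obtain ⟨k, hk⟩ := hDiv K V ψ C N st ε r u v hD n m y hy hy0 hyP a ha (κ a) (hκ a)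
        exact ⟨k, fun _ => hk⟩
      · exact ⟨0, fun h => absurd h ha⟩
    choose k hk using h1
    refine ⟨k, fun a ha => ?_, fun a ha => (hk a ha).2⟩
    rw [hκ a, (hk a ha).1]
    push_cast
    rfl
  have hfin : ∀ y : ExteriorAlgebra K (Fin n → V), y ∈ ⋀[K]^m (Fin n → V) → KP ψ C ε n y →
      (∃ κ : Fin N → K, ∀ a, Dv n (hh ε r st a) y = κ a • y) →
      y ∈ NN ψ C ε {a | r a = a ∧ st a ≠ a} n ∧
        ((∀ a, r a = a → st a ≠ a → m < rk (ε a)) → KL ψ C n y) := by
    intro y hy hyP hκ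
    by_cases hy0 : y = 0
    · subst hy0
      exact ⟨Subalgebra.zero_mem _, fun _ X _ => map_zero _⟩
    obtain ⟨κ, hκ1, hκ2⟩ := key y hy hyP hy0 hκ
    -- opposite weights
    have hopp : ∀ a, r a = a → κ (st a) = - κ a := by
      intro a ha
      have ha' : r (st a) = st a := rst_eq huv ha
      have h1 := hκ1 a ha
      have h2 := hκ1 (st a) ha'
      have hneg : Dv n (-hh ε r st a) = - Dv n (hh ε r st a) := by
        have e1 : Dv n (-hh ε r st a) + Dv n (hh ε r st a) = 0 := by
          rw [← Dv_add, neg_add_cancel, Dv_zero]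
        exact eq_neg_of_add_eq_zero_left e1
      rw [hh_st hs a, hneg, LinearMap.neg_apply, h1, ← neg_smul, rk_st hD] at h2
      have h3 := smul_left_injective K hy0 h2
      have h4 : -(κ a * (rk (ε a) : ℤ)) = κ (st a) * (rk (ε a) : ℤ) := by
        have h5 : ((-(κ a * (rk (ε a) : ℤ)) : ℤ) : K) = ((κ (st a) * (rk (ε a) : ℤ) : ℤ) : K) := by
          rw [← h3]
          push_cast
          ring
        exact_mod_cast h5
      have h6 : (rk (ε a) : ℤ) ≠ 0 := by exact_mod_cast rk_ne hs a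
      have h7 : κ (st a) * (rk (ε a) : ℤ) = (- κ a) * (rk (ε a) : ℤ) := by rw [← h4]; ring
      exact mul_right_cancel₀ h6 h7
    refine ⟨?_, fun hm => ?_⟩
    · have h1 := hInd K V ψ C N st ε r u v hD {a | r a = a ∧ 0 < κ a} (fun s hs' => hs'.1) (by
          intro s hs' hs''
          have h2 := hopp s hs'.1
          have h3 : 0 < κ s := hs'.2
          have h4 : 0 < κ (st s) := hs''.2
          omega) n y hyP κ hκ1 (fun a ha h => ⟨ha, h⟩)
      refine NN_mono ?_ h1
      rintro a ⟨ha, hpos⟩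
      refine ⟨ha, fun hst => ?_⟩
      have h2 := hopp a ha
      rw [hst] at h2
      omega
    · refine CoreW_kl hCenL hD hyP fun a => ?_
      by_cases ha : r a = a
      · by_cases hst : st a = a
        · rw [hh_self hst, Dv_zero, LinearMap.zero_apply]
        · have h1 := hκ2 a ha
          have h2 := hm a ha hst
          have h3 : κ a = 0 := by
            by_contra hne
            have h4 : 1 ≤ |κ a| := Int.one_le_abs hne
            have h5 : (rk (ε a) : ℤ) ≤ |κ a| * (rk (ε a) : ℤ) :=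
              le_mul_of_one_le_left (by positivity) h4
            have h6 : (m : ℤ) < (rk (ε a) : ℤ) := by exact_mod_cast h2
            linarith
          rw [hκ1 a ha, h3, zero_mul, Int.cast_zero, zero_smul]
      · rw [hh_zero hs huv ha, Dv_zero, LinearMap.zero_apply]
  have hspan := hWts K V ψ C N st ε r u v hD n m x hx hKP
  refine ⟨?_, fun hm => ?_⟩
  · refine Submodule.span_le (p := Subalgebra.toSubmodule
      (NN ψ C ε {a | r a = a ∧ st a ≠ a} n)) |>.2 ?_ hspan
    rintro y ⟨h1, h2, h3⟩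
    exact (hfin y h1 h2 h3).1
  · refine (Submodule.span_le (p := Subalgebra.toSubmodule (KLalg ψ C n)) |>.2 ?_ hspan :
      x ∈ Subalgebra.toSubmodule (KLalg ψ C n))
    rintro y ⟨h1, h2, h3⟩
    exact (hfin y h1 h2 h3).2 hm

end Pool.Agent.Lib.MP_640417_ag.Ws
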