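import Pool.Agent.Lib.MP_640417_ag.Ws.Hh

/-!
# The structure of the Tate classes: dual bases
-/

set_option autoImplicit false

namespace Pool.Agent.Lib.MP_640417_ag.Ws

open Module Pool.Agent.Lib.MP_640417_ag Pool.Agent.Lib.MP_640417_ag.Tor
  Pool.Agent.Lib.MP_640417_ag.Lef Pool.Agent.Lib.MP_640417_ag.Dfr

theorem pDB : SDB := by
  intro K V _ _ _ _ _ ψ C N st ε r u v hD a
  classical
  let W : Submodule K V := LinearMap.range (ε a)
  let b : Basis (Fin (rk (ε a))) K W := Module.finBasisOfFinrankEq K W rfl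
  let π : V →ₗ[K] W := (ε a).rangeRestrict
  have hπ : ∀ x, ((π x : W) : V) = ε a x := fun _ => rfl
  let e : Fin (rk (ε a)) → V := fun i => (b i : V)
  have hee : ∀ i, ε a (e i) = e i := by
    intro i
    obtain ⟨y, hy⟩ := (b i).2
    change ε a (b i : V) = (b i : V)
    rw [← hy, ← Module.End.mul_apply, hD.sys.idem]
  have hπe : ∀ i, π (e i) = b i := fun i => Subtype.ext (by rw [hπ, hee])
  -- the dual basis
  let g : Fin (rk (ε a)) → V := fun i =>
    (Adj_equiv ψ hD.nd).symm (-((b.coord i) ∘ₗ π))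
  have hg : ∀ i x, ψ x (g i) = b.coord i (π x) := by
    intro i x
    have h1 : ψ (g i) = -((b.coord i) ∘ₗ π) := by
      rw [← Adj_equiv_apply ψ hD.nd]
      exact (Adj_equiv ψ hD.nd).apply_symm_apply _
    rw [hD.anti, h1, LinearMap.neg_apply, neg_neg]
    rfl
  have hπε : ∀ x, π (ε a x) = π x := fun x => Subtype.ext (by
    rw [hπ, hπ, ← Module.End.mul_apply, hD.sys.idem])
  have hqf : ∀ i, ε (st a) (g i) = g i := by
    intro i
    rw [← sub_eq_zero]
    apply hD.nd
    intro y
    rw [hD.anti, map_sub, ← hD.sys.adj, hg, hg, hπε, sub_self, neg_zero]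
  have hexp : ∀ x, ε a x = ∑ i, ψ x (g i) • e i := by
    intro x
    have h1 := congrArg (fun y : W => (y : V)) (b.sum_repr (π x))
    simp only [Submodule.coe_sum, Submodule.coe_smul] at h1
    rw [← hπ, ← h1]
    refine Finset.sum_congr rfl fun i _ => ?_
    rw [hg]
    rfl
  have hdual : ∀ i j, ψ (e i) (g j) = if i = j then 1 else 0 := by
    intro i j
    rw [hg, hπe, Basis.coord_apply, Basis.repr_self, Finsupp.single_apply]
  have hexq : ∀ x, ε (st a) x = ∑ i, ψ (e i) x • g i := by
    intro x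
    rw [← sub_eq_zero]
    apply hD.nd
    intro y
    have h1 : ψ y (ε (st a) x) = ∑ i, ψ y (g i) * ψ (e i) x := by
      rw [← hD.sys.adj, hexp, map_sum, LinearMap.sum_apply]
      exact Finset.sum_congr rfl fun i _ => by
        rw [map_smul, LinearMap.smul_apply, smul_eq_mul]
    rw [hD.anti, map_sub, h1, map_sum, neg_eq_zero, sub_eq_zero]
    exact Finset.sum_congr rfl fun i _ => by rw [map_smul, smul_eq_mul, mul_comm]
  have hle : LinearIndependent K e := by
    have := b.linearIndependent.map' W.subtype (Submodule.ker_subtype W)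
    exact this
  have hlg : LinearIndependent K g := by
    rw [Fintype.linearIndependent_iff]
    intro c hc i
    have h1 := congrArg (ψ (e i)) hc
    rw [map_sum, map_zero, Finset.sum_eq_single i] at h1
    · rw [map_smul, hdual, if_pos rfl, smul_eq_mul, mul_one] at h1
      exact h1
    · intro j _ hj
      rw [map_smul, hdual, if_neg (Ne.symm hj), smul_zero]
    · intro h
      exact absurd (Finset.mem_univ _) h
  refine ⟨e, g, ⟨hee, hqf, hdual, hexp, hexq⟩, hle, hlg, ?_, ?_⟩
  · refine le_antisymm (Submodule.span_le.2 ?_) ?_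
    · rintro _ ⟨i, rfl⟩
      exact ⟨e i, hee i⟩
    · rintro _ ⟨x, rfl⟩
      rw [hexp]
      exact Submodule.sum_mem _ fun i _ => Submodule.smul_mem _ _ (Submodule.subset_span ⟨i, rfl⟩)
  · refine le_antisymm (Submodule.span_le.2 ?_) ?_
    · rintro _ ⟨i, rfl⟩
      exact ⟨g i, hqf i⟩
    · rintro _ ⟨x, rfl⟩
      rw [hexq]
      exact Submodule.sum_mem _ fun i _ => Submodule.smul_mem _ _ (Submodule.subset_span ⟨i, rfl⟩)

end Pool.Agent.Lib.MP_640417_ag.Ws
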