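import Pool.Agent.Lib.MP_640417_ag.Ws.SpecB
import Pool.Agent.Lib.MP_640417_ag.Tg.CcL
import Pool.Agent.Lib.MP_640417_ag.Lef.RegL
import Pool.Agent.Lib.MP_640417_ag.Lef.Units
import Pool.Agent.Lib.MP_640417_ag.Lef.Eps

/-!
# The structure of the Tate classes: the data over `K`
-/

set_option autoImplicit false

namespace Pool.Agent.Lib.MP_640417_ag.Ws

open Module TensorProduct Pool.Agent.Lib.MP_640417_ag Pool.Agent.Lib.MP_640417_ag.Frob
  Pool.Agent.Lib.MP_640417_ag.Tor Pool.Agent.Lib.MP_640417_ag.Tg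
  Pool.Agent.Lib.MP_640417_ag.Lef Pool.Agent.Lib.MP_640417_ag.Dfr
  Pool.Agent.Lib.MP_640417_ag.Ty Pool.Agent.Lib.MP_640417_ag.Ctl

private theorem DatK_a {K V : Type} [Field K] [AddCommGroup V] [Module K V] {c X : Module.End K V}
    {t : K} (h : c * (X - t • (1 : Module.End K V)) = (X - t • (1 : Module.End K V)) * c) :
    c * X = X * c := by
  rw [mul_sub, sub_mul, smul_mul_assoc, mul_smul_comm, one_mul, mul_one] at h
  exact sub_left_injective h

private theorem DatK_b {K V : Type} [Field K] [AddCommGroup V] [Module K V] {d X : Module.End K V}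
    (t : K) (h : d * X = X * d) :
    (X - t • (1 : Module.End K V)) * d = d * (X - t • (1 : Module.End K V)) := by
  rw [mul_sub, sub_mul, smul_mul_assoc, mul_smul_comm, one_mul, mul_one, h]

theorem pDatK : SDatK := by
  intro l _ Γ _ _ _ _ V _ _ _ ρ hss K _ _ _ h3
  classical
  obtain ⟨U, hU⟩ := exists_U0 ρ
  have hCK : CharZero K := charZero_of_injective_algebraMap (algebraMap ℚ_[l] K).injective
  have hC := pCcL l Γ V ρ hss U hU K
  obtain ⟨N, st, ε, hS⟩ := h3 U hU
  have hreg := reg_L K (res ρ U).T (semi_res ρ U hss)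
  have hadjC := adjC_L K (res ρ U).T ρ.form ρ.form_alt ρ.form_nondeg
    (fun γ => ((res ρ U).χ γ)⁻¹) (fun γ => (res ρ U).form_equivariant γ)
  obtain ⟨r, u, v, hUV⟩ := exists_uv hC.alt hC.nd hS hreg hadjC
  refine ⟨U, N, st, ε, r, u, v, hU, hC, hC.alt, hC.anti, hC.nd, hS, hUV, fun c hc => ?_⟩
  refine hC.bic c fun X hX => ?_
  obtain ⟨m, hm⟩ := hC.mult X hX
  refine DatK_a (t := m / 2) (hc (X - (m / 2) • (1 : Module.End K (K ⊗[ℚ_[l]] V))) (fun x y => ?_)
    fun d hd => DatK_b (m / 2) (hC.com X hX d hd))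
  have h2 := hm x y
  simp only [LinearMap.sub_apply, LinearMap.smul_apply, Module.End.one_apply, map_sub, map_smul,
    smul_eq_mul]
  linear_combination h2

end Pool.Agent.Lib.MP_640417_ag.Ws
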