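import Pool.Agent.Lib.MP_640417_ag.Tg.DefsR

/-!
# Weil classes: definitions
-/

namespace Pool.Agent.Lib.MP_640417_ag.Ws

open Module TensorProduct Pool.Agent.Lib.MP_640417_ag Pool.Agent.Lib.MP_640417_ag.Frob
  Pool.Agent.Lib.MP_640417_ag.Tor Pool.Agent.Lib.MP_640417_ag.Tg

section alg

variable {K V : Type} [Field K] [AddCommGroup V] [Module K V]

/-- The operators of `L` on the `n`-th power of `V`. -/
def diag (n : ℕ) (L : Submodule K (Module.End K V)) : Submodule K (Module.End K (Fin n → V)) :=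
  Submodule.span K ((fun X : Module.End K V => X.compLeft (Fin n)) '' L)

/-- `w` is the product of a basis of an irreducible submodule of the `n`-th power of `V`. -/
def TopForm (L : Submodule K (Module.End K V)) (n : ℕ) (w : ExteriorAlgebra K (Fin n → V)) :
    Prop :=
  ∃ (d : ℕ) (u : Fin d → (Fin n → V)), LinearIndependent K u ∧
    IrrMod (diag n L) (Submodule.span K (Set.range u)) ∧ w = ExteriorAlgebra.ιMulti K d u

end alg

section rep

variable {Γ : Type} [Group Γ] [TopologicalSpace Γ] {V : Type} [AddCommGroup V] (l : ℕ)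
  [Fact l.Prime] [Module ℚ_[l] V]

/-- The Tate classes of codimension `i` on the `n`-th power, over `K` (the `K`-combinations of the Tate classes). -/
def TateK (ρ : H1Rep Γ ℚ_[l] V) (K : Type) [Field K] [Algebra ℚ_[l] K] (n i : ℕ)
    (w : ExteriorAlgebra K (Fin n → K ⊗[ℚ_[l]] V)) : Prop :=
  TateClass (fun γ => ((ρ.T γ).baseChange K).compLeft (Fin n))
    ((Units.map (algebraMap ℚ_[l] K : ℚ_[l] →* K)).comp ρ.χ) i w

/-- **Weil classes**: the Tate classes over `K` which are products of top forms of irreducible submodules of the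
`n`-th power. -/
def WeilClass (ρ : H1Rep Γ ℚ_[l] V) (K : Type) [Field K] [Algebra ℚ_[l] K] (n : ℕ)
    (w : ExteriorAlgebra K (Fin n → K ⊗[ℚ_[l]] V)) : Prop :=
  (∃ i, TateK l ρ K n i w) ∧ w ∈ Submonoid.closure {z | TopForm (LieK l ρ K) n z}

/-- The Tate classes of codimension `i` on the `n`-th power are generated by divisor classes and Weil classes. -/
def WeilAt (ρ : H1Rep Γ ℚ_[l] V) (K : Type) [Field K] [Algebra ℚ_[l] K] (n i : ℕ) : Prop :=
  ∀ w : ExteriorAlgebra K (Fin n → K ⊗[ℚ_[l]] V), TateK l ρ K n i w →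
    w ∈ Algebra.adjoin K ({z | TateK l ρ K n 1 z} ∪ {z | WeilClass l ρ K n z})

/-- **All Tate classes on all powers are generated by divisor classes and Weil classes.** -/
def WeilGen (ρ : H1Rep Γ ℚ_[l] V) (K : Type) [Field K] [Algebra ℚ_[l] K] : Prop :=
  ∀ n i : ℕ, WeilAt l ρ K n i

/-- **No exotic classes of low codimension.** If all irreducible constituents which are not self-dual have
dimension greater than `2 i`, then no power has an exotic Tate class of codimension `i`. -/
def LowOK (ρ : H1Rep Γ ℚ_[l] V) (K : Type) [Field K] [Algebra ℚ_[l] K] : Prop :=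
  ∀ i : ℕ, (∀ W : Submodule K (K ⊗[ℚ_[l]] V), IrrMod (LieK l ρ K) W →
      ¬ DualMod (ρ.form.baseChange K) (LieK l ρ K) W W → 2 * i < finrank K W) →
    ∀ (n : ℕ) (x : ExteriorAlgebra ℚ_[l] (Fin n → V)),
      ¬ ExoticTateClass (fun γ => (ρ.T γ).compLeft (Fin n)) ρ.χ i x

end rep

end Pool.Agent.Lib.MP_640417_ag.Ws
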