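import Pool.Agent.Lib.MP_640417_ag.Ws.Hh

/-!
# The structure of the Tate classes: divisibility of the weights
-/

set_option autoImplicit false

namespace Pool.Agent.Lib.MP_640417_ag.Ws

open Module Pool.Agent.Lib.MP_640417_ag Pool.Agent.Lib.MP_640417_ag.Tor
  Pool.Agent.Lib.MP_640417_ag.Lef Pool.Agent.Lib.MP_640417_ag.Dfr

open Pool.Agent.Lib.MP_640417_ag.Four (Dv IsDer isDer_Dv Dv_add Dv_smul Dv_zero)

theorem pDiv (hInt : SInt) (hHh : SHh) (hRk1 : SRk1) : SDiv := by
  intro K V _ _ _ _ _ ψ C N st ε r u v hD n m y hy hy0 hK a hra μ hμ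
  by_cases hst : st a = a
  · refine ⟨0, ?_, ?_⟩
    · rw [hh_self hst, Dv_zero, LinearMap.zero_apply] at hμ
      rcases smul_eq_zero.1 hμ.symm with h | h
      · rw [h, Int.cast_zero, zero_mul]
      · exact absurd h hy0
    · rw [abs_zero, zero_mul]
      exact Int.natCast_nonneg m
  · obtain ⟨X, hX, hX3, hXt⟩ := hRk1 K V ψ C N st ε r u v hD a hra hst
    have hd : (rk (ε a) : K) ≠ 0 := by exact_mod_cast rk_ne hD.sys a
    obtain ⟨hl, hc, -⟩ := hHh K V ψ C N st ε r u v hD a
    have h1 : Dv n X y = ((rk (ε a) : K)⁻¹ * μ) • y := by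
      have h2 := hK (X + (-(rk (ε a) : K)⁻¹) • hh ε r st a) ⟨fun x z => ?_, fun c hc => ?_⟩
        fun j => ?_
      · rw [Dv_add, Dv_smul, LinearMap.add_apply, LinearMap.smul_apply, hμ, smul_smul, neg_mul,
          neg_smul, ← sub_eq_add_neg, sub_eq_zero] at h2
        exact h2
      · have e1 := hX.1 x z
        have e2 := hl.1 x z
        simp only [LinearMap.add_apply, LinearMap.smul_apply, map_add, map_smul, smul_eq_mul]
        linear_combination e1 + (-(rk (ε a) : K)⁻¹) * e2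
      · rw [add_mul, mul_add, smul_mul_assoc, mul_smul_comm, hX.2 c hc, hl.2 c hc]
      · have e1 := hXt j
        rw [mul_add, mul_smul_comm]
        unfold tr at e1 ⊢
        rw [map_add, map_smul, smul_eq_mul, ← e1, neg_mul, inv_mul_cancel_left₀ hd, add_neg_cancel]
    obtain ⟨k, hk, h3⟩ := hInt K V n m X hX3 y hy hy0 _ h1
    obtain ⟨k', hk', h4⟩ := hInt K V n m _ hc y hy hy0 μ hμ
    refine ⟨k, ?_, ?_⟩
    · rw [← h3, mul_comm, mul_inv_cancel_left₀ hd]
    · have h5 : k' = k * (rk (ε a) : ℤ) := by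
        have h6 : (k' : K) = ((k * (rk (ε a) : ℤ) : ℤ) : K) := by
          rw [← h4]
          push_cast
          rw [← h3, mul_comm, mul_inv_cancel_left₀ hd]
        exact_mod_cast h6
      rw [h5, abs_mul, Nat.abs_cast] at hk'
      exact hk'

end Pool.Agent.Lib.MP_640417_ag.Ws
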