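import Pool.Agent.Lib.MP_640417_ag.Ws.SpecB
import Pool.Agent.Lib.MP_640417_ag.Gen4.DivK
import Pool.Agent.Lib.MP_640417_ag.Lef.SkewL
import Pool.Agent.Lib.MP_640417_ag.Dfr.Base

/-!
# MP_640417_ag, Ws, module DivKL: divisor classes are killed by the Lefschetz Lie algebra
-/

set_option autoImplicit false

namespace Pool.Agent.Lib.MP_640417_ag.Ws

open Module TensorProduct Pool.Agent.Lib.MP_640417_ag Pool.Agent.Lib.MP_640417_ag.Frob
  Pool.Agent.Lib.MP_640417_ag.Tor Pool.Agent.Lib.MP_640417_ag.Tg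
  Pool.Agent.Lib.MP_640417_ag.Lef Pool.Agent.Lib.MP_640417_ag.Dfr
  Pool.Agent.Lib.MP_640417_ag.Ty Pool.Agent.Lib.MP_640417_ag.Ctl
  Pool.Agent.Lib.MP_640417_ag.Gen4

open Pool.Agent.Lib.MP_640417_ag.Four (Dv IsDer isDer_Dv be Semisimple)

theorem pDivKL : SDivKL := by
  intro l _ Γ _ _ _ _ V _ _ _ ρ U K _ _ N st ε r u v hD n z hz X hX
  have h1 := tate_span (fun γ => ρ.T γ) ρ.χ n 1 z hz
  clear hz
  induction h1 using Submodule.span_induction with
  | mem y hy =>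
    obtain ⟨x, hx, rfl⟩ := hy
    refine skew_K K (res ρ U).T ρ.form ρ.form_alt n x (fun Y hY hYc => ?_) X
      (fun a b => by rw [hX.1 a b, neg_add_cancel]) hX.2
    refine div_killed ρ n Y ⟨fun c hc => ?_, hY⟩ x (Algebra.subset_adjoin hx)
    refine hYc c fun γ => ?_
    exact (hD.hU γ.1).mp γ.2 c hc
  | zero => exact map_zero _
  | add a b _ _ ha hb => rw [map_add, ha, hb, add_zero]
  | smul t a _ ha => rw [map_smul, ha, smul_zero]

end Pool.Agent.Lib.MP_640417_ag.Ws
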