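import Pool.Agent.Lib.MP_640417_ag.Ws.Spec

/-!
# The structure of the Tate classes: the derivation on a product of vectors
-/

set_option autoImplicit false

namespace Pool.Agent.Lib.MP_640417_ag.Ws

open Module Pool.Agent.Lib.MP_640417_ag Pool.Agent.Lib.MP_640417_ag.Tor

open Pool.Agent.Lib.MP_640417_ag.Four (Dv IsDer isDer_Dv)

private theorem DvTop_a {K V : Type} [Field K] [AddCommGroup V] [Module K V]
    [FiniteDimensional K V] (n : ℕ) (X : Module.End K V) :
    ∀ (d : ℕ) (w : Fin d → (Fin n → V)), Dv n X (ExteriorAlgebra.ιMulti K d w) =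
      ∑ q, ExteriorAlgebra.ιMulti K d (Function.update w q (X.compLeft (Fin n) (w q))) := by
  intro d
  induction d with
  | zero =>
    intro w
    rw [ExteriorAlgebra.ιMulti_zero_apply, Dv_one]
    simp
  | succ d ih =>
    intro w
    rw [ExteriorAlgebra.ιMulti_succ_apply, Dv_mul, Dv_ι, ih, Fin.sum_univ_succ,
      ExteriorAlgebra.ιMulti_succ_apply, Function.update_self, Finset.mul_sum]
    congr 1
    refine Finset.sum_congr rfl fun q _ => ?_
    rw [ExteriorAlgebra.ιMulti_succ_apply, Function.update_of_ne (Fin.succ_ne_zero q).symm]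
    congr 2
    funext i
    by_cases h : i = q
    · subst h
      simp [Matrix.vecTail]
    · have h' : i.succ ≠ q.succ := fun h2 => h (Fin.succ_injective _ h2)
      simp [Matrix.vecTail, Function.update_of_ne h, Function.update_of_ne h']

theorem pDvTop : SDvTop := by
  intro K V _ _ _ _ n d X w M h
  rw [DvTop_a, Matrix.trace, Finset.sum_smul]
  refine Finset.sum_congr rfl fun q _ => ?_
  rw [h q]
  have h1 : ExteriorAlgebra.ιMulti K d (Function.update w q (∑ p, M p q • w p)) =
      ∑ p, M p q • ExteriorAlgebra.ιMulti K d (Function.update w q (w p)) := by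
    rw [AlternatingMap.map_update_sum]
    exact Finset.sum_congr rfl fun p _ => AlternatingMap.map_update_smul _ _ _ _ _
  rw [h1, Finset.sum_eq_single q]
  · rw [Function.update_eq_self]
    rfl
  · intro p _ hp
    rw [AlternatingMap.map_update_self _ _ hp.symm, smul_zero]
  · intro h2
    exact absurd (Finset.mem_univ _) h2

end Pool.Agent.Lib.MP_640417_ag.Ws
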