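import Pool.Agent.Lib.MP_640417_ag.Ws.SpecB

/-!
# Joint eigenvectors with the right eigenvalues
-/

set_option autoImplicit false

namespace Pool.Agent.Lib.MP_640417_ag.Ws

/-- **Joint eigenvectors with the right eigenvalues.** Induction on the number of terms: a term with the wrong
eigenvalue of `T γ` can be expressed by the other ones. -/
theorem pEig : SEig := by
  intro K M G _ _ _ T J s x η hx y η₀ hy hsum
  classical
  have key : ∀ (n : ℕ) (s : Finset J) (x : J → M), s.card = n →
      (∀ j ∈ s, ∀ γ, T γ (x j) = η j γ • x j) → y = ∑ j ∈ s, x j →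
      y ∈ Submodule.span K {z | ∃ j ∈ s, (∀ γ, η j γ = η₀ γ) ∧ z = x j} := by
    intro n
    induction n with
    | zero =>
      intro s x hs _ hsum
      rw [Finset.card_eq_zero] at hs
      rw [hsum, hs, Finset.sum_empty]
      exact Submodule.zero_mem _
    | succ n ih =>
      intro s x hs hx hsum
      by_cases h : ∀ j ∈ s, ∀ γ, η j γ = η₀ γ
      · rw [hsum]
        exact Submodule.sum_mem _ fun j hj => Submodule.subset_span ⟨j, hj, h j hj, rfl⟩
      · push Not at h
        obtain ⟨j₀, hj₀, γ, hγ⟩ := h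
        have ht : η j₀ γ - η₀ γ ≠ 0 := sub_ne_zero.2 hγ
        set t := η j₀ γ - η₀ γ with htdef
        have h0 : ∑ j ∈ s, (η j γ - η₀ γ) • x j = 0 := by
          have h1 := hy γ
          rw [hsum, map_sum, Finset.sum_congr rfl fun j hj => hx j hj γ, Finset.smul_sum,
            ← sub_eq_zero, ← Finset.sum_sub_distrib] at h1
          rw [← h1]
          exact Finset.sum_congr rfl fun j _ => sub_smul _ _ _
        have h2 : y = ∑ j ∈ s, (1 - t⁻¹ * (η j γ - η₀ γ)) • x j := by
          have h3 : y = ∑ j ∈ s, x j - t⁻¹ • ∑ j ∈ s, (η j γ - η₀ γ) • x j := by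
            rw [h0, smul_zero, sub_zero, hsum]
          rw [h3, Finset.smul_sum, ← Finset.sum_sub_distrib]
          refine Finset.sum_congr rfl fun j _ => ?_
          rw [smul_smul, sub_smul 1, one_smul]
        have h4 : y = ∑ j ∈ s.erase j₀, (1 - t⁻¹ * (η j γ - η₀ γ)) • x j := by
          rw [h2, ← Finset.add_sum_erase s _ hj₀, ← htdef, inv_mul_cancel₀ ht, sub_self, zero_smul,
            zero_add]
        have h5 := ih (s.erase j₀) (fun j => (1 - t⁻¹ * (η j γ - η₀ γ)) • x j)
          (by rw [Finset.card_erase_of_mem hj₀, hs, Nat.add_sub_cancel])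
          (fun j hj γ' => by
            rw [map_smul, hx j (Finset.mem_of_mem_erase hj) γ', smul_comm]) h4
        refine Submodule.span_le.2 ?_ h5
        rintro z ⟨j, hj, hj', rfl⟩
        exact Submodule.smul_mem _ _ (Submodule.subset_span ⟨j, Finset.mem_of_mem_erase hj, hj', rfl⟩)
  exact key s.card s x rfl hx hsum

end Pool.Agent.Lib.MP_640417_ag.Ws
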