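import Pool.Agent.Lib.MP_640417_ag.Ws.Spec

/-!
# The structure of the Tate classes: the power of a sum of squares of vectors
-/

set_option autoImplicit false

namespace Pool.Agent.Lib.MP_640417_ag.Ws

open Module

section

variable {K W : Type} [Field K] [AddCommGroup W] [Module K W]

theorem ι_anti (x y : W) : ExteriorAlgebra.ι K x * ExteriorAlgebra.ι K y =
    - (ExteriorAlgebra.ι K y * ExteriorAlgebra.ι K x) :=
  eq_neg_of_add_eq_zero_left (ExteriorAlgebra.ι_add_mul_swap x y)

/-- products of two vectors are central -/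
theorem ιι_comm (x y : W) (z : ExteriorAlgebra K W) :
    ExteriorAlgebra.ι K x * ExteriorAlgebra.ι K y * z =
      z * (ExteriorAlgebra.ι K x * ExteriorAlgebra.ι K y) := by
  induction z using CliffordAlgebra.left_induction with
  | algebraMap r => exact (Algebra.commutes r _).symm
  | add a b ha hb => rw [mul_add, add_mul, ha, hb]
  | ι_mul a m ha =>
    have h1 : ExteriorAlgebra.ι K x * ExteriorAlgebra.ι K y * ExteriorAlgebra.ι K m =
        ExteriorAlgebra.ι K m * (ExteriorAlgebra.ι K x * ExteriorAlgebra.ι K y) := by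
      rw [mul_assoc, ι_anti y m, mul_neg, ← mul_assoc, ι_anti x m, neg_mul, neg_neg, mul_assoc]
    change ExteriorAlgebra.ι K x * ExteriorAlgebra.ι K y * (ExteriorAlgebra.ι K m * a) =
      ExteriorAlgebra.ι K m * a * (ExteriorAlgebra.ι K x * ExteriorAlgebra.ι K y)
    rw [← mul_assoc, h1, mul_assoc (ExteriorAlgebra.ι K m), ha, mul_assoc]

theorem ιι_sq (x y : W) : (ExteriorAlgebra.ι K x * ExteriorAlgebra.ι K y) *
    (ExteriorAlgebra.ι K x * ExteriorAlgebra.ι K y) = 0 := by
  rw [← mul_assoc, ιι_comm, ← mul_assoc, ExteriorAlgebra.ι_sq_zero, zero_mul, zero_mul]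

end

/-- powers of a sum of commuting elements with square zero -/
private theorem Pow_a {A : Type} [Ring A] : ∀ (d : ℕ) (a : Fin d → A),
    (∀ i j, a i * a j = a j * a i) → (∀ i, a i * a i = 0) →
    (∑ i, a i) ^ d = (d.factorial : A) * (List.ofFn a).prod ∧ (∑ i, a i) ^ (d + 1) = 0 := by
  intro d
  induction d with
  | zero =>
    intro a _ _
    simp
  | succ d ih =>
    intro a hc hs
    obtain ⟨h1, h2⟩ := ih (fun i => a i.succ) (fun i j => hc _ _) (fun i => hs _)
    set S : A := ∑ i : Fin d, a i.succ with hS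
    have hcomm : Commute (a 0) S := by
      change a 0 * S = S * a 0
      rw [hS, Finset.mul_sum, Finset.sum_mul]
      exact Finset.sum_congr rfl fun i _ => hc _ _
    have hp : ∀ m : ℕ, (a 0 + S) ^ (m + 1) = S ^ (m + 1) + ((m + 1 : ℕ) : A) * (a 0 * S ^ m) := by
      intro m
      induction m with
      | zero =>
        rw [zero_add, pow_one, pow_one, pow_zero, mul_one, Nat.cast_one, one_mul, add_comm]
      | succ m ihm =>
        have e2 : ∀ k : ℕ, a 0 * S ^ k * a 0 = 0 := by
          intro k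
          rw [mul_assoc, ← (hcomm.pow_right k).eq, ← mul_assoc, hs, zero_mul]
        have e3 : (a 0 + S) ^ (m + 1 + 1) = S ^ (m + 1) * a 0 + S ^ (m + 1 + 1) +
            (((m + 1 : ℕ) : A) * (a 0 * S ^ m * a 0) + ((m + 1 : ℕ) : A) * (a 0 * S ^ (m + 1))) := by
          rw [pow_succ (a 0 + S) (m + 1), ihm, add_mul, mul_add, mul_add, ← pow_succ, mul_assoc _ _ (a 0),
            mul_assoc _ _ S, mul_assoc (a 0) _ S, ← pow_succ]
        rw [e3, e2, mul_zero, zero_add, ← (hcomm.pow_right (m + 1)).eq, Nat.cast_succ (m + 1),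
          add_mul, one_mul]
        abel
    have hsum : ∑ i, a i = a 0 + S := Fin.sum_univ_succ a
    have hS1 : S ^ (d + 1) = 0 := h2
    constructor
    · rw [hsum, hp, hS1, zero_add, h1, List.ofFn_succ, List.prod_cons, Nat.factorial_succ,
        Nat.cast_mul, mul_assoc]
      congr 1
      rw [← mul_assoc, ← mul_assoc, Nat.cast_comm]
    · rw [hsum, hp, pow_succ, hS1, zero_mul, zero_add, mul_zero, mul_zero]

/-- the product of the squares -/
private theorem Pow_b (K W : Type) [Field K] [AddCommGroup W] [Module K W] : ∀ d : ℕ,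
    ∃ s : K, ∀ a b : Fin d → W,
      (List.ofFn fun i => ExteriorAlgebra.ι K (a i) * ExteriorAlgebra.ι K (b i)).prod =
        s • (ExteriorAlgebra.ιMulti K d a * ExteriorAlgebra.ιMulti K d b) := by
  intro d
  induction d with
  | zero =>
    refine ⟨1, fun a b => ?_⟩
    simp
  | succ d ih =>
    obtain ⟨s, hs⟩ := ih
    have hsw : ∀ (m : ℕ) (x : W) (a : Fin m → W), ExteriorAlgebra.ι K x *
        ExteriorAlgebra.ιMulti K m a = ((-1 : K) ^ m) •
          (ExteriorAlgebra.ιMulti K m a * ExteriorAlgebra.ι K x) := by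
      intro m
      induction m with
      | zero =>
        intro x a
        simp
      | succ m ihm =>
        intro x a
        rw [ExteriorAlgebra.ιMulti_succ_apply, ← mul_assoc, ι_anti, neg_mul, mul_assoc, ihm,
          mul_smul_comm, pow_succ, mul_neg_one, neg_smul, mul_assoc]
    refine ⟨s * (-1) ^ d, fun a b => ?_⟩
    have h1 := hs (fun i => a i.succ) (fun i => b i.succ)
    have ea : Matrix.vecTail a = fun i => a i.succ := rfl
    have eb : Matrix.vecTail b = fun i => b i.succ := rfl
    rw [List.ofFn_succ, List.prod_cons, h1, ExteriorAlgebra.ιMulti_succ_apply,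
      ExteriorAlgebra.ιMulti_succ_apply, ea, eb, mul_smul_comm, mul_smul]
    congr 1
    rw [mul_assoc (ExteriorAlgebra.ι K (a 0)) (ExteriorAlgebra.ι K (b 0)),
      ← mul_assoc (ExteriorAlgebra.ι K (b 0)), hsw, smul_mul_assoc, mul_smul_comm, mul_assoc,
      mul_assoc]

theorem pPow : SPow := by
  intro K W _ _ _ d
  obtain ⟨s, hs⟩ := Pow_b K W d
  refine ⟨(d.factorial : K) * s, fun a b => ?_⟩
  obtain ⟨h1, -⟩ := Pow_a d (fun i => ExteriorAlgebra.ι K (a i) * ExteriorAlgebra.ι K (b i))
    (fun i j => ιι_comm _ _ _) fun i => ιι_sq _ _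
  rw [h1, hs, mul_smul, ← nsmul_eq_mul, ← Nat.cast_smul_eq_nsmul K]

end Pool.Agent.Lib.MP_640417_ag.Ws
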