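import Pool.Agent.Lib.MP_640417_ag.Ws.Polar
import Pool.Agent.Lib.MP_640417_ag.Ws.Pow

/-!
# The structure of the Tate classes: the component of a degree in the last copy
-/

set_option autoImplicit false

namespace Pool.Agent.Lib.MP_640417_ag.Ws

open Module

section

variable {K V : Type} [Field K] [AddCommGroup V] [Module K V]

theorem Th_comm (n d : ℕ) (e f : Fin d → V) (c : V →ₗ[K] (Fin n → V))
    (z : ExteriorAlgebra K (Fin (n + 1) → V)) : Th n d e f c * z = z * Th n d e f c := by
  unfold Th
  rw [Finset.sum_mul, Finset.mul_sum]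
  exact Finset.sum_congr rfl fun i _ => ιι_comm _ _ z

theorem map_gb_inn (n : ℕ) (q : Module.End K V) (t : ExteriorAlgebra K (Fin n → V)) :
    ExteriorAlgebra.map (gb n q) (ExteriorAlgebra.map (inn K V n) t) =
      ExteriorAlgebra.map (inn K V n) t := by
  have h1 : (ExteriorAlgebra.map (gb n q)).comp (ExteriorAlgebra.map (inn K V n)) =
      ExteriorAlgebra.map (inn K V n) := by
    rw [ExteriorAlgebra.map_comp_map]
    congr 1
    exact LinearMap.ext fun x => gb_inn n q x
  exact DFunLike.congr_fun h1 t

theorem map_gb_Th (n d : ℕ) (e f : Fin d → V) (c : V →ₗ[K] (Fin n → V)) (s : K) :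
    ExteriorAlgebra.map (gb n (s • (1 : Module.End K V))) (Th n d e f c) =
      s • Th n d e f c := by
  unfold Th
  rw [map_sum, Finset.smul_sum]
  refine Finset.sum_congr rfl fun i _ => ?_
  rw [map_mul, ExteriorAlgebra.map_apply_ι, ExteriorAlgebra.map_apply_ι, gb_inn, gb_las,
    LinearMap.smul_apply, Module.End.one_apply, map_smul, map_smul, mul_smul_comm]

/-- the products of `q` elements -/
private def Grad_W (C : Subalgebra K (Module.End K V)) (n d : ℕ) (e f : Fin d → V)
    (B : Subalgebra K (ExteriorAlgebra K (Fin n → V))) (q : ℕ) :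
    Submodule K (ExteriorAlgebra K (Fin (n + 1) → V)) :=
  Submodule.span K {x | ∃ t ∈ B, ∃ θ : Fin q → (V →ₗ[K] (Fin n → V)),
        (∀ j i, (LinearMap.proj i ∘ₗ θ j : Module.End K V) ∈ C) ∧
        x = ExteriorAlgebra.map (inn K V n) t * (List.ofFn fun j => Th n d e f (θ j)).prod}

private theorem Grad_mul (C : Subalgebra K (Module.End K V)) (n d : ℕ) (e f : Fin d → V)
    (B : Subalgebra K (ExteriorAlgebra K (Fin n → V))) (p q : ℕ)
    {x y : ExteriorAlgebra K (Fin (n + 1) → V)} (hx : x ∈ Grad_W C n d e f B p)
    (hy : y ∈ Grad_W C n d e f B q) : x * y ∈ Grad_W C n d e f B (p + q) := by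
  have hc : ∀ {m : ℕ} (θ : Fin m → (V →ₗ[K] (Fin n → V)))
      (z : ExteriorAlgebra K (Fin (n + 1) → V)),
      (List.ofFn fun j => Th n d e f (θ j)).prod * z =
        z * (List.ofFn fun j => Th n d e f (θ j)).prod := by
    intro m
    induction m with
    | zero =>
      intro θ z
      simp
    | succ m ih =>
      intro θ z
      rw [List.ofFn_succ, List.prod_cons, mul_assoc, ih, ← mul_assoc, Th_comm, mul_assoc]
  induction hx using Submodule.span_induction with
  | mem x hx =>
    induction hy using Submodule.span_induction with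
    | mem y hy =>
      obtain ⟨t, ht, θ, hθ, rfl⟩ := hx
      obtain ⟨t', ht', θ', hθ', rfl⟩ := hy
      refine Submodule.subset_span ⟨t * t', B.mul_mem ht ht', Fin.append θ θ', ?_, ?_⟩
      · intro j i
        refine Fin.addCases (fun j => ?_) (fun j => ?_) j
        · rw [Fin.append_left]
          exact hθ j i
        · rw [Fin.append_right]
          exact hθ' j i
      · have e1 : (List.ofFn fun j => Th n d e f (Fin.append θ θ' j)) =
            (List.ofFn fun j => Th n d e f (θ j)) ++ (List.ofFn fun j => Th n d e f (θ' j)) := by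
          rw [← List.ofFn_fin_append]
          congr 1
          funext j
          refine Fin.addCases (fun j => ?_) (fun j => ?_) j
          · rw [Fin.append_left, Fin.append_left]
          · rw [Fin.append_right, Fin.append_right]
        rw [e1, List.prod_append, map_mul, mul_assoc, ← mul_assoc _ (ExteriorAlgebra.map _ t'), hc,
          mul_assoc, mul_assoc]
    | zero =>
      rw [mul_zero]
      exact Submodule.zero_mem _
    | add a b _ _ ha hb =>
      rw [mul_add]
      exact Submodule.add_mem _ ha hb
    | smul a b _ hb =>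
      rw [mul_smul_comm]
      exact Submodule.smul_mem _ _ hb
  | zero =>
    rw [zero_mul]
    exact Submodule.zero_mem _
  | add a b _ _ ha hb =>
    rw [add_mul]
    exact Submodule.add_mem _ ha hb
  | smul a b _ hb =>
    rw [smul_mul_assoc]
    exact Submodule.smul_mem _ _ hb

private theorem Grad_act (C : Subalgebra K (Module.End K V)) (n d : ℕ) (e f : Fin d → V)
    (B : Subalgebra K (ExteriorAlgebra K (Fin n → V))) (q : ℕ) (s : K)
    {x : ExteriorAlgebra K (Fin (n + 1) → V)} (hx : x ∈ Grad_W C n d e f B q) :
    ExteriorAlgebra.map (gb n (s • (1 : Module.End K V))) x = s ^ q • x := by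
  induction hx using Submodule.span_induction with
  | mem x hx =>
    obtain ⟨t, _, θ, hθ, rfl⟩ := hx
    clear hθ
    rw [map_mul, map_gb_inn, ← mul_smul_comm]
    congr 1
    induction q with
    | zero => simp
    | succ q ih =>
      rw [List.ofFn_succ, List.prod_cons, map_mul, map_gb_Th, ih, pow_succ', mul_smul,
        smul_mul_assoc, mul_smul_comm]
  | zero => rw [map_zero, smul_zero]
  | add a b _ _ ha hb => rw [map_add, ha, hb, smul_add]
  | smul a b _ hb => rw [map_smul, hb, smul_comm]

end

theorem pGrad : SGrad := by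
  intro K V _ _ _ _ _ C n d D e f B w hw hs
  have h1 : w ∈ ⨆ q, Grad_W C n d e f B q := by
    clear hs
    induction hw using Algebra.adjoin_induction with
    | mem x hx =>
      rcases hx with ⟨t, ht, rfl⟩ | ⟨c, hc, rfl⟩
      · refine Submodule.mem_iSup_of_mem 0 (Submodule.subset_span ⟨t, ht, Fin.elim0, ?_, ?_⟩)
        · intro j
          exact Fin.elim0 j
        · simp
      · refine Submodule.mem_iSup_of_mem 1 (Submodule.subset_span ⟨1, B.one_mem, fun _ => c, ?_, ?_⟩)
        · intro _ i
          exact hc i
        · simp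
    | algebraMap t =>
      refine Submodule.mem_iSup_of_mem 0 (Submodule.subset_span
        ⟨algebraMap K _ t, B.algebraMap_mem t, Fin.elim0, ?_, ?_⟩)
      · intro j
        exact Fin.elim0 j
      · rw [List.ofFn_zero, List.prod_nil, mul_one, AlgHom.commutes]
    | add x y _ _ hx hy => exact Submodule.add_mem _ hx hy
    | mul x y _ _ hx hy =>
      refine Submodule.iSup_induction _ (motive := fun x => x * y ∈ ⨆ q, Grad_W C n d e f B q) hx
        (fun p x hx => ?_) (by rw [zero_mul]; exact Submodule.zero_mem _)
        (fun a b ha hb => by rw [add_mul]; exact Submodule.add_mem _ ha hb)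
      refine Submodule.iSup_induction _ (motive := fun y => x * y ∈ ⨆ q, Grad_W C n d e f B q) hy
        (fun q y hy => ?_) (by rw [mul_zero]; exact Submodule.zero_mem _)
        (fun a b ha hb => by rw [mul_add]; exact Submodule.add_mem _ ha hb)
      exact Submodule.mem_iSup_of_mem (p + q) (Grad_mul C n d e f B p q hx hy)
  obtain ⟨g, hg, hsum⟩ := (Submodule.mem_iSup_iff_exists_finsupp _ _).1 h1
  -- all the indices
  obtain ⟨Q, hQ⟩ : ∃ Q : ℕ, g.support ⊆ Finset.range Q ∧ D < Q := by
    refine ⟨g.support.sup id + 1 + D, fun i hi => ?_, by omega⟩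
    have := Finset.le_sup (f := id) hi
    rw [Finset.mem_range]
    simp only [id] at this
    omega
  have hw2 : w = ∑ q ∈ Finset.range Q, g q := by
    rw [← hsum]
    exact Finsupp.sum_of_support_subset _ hQ.1 _ fun _ _ => rfl
  have h2 := coef_mem (⊥ : Submodule K (ExteriorAlgebra K (Fin (n + 1) → V))) Q
    (fun q => g q - if q = D then w else 0) (fun s => by
      rw [Submodule.mem_bot]
      simp only [smul_sub, Finset.sum_sub_distrib]
      have e1 : ∑ q ∈ Finset.range Q, s ^ q • g q = s ^ D • w := by
        rw [← hs s]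
        conv_rhs => rw [hw2]
        rw [map_sum]
        exact Finset.sum_congr rfl fun q _ => (Grad_act C n d e f B q s (hg q)).symm
      have e2 : ∑ q ∈ Finset.range Q, s ^ q • (if q = D then w else 0) = s ^ D • w := by
        rw [Finset.sum_eq_single D]
        · rw [if_pos rfl]
        · intro q _ hq
          rw [if_neg hq, smul_zero]
        · intro h
          exact absurd (Finset.mem_range.2 hQ.2) h
      rw [e1, e2, sub_self]) D (Finset.mem_range.2 hQ.2)
  rw [Submodule.mem_bot, if_pos rfl, sub_eq_zero] at h2
  rw [← h2]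
  exact hg D

end Pool.Agent.Lib.MP_640417_ag.Ws
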