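import Pool.Agent.Lib.MP_640417_ag.Ws.Spec
import Pool.Agent.Lib.MP_640417_ag.Ws.Grad

/-!
# The structure of the Tate classes: extraction of the top form of the last copy
-/

set_option autoImplicit false

namespace Pool.Agent.Lib.MP_640417_ag.Ws

open Module Pool.Agent.Lib.MP_640417_ag Pool.Agent.Lib.MP_640417_ag.Tor
  Pool.Agent.Lib.MP_640417_ag.Lef Pool.Agent.Lib.MP_640417_ag.Dfr

/-- the maps with components in `C` -/
private def Extr_M {K V : Type} [Field K] [AddCommGroup V] [Module K V]
    (C : Subalgebra K (Module.End K V)) (n : ℕ) : Submodule K (V →ₗ[K] (Fin n → V)) where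
  carrier := {c | ∀ i, (LinearMap.proj i ∘ₗ c : Module.End K V) ∈ C}
  add_mem' {c c'} h h' := fun i => by
    rw [LinearMap.comp_add]
    exact add_mem (h i) (h' i)
  zero_mem' := fun i => by
    rw [LinearMap.comp_zero]
    exact zero_mem _
  smul_mem' t c h := fun i => by
    rw [LinearMap.comp_smul]
    exact Subalgebra.smul_mem _ (h i) t

/-- `Th` as a linear map -/
private noncomputable def Extr_T {K V : Type} [Field K] [AddCommGroup V] [Module K V]
    (C : Subalgebra K (Module.End K V)) (n d : ℕ) (e f : Fin d → V) :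
    Extr_M C n →ₗ[K] ExteriorAlgebra K (Fin (n + 1) → V) where
  toFun c := Th n d e f c.1
  map_add' c c' := by
    unfold Th
    rw [← Finset.sum_add_distrib]
    refine Finset.sum_congr rfl fun i _ => ?_
    change ExteriorAlgebra.ι K (inn K V n ((c.1 + c'.1) (e i))) * _ = _
    rw [LinearMap.add_apply, map_add, map_add, add_mul]
  map_smul' t c := by
    unfold Th
    rw [RingHom.id_apply, Finset.smul_sum]
    refine Finset.sum_congr rfl fun i _ => ?_
    change ExteriorAlgebra.ι K (inn K V n ((t • c.1) (e i))) * _ = _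
    rw [LinearMap.smul_apply, map_smul, map_smul, smul_mul_assoc]

theorem pExtr (hF : SFft2) (hG : STwoG) (hT : STopG) (hP : SPow) (hO : SPolar) (hR : SGrad)
    (hI : SInj) : SExtr := by
  intro K V _ _ _ _ _ ψ C N st ε r u v hD S hS a haS hne hst d e f hDB hle hspe hlf n y hz
  have hra : r a = a := hS a haS
  -- the projection in the last copy fixes `z`
  have h1 : ExteriorAlgebra.map (gb n (ε (st a))) (ExteriorAlgebra.map (inn K V n) y *
      ExteriorAlgebra.ιMulti K d (fun i => las K V n (f i))) =
      ExteriorAlgebra.map (inn K V n) y *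
        ExteriorAlgebra.ιMulti K d (fun i => las K V n (f i)) := by
    rw [map_mul, map_gb_inn, ExteriorAlgebra.map_apply_ιMulti]
    congr 2
    funext i
    rw [Function.comp_apply, gb_las, hDB.qf]
  -- the images of the generators
  have h2 : ∀ w ∈ NN ψ C ε S (n + 1), ExteriorAlgebra.map (gb n (ε (st a))) w ∈
      Algebra.adjoin K ({x | ∃ t ∈ NN ψ C ε S n, x = ExteriorAlgebra.map (inn K V n) t} ∪
        {x | ∃ c : V →ₗ[K] (Fin n → V), (∀ i, (LinearMap.proj i ∘ₗ c : Module.End K V) ∈ C) ∧
          x = Th n d e f c}) := by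
    intro w hw
    unfold NN at hw
    induction hw using Algebra.adjoin_induction with
    | mem w hw =>
      rcases hw with hw | ⟨a', ha', hw⟩
      · have h3 := hF K V ψ C N st ε r u v hD (n + 1) w hw
        clear hw
        induction h3 using Algebra.adjoin_induction with
        | mem z hz =>
          obtain ⟨z₀, hz₀, c, hc, he⟩ := hG K V ψ C N st ε r u v hD a hra hne d e f hDB n z
            hz.1 hz.2
          rw [he]
          exact add_mem (Algebra.subset_adjoin (Or.inl ⟨z₀, hz₀.mem_NN, rfl⟩))
            (Algebra.subset_adjoin (Or.inr ⟨c, hc, rfl⟩))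
        | algebraMap t =>
          rw [AlgHom.commutes]
          exact Subalgebra.algebraMap_mem _ t
        | add x y _ _ hx hy =>
          rw [map_add]
          exact add_mem hx hy
        | mul x y _ _ hx hy =>
          rw [map_mul]
          exact mul_mem hx hy
      · obtain ⟨w₀, hw₀, he⟩ := hT K V ψ C N st ε r u v hD a a' hra (hS a' ha')
          (fun h => hst (h ▸ ha')) n w hw
        rw [he]
        exact Algebra.subset_adjoin (Or.inl ⟨w₀, Tops.mem_NN ha' hw₀, rfl⟩)
    | algebraMap t =>
      rw [AlgHom.commutes]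
      exact Subalgebra.algebraMap_mem _ t
    | add x y _ _ hx hy =>
      rw [map_add]
      exact add_mem hx hy
    | mul x y _ _ hx hy =>
      rw [map_mul]
      exact mul_mem hx hy
  -- the degree in the last copy
  have h3 : ∀ s : K, ExteriorAlgebra.map (gb n (s • (1 : Module.End K V)))
      (ExteriorAlgebra.map (inn K V n) y *
        ExteriorAlgebra.ιMulti K d (fun i => las K V n (f i))) =
      s ^ d • (ExteriorAlgebra.map (inn K V n) y *
        ExteriorAlgebra.ιMulti K d (fun i => las K V n (f i))) := by
    intro s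
    rw [map_mul, map_gb_inn, ExteriorAlgebra.map_apply_ιMulti, ← mul_smul_comm]
    congr 1
    have h4 : (gb n (s • (1 : Module.End K V)) ∘ fun i => las K V n (f i)) =
        fun i => s • las K V n (f i) := by
      funext i
      rw [Function.comp_apply, gb_las, ← map_smul]
      rfl
    rw [h4]
    have h5 := (ExteriorAlgebra.ιMulti K d (M := Fin (n + 1) → V)).toMultilinearMap.map_smul_univ
      (fun _ => s) (fun i => las K V n (f i))
    rw [Finset.prod_const, Finset.card_univ, Fintype.card_fin] at h5
    exact h5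
  have h4 := hR K V C n d d e f (NN ψ C ε S n) _ (h1 ▸ h2 _ hz) h3
  -- all generators are in the image of `NN n`
  obtain ⟨s₀, hs₀⟩ := hP K (Fin (n + 1) → V) d
  have h5 : ExteriorAlgebra.map (inn K V n) y *
      ExteriorAlgebra.ιMulti K d (fun i => las K V n (f i)) ∈
      (Subalgebra.toSubmodule (NN ψ C ε S n)).map
        ((LinearMap.mulRight K (ExteriorAlgebra.ιMulti K d (fun i => las K V n (f i)))) ∘ₗ
          (ExteriorAlgebra.map (inn K V n)).toLinearMap) := by
    refine Submodule.span_le.mpr ?_ h4
    rintro _ ⟨t, ht, θ, hθ, rfl⟩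
    have h6 := hO K (ExteriorAlgebra K (Fin (n + 1) → V)) (Extr_M C n) (Extr_T C n d e f)
      (fun x y => Th_comm n d e f x.1 _) d (fun j => ⟨θ j, hθ j⟩)
    have h7 : (List.ofFn fun j => Th n d e f (θ j)).prod =
        (List.ofFn fun i => (Extr_T C n d e f) ((fun j => (⟨θ j, hθ j⟩ : Extr_M C n)) i)).prod :=
      rfl
    rw [h7]
    clear h7
    generalize (List.ofFn fun i => (Extr_T C n d e f)
      ((fun j => (⟨θ j, hθ j⟩ : Extr_M C n)) i)).prod = w at h6
    induction h6 using Submodule.span_induction with
    | mem w hw =>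
      obtain ⟨c, rfl⟩ := hw
      refine ⟨s₀ • (t * ExteriorAlgebra.ιMulti K d fun q => c.1 (e q)), ?_, ?_⟩
      · refine Subalgebra.smul_mem _ (mul_mem ht ?_) s₀
        exact Tops.mem_NN haS ⟨d, e, c.1, hle, hspe, c.2, rfl⟩
      · have h8 : (Extr_T C n d e f) c ^ d = s₀ • (ExteriorAlgebra.ιMulti K d
            (fun i => inn K V n (c.1 (e i))) *
              ExteriorAlgebra.ιMulti K d fun i => las K V n (f i)) := hs₀ _ _
        have h9 : ExteriorAlgebra.map (inn K V n) (ExteriorAlgebra.ιMulti K d fun q => c.1 (e q)) =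
            ExteriorAlgebra.ιMulti K d (fun i => inn K V n (c.1 (e i))) := by
          rw [ExteriorAlgebra.map_apply_ιMulti]
          rfl
        change ExteriorAlgebra.map (inn K V n) (s₀ • (t * ExteriorAlgebra.ιMulti K d
          fun q => c.1 (e q))) * ExteriorAlgebra.ιMulti K d (fun i => las K V n (f i)) =
          ExteriorAlgebra.map (inn K V n) t * (Extr_T C n d e f) c ^ d
        rw [h8, map_smul, map_mul, h9, smul_mul_assoc, mul_smul_comm, mul_assoc]
    | zero =>
      rw [mul_zero]
      exact zero_mem _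
    | add x y _ _ hx hy =>
      rw [mul_add]
      exact add_mem hx hy
    | smul c x _ hx =>
      rw [mul_smul_comm]
      exact Submodule.smul_mem _ c hx
  obtain ⟨t, ht, h6⟩ := h5
  have h7 : ExteriorAlgebra.map (inn K V n) (t - y) *
      ExteriorAlgebra.ιMulti K d (fun i => las K V n (f i)) = 0 := by
    rw [map_sub, sub_mul, sub_eq_zero]
    exact h6
  have h8 := hI K V n d f hlf _ h7
  rw [sub_eq_zero] at h8
  exact h8 ▸ ht

end Pool.Agent.Lib.MP_640417_ag.Ws
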