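import Pool.Agent.Lib.MP_640417_ag.Ws.Spec
import Pool.Agent.Lib.MP_640417_ag.Lef.FftK
import Pool.Agent.Lib.MP_640417_ag.Four.Main

/-!
# The structure of the Tate classes: the first fundamental theorem, in terms of elements of degree two
-/

set_option autoImplicit false

namespace Pool.Agent.Lib.MP_640417_ag.Ws

open Module Pool.Agent.Lib.MP_640417_ag Pool.Agent.Lib.MP_640417_ag.Tor
  Pool.Agent.Lib.MP_640417_ag.Lef Pool.Agent.Lib.MP_640417_ag.Dfr

open Pool.Agent.Lib.MP_640417_ag.Four (Dv IsDer isDer_Dv)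

section deg

variable {K V : Type} [Field K] [AddCommGroup V] [Module K V] [FiniteDimensional K V]

/-- the derivation preserves the degree -/
private theorem Fft2_mem (n m : ℕ) (X : Module.End K V) :
    ∀ y : ExteriorAlgebra K (Fin n → V), y ∈ ⋀[K]^m (Fin n → V) →
      Dv n X y ∈ ⋀[K]^m (Fin n → V) := by
  induction m with
  | zero =>
    intro y hy
    have hy' : y ∈ (1 : Submodule K (ExteriorAlgebra K (Fin n → V))) := by
      rw [← pow_zero (LinearMap.range (ExteriorAlgebra.ι K :
        (Fin n → V) →ₗ[K] ExteriorAlgebra K (Fin n → V)))]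
      exact hy
    obtain ⟨r, rfl⟩ := Submodule.mem_one.1 hy'
    rw [Dv_algebraMap]
    exact Submodule.zero_mem _
  | succ m ih =>
    intro y hy
    have hy' : y ∈ LinearMap.range (ExteriorAlgebra.ι K :
        (Fin n → V) →ₗ[K] ExteriorAlgebra K (Fin n → V)) *
        (LinearMap.range (ExteriorAlgebra.ι K :
        (Fin n → V) →ₗ[K] ExteriorAlgebra K (Fin n → V))) ^ m := by
      rw [← pow_succ']
      exact hy
    have key : Dv n X y ∈ LinearMap.range (ExteriorAlgebra.ι K :
        (Fin n → V) →ₗ[K] ExteriorAlgebra K (Fin n → V)) *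
        (LinearMap.range (ExteriorAlgebra.ι K :
        (Fin n → V) →ₗ[K] ExteriorAlgebra K (Fin n → V))) ^ m := by
      refine Submodule.mul_induction_on hy' ?_ ?_
      · rintro _ ⟨a, rfl⟩ b hb
        rw [Dv_mul, Dv_ι]
        exact Submodule.add_mem _ (Submodule.mul_mem_mul ⟨_, rfl⟩ hb)
          (Submodule.mul_mem_mul ⟨_, rfl⟩ (ih b hb))
      · intro x y hx hy
        rw [map_add]
        exact Submodule.add_mem _ hx hy
    rw [← pow_succ'] at key
    exact key

/-- the homogeneous components -/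
private theorem Fft2_comp (n : ℕ) (X : Module.End K V) (x : ExteriorAlgebra K (Fin n → V))
    (hx : Dv n X x = 0) (i : ℕ) :
    Dv n X (GradedRing.proj (fun i : ℕ => ⋀[K]^i (Fin n → V)) i x) = 0 := by
  classical
  have h1 := DirectSum.sum_support_decompose (fun i : ℕ => ⋀[K]^i (Fin n → V)) x
  have h2 : ∑ j ∈ (DirectSum.decompose (fun i : ℕ => ⋀[K]^i (Fin n → V)) x).support,
      Dv n X (GradedRing.proj (fun i : ℕ => ⋀[K]^i (Fin n → V)) j x) = 0 := by
    rw [← map_sum]
    have e1 : (∑ j ∈ (DirectSum.decompose (fun i : ℕ => ⋀[K]^i (Fin n → V)) x).support,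
      GradedRing.proj (fun i : ℕ => ⋀[K]^i (Fin n → V)) j x) = x := h1
    rw [e1, hx]
  have h3 := congrArg (GradedRing.proj (fun i : ℕ => ⋀[K]^i (Fin n → V)) i) h2
  rw [map_sum, map_zero] at h3
  have hm : ∀ j, Dv n X (GradedRing.proj (fun i : ℕ => ⋀[K]^i (Fin n → V)) j x) ∈
      ⋀[K]^j (Fin n → V) := fun j => Fft2_mem n j X _
    (DirectSum.decompose (fun i : ℕ => ⋀[K]^i (Fin n → V)) x j).2
  by_cases hi : i ∈ (DirectSum.decompose (fun i : ℕ => ⋀[K]^i (Fin n → V)) x).support
  · rw [Finset.sum_eq_single_of_mem i hi] at h3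
    · rw [GradedRing.proj_apply,
        DirectSum.decompose_of_mem_same (fun i : ℕ => ⋀[K]^i (Fin n → V)) (hm i)] at h3
      exact h3
    · intro j _ hj
      rw [GradedRing.proj_apply,
        DirectSum.decompose_of_mem_ne (fun i : ℕ => ⋀[K]^i (Fin n → V)) (hm j) hj]
  · have e1 : GradedRing.proj (fun i : ℕ => ⋀[K]^i (Fin n → V)) i x = 0 := by
      rw [GradedRing.proj_apply]
      have e2 := DFinsupp.notMem_support_iff.1 hi
      rw [e2]
      rfl
    rw [e1, map_zero]

/-- the action of `1 + t X` in degree two -/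
private theorem Fft2_map (n : ℕ) (X : Module.End K V) (t : K)
    (z : ExteriorAlgebra K (Fin n → V)) (hz : z ∈ ⋀[K]^2 (Fin n → V)) :
    ExteriorAlgebra.map ((1 + t • X).compLeft (Fin n)) z =
      z + t • Dv n X z + (t * t) • ExteriorAlgebra.map (X.compLeft (Fin n)) z := by
  have hz' : z ∈ LinearMap.range (ExteriorAlgebra.ι K :
        (Fin n → V) →ₗ[K] ExteriorAlgebra K (Fin n → V)) *
      LinearMap.range (ExteriorAlgebra.ι K :
        (Fin n → V) →ₗ[K] ExteriorAlgebra K (Fin n → V)) := by
    rw [← pow_two]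
    exact hz
  refine Submodule.mul_induction_on hz' ?_ ?_
  · rintro _ ⟨a, rfl⟩ _ ⟨b, rfl⟩
    have e1 : ∀ c : Fin n → V, (1 + t • X).compLeft (Fin n) c = c + t • X.compLeft (Fin n) c :=
      fun c => rfl
    rw [Dv_mul, Dv_ι, Dv_ι, map_mul, map_mul, ExteriorAlgebra.map_apply_ι,
      ExteriorAlgebra.map_apply_ι, ExteriorAlgebra.map_apply_ι, ExteriorAlgebra.map_apply_ι, e1, e1,
      map_add, map_add, map_smul, map_smul, add_mul, mul_add, mul_add, smul_mul_assoc,
      smul_mul_assoc, mul_smul_comm, mul_smul_comm, smul_smul, smul_add]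
    abel
  · intro x y hx hy
    rw [map_add, map_add, map_add, hx, hy, smul_add, smul_add]
    abel

end deg

section grp

variable {K V : Type} [Field K] [AddCommGroup V] [Module K V]

/-- the group of the isometries which commute with `C` -/
private def Fft2_G (ψ : LinearMap.BilinForm K V) (C : Subalgebra K (Module.End K V)) :
    Subgroup (Module.End K V)ˣ where
  carrier := {g | (∀ c ∈ C, c * (g : Module.End K V) = (g : Module.End K V) * c) ∧
    ∀ x y, ψ ((g : Module.End K V) x) ((g : Module.End K V) y) = ψ x y}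
  mul_mem' {a b} ha hb := by
    refine ⟨fun c hc => ?_, fun x y => ?_⟩
    · rw [Units.val_mul, ← mul_assoc, ha.1 c hc, mul_assoc, hb.1 c hc, mul_assoc]
    · rw [Units.val_mul, Module.End.mul_apply, Module.End.mul_apply, ha.2, hb.2]
  one_mem' := ⟨fun c _ => by rw [Units.val_one, one_mul, mul_one], fun _ _ => rfl⟩
  inv_mem' {a} ha := by
    refine ⟨fun c hc => ?_, fun x y => ?_⟩
    · calc c * (a⁻¹).val = ((a⁻¹).val * a.val) * c * (a⁻¹).val := by
            rw [Units.inv_mul, one_mul]
        _ = (a⁻¹).val * (a.val * c) * (a⁻¹).val := by rw [mul_assoc (a⁻¹).val]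
        _ = (a⁻¹).val * (c * a.val) * (a⁻¹).val := by rw [ha.1 c hc]
        _ = (a⁻¹).val * c := by
            rw [mul_assoc, mul_assoc c, Units.mul_inv, mul_one]
    · have e1 : ∀ z, a.val ((a⁻¹).val z) = z := by
        intro z
        rw [← Module.End.mul_apply, Units.mul_inv, Module.End.one_apply]
      rw [← ha.2, e1, e1]

end grp

theorem pFft2 : SFft2 := by
  intro K V _ _ _ _ _ ψ C N st ε r u v hD n x hx
  classical
  let Γ := Fft2_G ψ C
  letI : TopologicalSpace Γ := ⊤
  let T : Γ →* Module.End K V := (Units.coeHom _).comp Γ.subtype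
  have hTv : ∀ γ : Γ, T γ = ((γ : (Module.End K V)ˣ) : Module.End K V) := fun _ => rfl
  -- the homogeneous case
  have hom : ∀ (m : ℕ) (y : ExteriorAlgebra K (Fin n → V)), y ∈ ⋀[K]^m (Fin n → V) →
      KL ψ C n y → y ∈ Algebra.adjoin K {z : ExteriorAlgebra K (Fin n → V) |
        z ∈ ⋀[K]^2 (Fin n → V) ∧ KL ψ C n z} := by
    intro m y hy hk
    have h1 : y ∈ divisorAlg (fun γ => (T γ).compLeft (Fin n)) (1 : Γ →* Kˣ) := by
      refine fft_K T 1 hD.alt hD.nd ?_ ?_ hD.sys hD.uv n m y hy ?_
      · intro γ a b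
        rw [hTv, γ.2.2, MonoidHom.one_apply, inv_one, Units.val_one, one_mul]
      · intro c hc γ
        exact γ.2.1 c hc
      · intro X hX hXc
        exact hk X ⟨fun a b => eq_neg_of_add_eq_zero_left (hX a b), hXc⟩
    unfold divisorAlg at h1
    refine Algebra.adjoin_mono ?_ h1
    rintro z ⟨hz, U, hU⟩
    have hz2 : z ∈ ⋀[K]^2 (Fin n → V) := hz
    refine ⟨hz2, fun X hX => ?_⟩
    have hall : ∀ γ : Γ, ExteriorAlgebra.map ((T γ).compLeft (Fin n)) z = z := by
      intro γ
      have hUu : (U : Set Γ) = Set.univ := by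
        rcases (TopologicalSpace.isOpen_top_iff _).1 U.isOpen with h | h
        · exact absurd (Set.eq_empty_iff_forall_notMem.1 h 1) (not_not.2 U.one_mem)
        · exact h
      have h2 : γ ∈ (U : Set Γ) := by
        rw [hUu]
        exact Set.mem_univ _
      have h3 := hU γ h2
      rw [MonoidHom.one_apply, Units.val_one, one_pow, one_smul] at h3
      exact h3
    -- the Cayley transform
    obtain ⟨t, ht, ht0⟩ : ∃ t : K, IsUnit (1 - t • X) ∧ t ≠ 0 := by
      obtain ⟨t, h1, h2⟩ := ((Four.infinite_units X).sdiff (Set.finite_singleton (0 : K))).nonempty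
      exact ⟨t, h1, h2⟩
    have hadj : ∀ a b, ψ ((1 + t • X) a) b = ψ a ((1 - t • X) b) := by
      intro a b
      rw [LinearMap.add_apply, LinearMap.sub_apply, LinearMap.smul_apply, LinearMap.smul_apply,
        Module.End.one_apply, Module.End.one_apply, map_add, map_sub, LinearMap.add_apply,
        map_smul, map_smul, LinearMap.smul_apply, hX.1, smul_neg, sub_eq_add_neg]
    have hadj' : ∀ a b, ψ ((1 - t • X) a) b = ψ a ((1 + t • X) b) := by
      intro a b
      rw [hD.anti, ← hadj, ← hD.anti]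
    have hsurj : ∀ b, ∃ a, (1 - t • X) a = b := by
      intro b
      obtain ⟨w, hw⟩ := ht
      refine ⟨(w⁻¹).val b, ?_⟩
      rw [← hw, ← Module.End.mul_apply, Units.mul_inv, Module.End.one_apply]
    have htp : IsUnit (1 + t • X) := by
      rw [LinearMap.isUnit_iff_ker_eq_bot, LinearMap.ker_eq_bot']
      intro a ha
      apply hD.nd
      intro b
      obtain ⟨c, rfl⟩ := hsurj b
      rw [← hadj, ha, map_zero, LinearMap.zero_apply]
    obtain ⟨w, hw⟩ := ht
    obtain ⟨w', hw'⟩ := htp
    have hcm : (1 - t • X) * (1 + t • X) = (1 + t • X) * (1 - t • X) := by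
      generalize t • X = a
      noncomm_ring
    have hmem : w⁻¹ * w' ∈ Γ := by
      refine ⟨fun c hc => ?_, fun a b => ?_⟩
      · have hXc := hX.2 c hc
        have h1 : c * w.val = w.val * c := by
          rw [hw, sub_mul, mul_sub, one_mul, mul_one, smul_mul_assoc, mul_smul_comm, hXc]
        have h2 : c * w'.val = w'.val * c := by
          rw [hw', add_mul, mul_add, one_mul, mul_one, smul_mul_assoc, mul_smul_comm, hXc]
        have h3 : c * (w⁻¹).val = (w⁻¹).val * c := by
          calc c * (w⁻¹).val = ((w⁻¹).val * w.val) * c * (w⁻¹).val := by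
                rw [Units.inv_mul, one_mul]
            _ = (w⁻¹).val * (w.val * c) * (w⁻¹).val := by rw [mul_assoc (w⁻¹).val]
            _ = (w⁻¹).val * (c * w.val) * (w⁻¹).val := by rw [h1]
            _ = (w⁻¹).val * c := by
                rw [mul_assoc, mul_assoc c, Units.mul_inv, mul_one]
        rw [Units.val_mul, ← mul_assoc, h3, mul_assoc, h2, mul_assoc]
      · -- the isometry
        have hww : ∀ z, w.val ((w⁻¹).val z) = z := by
          intro z
          rw [← Module.End.mul_apply, Units.mul_inv, Module.End.one_apply]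
        have hcw : w.val * w'.val = w'.val * w.val := by rw [hw, hw']; exact hcm
        have hcw' : (w⁻¹).val * w'.val = w'.val * (w⁻¹).val := by
          calc (w⁻¹).val * w'.val = (w⁻¹).val * w'.val * (w.val * (w⁻¹).val) := by
                rw [Units.mul_inv, mul_one]
            _ = (w⁻¹).val * (w'.val * w.val) * (w⁻¹).val := by simp only [mul_assoc]
            _ = (w⁻¹).val * (w.val * w'.val) * (w⁻¹).val := by rw [hcw]
            _ = w'.val * (w⁻¹).val := by
                rw [← mul_assoc, Units.inv_mul, one_mul]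
        have hp : ∀ a b, ψ (w'.val a) b = ψ a (w.val b) := by
          intro a b
          rw [hw, hw']
          exact hadj a b
        have hp' : ∀ a b, ψ (w.val a) b = ψ a (w'.val b) := by
          intro a b
          rw [hw, hw']
          exact hadj' a b
        have hcomm : ∀ z, w.val (w'.val z) = w'.val (w.val z) := fun z =>
          LinearMap.congr_fun hcw z
        rw [Units.val_mul, Module.End.mul_apply, Module.End.mul_apply]
        -- `ψ (w⁻¹ w' a) (w⁻¹ w' b)`
        have hq : ∀ z, (w⁻¹).val (w'.val z) = w'.val ((w⁻¹).val z) := fun z =>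
          LinearMap.congr_fun hcw' z
        rw [hq a, hp, hww, ← hp', hww]
    have hg := hall ⟨w⁻¹ * w', hmem⟩
    have hprod : (1 + t • X).compLeft (Fin n) =
        (1 + (-t) • X).compLeft (Fin n) ∘ₗ (T ⟨w⁻¹ * w', hmem⟩).compLeft (Fin n) := by
      have e1 : (1 + t • X) = (1 + (-t) • X) * T ⟨w⁻¹ * w', hmem⟩ := by
        rw [hTv]
        change (1 + t • X) = (1 + (-t) • X) * (w⁻¹ * w').val
        rw [neg_smul, ← sub_eq_add_neg, ← hw, ← hw', Units.val_mul, ← mul_assoc, Units.mul_inv,
          one_mul]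
      refine LinearMap.ext fun y => funext fun a => ?_
      exact LinearMap.congr_fun e1 (y a)
    have h5 : ExteriorAlgebra.map ((1 + t • X).compLeft (Fin n)) z =
        ExteriorAlgebra.map ((1 + (-t) • X).compLeft (Fin n)) z := by
      conv_rhs => rw [← hg]
      rw [hprod, ← ExteriorAlgebra.map_comp_map]
      rfl
    rw [Fft2_map n X t z hz2, Fft2_map n X (-t) z hz2, neg_mul_neg] at h5
    have h6 := add_left_cancel (add_right_cancel h5)
    rw [neg_smul, eq_neg_iff_add_eq_zero, ← add_smul] at h6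
    have h7 : t + t ≠ 0 := by
      rw [← two_mul]
      exact mul_ne_zero two_ne_zero ht0
    exact (smul_eq_zero.1 h6).resolve_left h7
  have h1 := DirectSum.sum_support_decompose (fun i : ℕ => ⋀[K]^i (Fin n → V)) x
  rw [← h1]
  refine Subalgebra.sum_mem _ fun i _ => ?_
  exact hom i _ (DirectSum.decompose (fun i : ℕ => ⋀[K]^i (Fin n → V)) x i).2
    fun X hX => Fft2_comp n X x (hx X hX) i

end Pool.Agent.Lib.MP_640417_ag.Ws
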