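import Pool.Agent.Lib.MP_640417_ag.Ws.MainB

/-!
# Divisor classes and Weil classes: the conditions over the algebraic closure, and the final theorem
-/

set_option autoImplicit false

namespace Pool.Agent.Lib.MP_640417_ag.Ws

open Module TensorProduct Pool.Agent.Lib.MP_640417_ag Pool.Agent.Lib.MP_640417_ag.Frob
  Pool.Agent.Lib.MP_640417_ag.Tor Pool.Agent.Lib.MP_640417_ag.Tg
  Pool.Agent.Lib.MP_640417_ag.Lef Pool.Agent.Lib.MP_640417_ag.Dfr
  Pool.Agent.Lib.MP_640417_ag.Ty Pool.Agent.Lib.MP_640417_ag.Wn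
  Pool.Agent.Lib.MP_640417_ag.T3

open Pool.Agent.Lib.MP_640417_ag.Four (Semisimple NoExotic)

section abs

variable {Γ : Type} [Group Γ] [TopologicalSpace Γ] {K V : Type} [Field K] [AddCommGroup V]
  [Module K V]

/-- The Tate classes of codimension `i` on the `n`-th power, for the action `T` of `Γ` on `V`. -/
def TateOn (T : Γ → Module.End K V) (χ : Γ →* Kˣ) (n i : ℕ)
    (w : ExteriorAlgebra K (Fin n → V)) : Prop :=
  TateClass (fun γ => (T γ).compLeft (Fin n)) χ i w

/-- **Weil classes**: the Tate classes which are products of top forms of irreducible submodules (for `L`) of the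
`n`-th power. -/
def WeilOn (T : Γ → Module.End K V) (χ : Γ →* Kˣ) (L : Submodule K (Module.End K V)) (n : ℕ)
    (w : ExteriorAlgebra K (Fin n → V)) : Prop :=
  (∃ i, TateOn T χ n i w) ∧ w ∈ Submonoid.closure {z | TopForm L n z}

/-- The Tate classes of codimension `i` on the `n`-th power are generated by those of codimension one and by
Weil classes. -/
def GenOn (T : Γ → Module.End K V) (χ : Γ →* Kˣ) (L : Submodule K (Module.End K V))
    (n i : ℕ) : Prop :=
  ∀ w, TateOn T χ n i w → w ∈ Algebra.adjoin K ({z | TateOn T χ n 1 z} ∪ {z | WeilOn T χ L n z})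

/-- All irreducible submodules of `V` which are not self-dual have dimension greater than `2 i`. -/
def DimGt (ψ : LinearMap.BilinForm K V) (L : Submodule K (Module.End K V)) (i : ℕ) : Prop :=
  ∀ W : Submodule K V, IrrMod L W → ¬ DualMod ψ L W W → 2 * i < finrank K W

end abs

section defs

variable {Γ : Type} [Group Γ] [TopologicalSpace Γ] {V : Type} [AddCommGroup V] (l : ℕ)
  [Fact l.Prime] [Module ℚ_[l] V]

/-- No irreducible constituent is a twist of another one by a nontrivial character (see `Tg.NoTwist`). -/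
def NoTwists (ρ : H1Rep Γ ℚ_[l] V) : Prop :=
  NoTwist (ρ.form.baseChange (AlgebraicClosure ℚ_[l])) (LieK l ρ (AlgebraicClosure ℚ_[l]))

/-- The character `χ`, with values in the algebraic closure. -/
noncomputable def chi (ρ : H1Rep Γ ℚ_[l] V) : Γ →* (AlgebraicClosure ℚ_[l])ˣ :=
  (Units.map (algebraMap ℚ_[l] (AlgebraicClosure ℚ_[l]) : ℚ_[l] →* AlgebraicClosure ℚ_[l])).comp
    ρ.χ

/-- The Tate classes of codimension `i` on the `n`-th power of `V`, over the algebraic closure, are generated by
divisor classes and Weil classes. -/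
def GenAt (ρ : H1Rep Γ ℚ_[l] V) (n i : ℕ) : Prop :=
  GenOn (fun γ => (ρ.T γ).baseChange (AlgebraicClosure ℚ_[l])) (chi l ρ)
    (LieK l ρ (AlgebraicClosure ℚ_[l])) n i

/-- **All Tate classes on all powers are generated by divisor classes and Weil classes.** -/
def GenAll (ρ : H1Rep Γ ℚ_[l] V) : Prop := ∀ n i : ℕ, GenAt l ρ n i

/-- `AllBig` over the algebraic closure: the Lie algebra of the image is as large as possible on every irreducible
constituent. -/
def BigAll (ρ : H1Rep Γ ℚ_[l] V) : Prop := AllBig l ρ (AlgebraicClosure ℚ_[l])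

/-- `PlacesDecide` over the algebraic closure: every irreducible constituent has dimension at most two, or the
largest possible Lie algebra, or a place which decides. -/
def PlaceAll (ρ : H1Rep Γ ℚ_[l] V) : Prop := PlacesDecide l ρ (AlgebraicClosure ℚ_[l])

/-- No power has an exotic Tate class of codimension `i`. -/
def NoExoticIn (ρ : H1Rep Γ ℚ_[l] V) (i : ℕ) : Prop :=
  ∀ (n : ℕ) (x : ExteriorAlgebra ℚ_[l] (Fin n → V)),
    ¬ ExoticTateClass (fun γ => (ρ.T γ).compLeft (Fin n)) ρ.χ i x

/-- **No exotic classes of low codimension.** If all irreducible constituents which are not self-dual have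
dimension greater than `2 i`, then no power has an exotic Tate class of codimension `i`. -/
def LowAll (ρ : H1Rep Γ ℚ_[l] V) : Prop :=
  ∀ i : ℕ, DimGt (ρ.form.baseChange (AlgebraicClosure ℚ_[l]))
    (LieK l ρ (AlgebraicClosure ℚ_[l])) i → NoExoticIn l ρ i

end defs

variable (l : ℕ) [Fact l.Prime] {Γ : Type} [Group Γ]
    [TopologicalSpace Γ] [IsTopologicalGroup Γ] [CompactSpace Γ] {V : Type} [AddCommGroup V]
    [Module ℚ_[l] V] [FiniteDimensional ℚ_[l] V] (ρ : H1Rep Γ ℚ_[l] V)

theorem final (hss : Semisimple ρ) (hF : Dense {γ | FrobLike ρ γ}) :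
    (NoExotic ρ ↔ NoIII ρ ∧ GenAt l ρ 4 2 ∧ ¬ WeilRel ρ) ∧
    (NoIII ρ → List.TFAE [GenAll l ρ, GenAt l ρ 4 2, BigAll l ρ ∧ NoTwists l ρ,
      PlaceAll l ρ ∧ NoTwists l ρ]) ∧
    (NoIII ρ → GenAll l ρ → LowAll l ρ) ∧
    (RealType ρ → NoIII ρ ∧ NoTwists l ρ ∧ ¬ WeilRel ρ) := by
  refine ⟨?_, fun h3 => structure_tfae l ρ hss h3, fun h3 h => structure_low l ρ hss h3 h,
    fun hr => structure_real l ρ hss hr⟩
  rw [structure_exotic l ρ hss hF]
  refine and_congr_right fun h3 => and_congr_left fun _ => ?_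
  exact (structure_tfae l ρ hss h3).out 0 1 rfl rfl

end Pool.Agent.Lib.MP_640417_ag.Ws
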