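import Pool.Agent.Lib.MP_640417_ag.Ws.SpecB
import Pool.Agent.Lib.MP_640417_ag.Tg.LefT

/-!
# The structure of the Tate classes: generation by divisor classes and Weil classes implies the
condition on the fourth power
-/

set_option autoImplicit false

namespace Pool.Agent.Lib.MP_640417_ag.Ws

open Module TensorProduct Pool.Agent.Lib.MP_640417_ag Pool.Agent.Lib.MP_640417_ag.Frob
  Pool.Agent.Lib.MP_640417_ag.Tor Pool.Agent.Lib.MP_640417_ag.Tg
  Pool.Agent.Lib.MP_640417_ag.Lef Pool.Agent.Lib.MP_640417_ag.Dfr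
  Pool.Agent.Lib.MP_640417_ag.Ty Pool.Agent.Lib.MP_640417_ag.Ctl
  Pool.Agent.Lib.MP_640417_ag.Gen4

open Pool.Agent.Lib.MP_640417_ag.Four (Dv IsDer isDer_Dv be Semisimple tate_be Dv_add Dv_smul
  Dv_sum)

section

variable {K W : Type} [Field K] [CharZero K] [AddCommGroup W] [Module K W]
  [FiniteDimensional K W] {ψ : LinearMap.BilinForm K W} {C : Subalgebra K (Module.End K W)}
  {N : ℕ} {st : Fin N → Fin N} {ε : Fin N → Module.End K W} {r : Fin N → Fin N}
  {u v : Fin N → Module.End K W}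

omit [FiniteDimensional K W] in
theorem GenLef_mem (hD : Dat ψ C N st ε r u v) (a : Fin N) : hh ε r st a ∈ C :=
  Subalgebra.sub_mem _ (eC_mem hD.sys _) (eC_mem hD.sys _)

theorem GenLef_kill (hCL : SCenL) (hHh : SHh) (hD : Dat ψ C N st ε r u v) {n : ℕ}
    {y : ExteriorAlgebra K (Fin n → W)} (hKP : KP ψ C ε n y)
    (hz : ∀ a, Dv n (hh ε r st a) y = 0) : KL ψ C n y := by
  intro X hX
  obtain ⟨t, ht⟩ := hCL K W ψ C N st ε r u v hD X hX
  have hh1 : ∀ a, IsLef ψ C (hh ε r st a) := fun a => (hHh K W ψ C N st ε r u v hD a).1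
  have hs : IsLef ψ C (X - ∑ a, t a • hh ε r st a) := by
    refine ⟨fun x y => ?_, fun c hc => ?_⟩
    · rw [LinearMap.sub_apply, LinearMap.sub_apply, map_sub, map_sub, LinearMap.sub_apply, hX.1,
        LinearMap.sum_apply, LinearMap.sum_apply, map_sum, map_sum, LinearMap.sum_apply]
      have h4 : ∀ a, ψ ((t a • hh ε r st a) x) y = - ψ x ((t a • hh ε r st a) y) := by
        intro a
        rw [LinearMap.smul_apply, LinearMap.smul_apply, map_smul, map_smul, LinearMap.smul_apply,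
          (hh1 a).1, smul_neg]
      rw [Finset.sum_congr rfl fun a _ => h4 a, Finset.sum_neg_distrib]
      ring
    · rw [sub_mul, mul_sub, hX.2 c hc, Finset.sum_mul, Finset.mul_sum]
      congr 1
      refine Finset.sum_congr rfl fun a _ => ?_
      rw [smul_mul_assoc, mul_smul_comm, (hh1 a).2 c hc]
  have h5 := hKP _ hs ht
  have h7 : X = (X - ∑ a, t a • hh ε r st a) + ∑ a, t a • hh ε r st a :=
    (sub_add_cancel _ _).symm
  rw [h7, Dv_add, LinearMap.add_apply, h5, zero_add, Dv_sum, LinearMap.sum_apply]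
  refine Finset.sum_eq_zero fun a _ => ?_
  rw [Dv_smul, LinearMap.smul_apply, hz, smul_zero]

end

theorem pGenLef (hDat : SDatK) (hDiv : SDivKL) (hTB : STopB) (hTP : STopP) (hCL : SCenL)
    (hHh : SHh) (hCenK : SCenK) (hBe : SBeInj) : SGenLef := by
  intro l _ Γ _ _ _ _ V _ _ _ ρ hss K _ _ _ h3 hW x hx hz X hX
  have hCK : CharZero K := charZero_of_injective_algebraMap (algebraMap ℚ_[l] K).injective
  obtain ⟨U, N, st, ε, r, u, v, hD⟩ := hDat l Γ V ρ hss K h3
  have hd := hD.dat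
  have hT : TateK l ρ K 4 2 (be K 4 x) := tate_be (fun γ => ρ.T γ) ρ.χ 4 2 hx
  have hKP : KP (ρ.form.baseChange K) (cenK K (res ρ U).T) ε 4 (be K 4 x) := by
    have h1 : Algebra.adjoin K ({z | TateK l ρ K 4 1 z} ∪ {z | WeilClass l ρ K 4 z}) ≤
        KPalg (ρ.form.baseChange K) (cenK K (res ρ U).T) ε 4 := by
      refine Algebra.adjoin_le ?_
      rintro z (hz | hz)
      · exact fun Y hY _ => hDiv l Γ V ρ U K N st ε r u v hD 4 z hz Y hY
      · have h2 : Submonoid.closure {z | TopForm (LieK l ρ K) 4 z} ≤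
            (KPalg (ρ.form.baseChange K) (cenK K (res ρ U).T) ε 4).toSubmonoid := by
          rw [Submonoid.closure_le]
          intro y hy
          obtain ⟨a, -, ha⟩ := hTB K (K ⊗[ℚ_[l]] V) (ρ.form.baseChange K) (LieK l ρ K)
            (cenK K (res ρ U).T) hD.cc N st ε hd.sys r u v hd.uv 4 y hy
          exact hTP K (K ⊗[ℚ_[l]] V) (ρ.form.baseChange K) (cenK K (res ρ U).T) N st ε r u v
            hd a 4 y ha
        exact h2 hz.2
    exact h1 (hW _ hT)
  have hres' : ∀ c, (∀ γ : U, c * (res ρ U).T γ = (res ρ U).T γ * c) → CommF ρ c :=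
    fun c hc => ⟨U, fun γ hγ => hc ⟨γ, hγ⟩⟩
  have hY : Skew (ρ.form.baseChange K) (X.baseChange K) := NilT_base ρ.form X hX.2
  have hYc : ∀ c ∈ cenK K (res ρ U).T, X.baseChange K * c = c * X.baseChange K :=
    LefT_comm K (res ρ U).T X fun c hc => hX.1 c (hres' c hc)
  have hh1 : ∀ a, IsLef (ρ.form.baseChange K) (cenK K (res ρ U).T) (hh ε r st a) :=
    fun a => (hHh K (K ⊗[ℚ_[l]] V) _ _ N st ε r u v hd a).1
  have hh2 : ∀ a, Dv 4 (hh ε r st a) (be K 4 x) = 0 := fun a =>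
    hCenK l Γ V ρ U hD.hU K 4 x hz _ (GenLef_mem hd a) (hh1 a).2 (hh1 a).1
  have h6 : Dv 4 (X.baseChange K) (be K 4 x) = 0 :=
    GenLef_kill hCL hHh hd hKP hh2 _ ⟨hY, hYc⟩
  rw [Dv_be] at h6
  exact hBe l V K 4 _ h6

end Pool.Agent.Lib.MP_640417_ag.Ws
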