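import Pool.Agent.Lib.MP_640417_ag.Ws.Spec
import Pool.Agent.Lib.MP_640417_ag.Tor.Adj
import Pool.Agent.Lib.MP_640417_ag.Tor.PrimTr

/-!
# The structure of the Tate classes: the central elements
-/

set_option autoImplicit false

namespace Pool.Agent.Lib.MP_640417_ag.Ws

open Module Pool.Agent.Lib.MP_640417_ag Pool.Agent.Lib.MP_640417_ag.Tor
  Pool.Agent.Lib.MP_640417_ag.Lef Pool.Agent.Lib.MP_640417_ag.Dfr

open Pool.Agent.Lib.MP_640417_ag.Four (Dv IsDer isDer_Dv)

section

variable {K V : Type} [Field K] [AddCommGroup V] [Module K V]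
  {ψ : LinearMap.BilinForm K V} {C : Subalgebra K (Module.End K V)} {N : ℕ}
  {st : Fin N → Fin N} {ε : Fin N → Module.End K V} {r : Fin N → Fin N}
  {u v : Fin N → Module.End K V}

theorem eps_eC (hS : Sys ψ C N st ε) (j b : Fin N) :
    ε j * eC ε r b = if r j = b then ε j else 0 := by
  rw [eC, Finset.mul_sum]
  by_cases h : r j = b
  · rw [if_pos h, Finset.sum_eq_single j]
    · exact hS.idem j
    · intro i _ hi
      exact hS.orth j i (Ne.symm hi)
    · intro h2
      exact (h2 (Finset.mem_filter.2 ⟨Finset.mem_univ _, h⟩)).elim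
  · rw [if_neg h]
    refine Finset.sum_eq_zero fun i hi => hS.orth j i ?_
    rintro rfl
    exact h (Finset.mem_filter.1 hi).2

theorem eC_eps (hS : Sys ψ C N st ε) (j b : Fin N) :
    eC ε r b * ε j = if r j = b then ε j else 0 := by
  rw [eC, Finset.sum_mul]
  by_cases h : r j = b
  · rw [if_pos h, Finset.sum_eq_single j]
    · exact hS.idem j
    · intro i _ hi
      exact hS.orth i j hi
    · intro h2
      exact (h2 (Finset.mem_filter.2 ⟨Finset.mem_univ _, h⟩)).elim
  · rw [if_neg h]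
    refine Finset.sum_eq_zero fun i hi => hS.orth i j ?_
    rintro rfl
    exact h (Finset.mem_filter.1 hi).2

/-- the eigenvalue of `hh a` on the block `j` -/
def wt {N : ℕ} (K : Type) [Field K] (r st : Fin N → Fin N) (a j : Fin N) : K :=
  (if r j = a then 1 else 0) - (if r j = st a then 1 else 0)

theorem eps_hh (hS : Sys ψ C N st ε) (j a : Fin N) :
    ε j * hh ε r st a = wt K r st a j • ε j := by
  rw [hh, mul_sub, eps_eC hS, eps_eC hS, wt, sub_smul]
  congr 1
  · split_ifs <;> simp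
  · split_ifs <;> simp

theorem hh_eps (hS : Sys ψ C N st ε) (j a : Fin N) :
    hh ε r st a * ε j = wt K r st a j • ε j := by
  rw [hh, sub_mul, eC_eps hS, eC_eps hS, wt, sub_smul]
  congr 1
  · split_ifs <;> simp
  · split_ifs <;> simp

theorem hh_st (hS : Sys ψ C N st ε) (a : Fin N) : hh ε r st (st a) = - hh ε r st a := by
  rw [hh, hh, hS.inv, neg_sub]

theorem hh_self {a : Fin N} (h : st a = a) : hh ε r st a = 0 := by
  rw [hh, h, sub_self]

theorem eC_zero (hUV : UV ψ C N st ε r u v) {a : Fin N} (h : r a ≠ a) : eC ε r a = 0 := by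
  rw [eC]
  refine Finset.sum_eq_zero fun i hi => absurd ?_ h
  rw [← (Finset.mem_filter.1 hi).2, hUV.rr]

theorem hh_zero (hS : Sys ψ C N st ε) (hUV : UV ψ C N st ε r u v) {a : Fin N} (h : r a ≠ a) :
    hh ε r st a = 0 := by
  rw [hh, eC_zero hUV h, eC_zero hUV, sub_zero]
  intro h2
  apply h
  rw [hUV.rst] at h2
  rw [← hS.inv (r a), h2, hS.inv]

theorem rst_eq (hUV : UV ψ C N st ε r u v) {a : Fin N} (h : r a = a) : r (st a) = st a := by
  rw [hUV.rst, h]

theorem hh_mem [CharZero K] (hS : Sys ψ C N st ε) (a : Fin N) : hh ε r st a ∈ C :=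
  Subalgebra.sub_mem _ (eC_mem hS _) (eC_mem hS _)

theorem hh_lef (hD : Dat ψ C N st ε r u v) [CharZero K] (a : Fin N) :
    IsLef ψ C (hh ε r st a) := by
  refine ⟨fun x y => ?_, fun c hc => ?_⟩
  · have h1 := eC_adj hD.sys hD.uv a x y
    have h2 := eC_adj hD.sys hD.uv (st a) x y
    rw [hD.sys.inv] at h2
    rw [hh, LinearMap.sub_apply, LinearMap.sub_apply, map_sub, LinearMap.sub_apply, map_sub, h1, h2]
    ring
  · rw [hh, sub_mul, mul_sub, eC_cen hD.sys hD.uv _ hc, eC_cen hD.sys hD.uv _ hc]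

theorem hh_cube (hS : Sys ψ C N st ε) [CharZero K] (a : Fin N) :
    hh ε r st a * hh ε r st a * hh ε r st a = hh ε r st a := by
  by_cases h : a = st a
  · rw [hh_self h.symm, mul_zero]
  · have h1 := eC_orth (r := r) hS h
    have h2 := eC_orth (r := r) hS (Ne.symm h)
    have h3 := eC_idem (r := r) hS a
    have h4 := eC_idem (r := r) hS (st a)
    have h5 : hh ε r st a * hh ε r st a = eC ε r a + eC ε r (st a) := by
      rw [hh, sub_mul, mul_sub, mul_sub, h1, h2, h3, h4]
      abel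
    rw [h5, hh, mul_sub, add_mul, add_mul, h1, h2, h3, h4]
    abel

theorem rk_ne (hS : Sys ψ C N st ε) [FiniteDimensional K V] (j : Fin N) : rk (ε j) ≠ 0 := by
  intro h
  apply hS.ne j
  unfold rk at h
  exact LinearMap.range_eq_bot.mp (Submodule.finrank_eq_zero.mp h)

theorem rk_st (hD : Dat ψ C N st ε r u v) [CharZero K] [FiniteDimensional K V] (j : Fin N) :
    rk (ε (st j)) = rk (ε j) := by
  have h1 : tr (ε j) = tr (ε (st j)) := tr_adj ψ hD.nd (hD.sys.adj j)
  rw [tr_idem (hD.sys.idem j), tr_idem (hD.sys.idem (st j))] at h1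
  exact_mod_cast h1.symm

theorem rk_r (hD : Dat ψ C N st ε r u v) [CharZero K] [FiniteDimensional K V] (j : Fin N) :
    rk (ε (r j)) = rk (ε j) := by
  have h1 : tr (ε j) = tr (ε (r j)) := by
    rw [← hD.uv.uv j, tr_comm, hD.uv.vu]
  rw [tr_idem (hD.sys.idem j), tr_idem (hD.sys.idem (r j))] at h1
  exact_mod_cast h1.symm

end

theorem pHh : SHh := by
  intro K V _ _ _ _ _ ψ C N st ε r u v hD a
  exact ⟨hh_lef hD a, hh_cube hD.sys a, fun X hX => (hX _ (hh_mem hD.sys a)).symm⟩

end Pool.Agent.Lib.MP_640417_ag.Ws
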