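import Pool.Agent.Lib.MP_640417_ag.Ws.Hh

/-!
# The structure of the Tate classes: weight vectors
-/

set_option autoImplicit false

namespace Pool.Agent.Lib.MP_640417_ag.Ws

open Module Pool.Agent.Lib.MP_640417_ag Pool.Agent.Lib.MP_640417_ag.Tor
  Pool.Agent.Lib.MP_640417_ag.Lef Pool.Agent.Lib.MP_640417_ag.Dfr

open Pool.Agent.Lib.MP_640417_ag.Four (Dv IsDer isDer_Dv Dv_add Dv_smul Dv_sum Dv_zero)

section

variable {K V : Type} [Field K] [AddCommGroup V] [Module K V]
  {ψ : LinearMap.BilinForm K V} {C : Subalgebra K (Module.End K V)}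

private theorem Ind_lef_add {X Y : Module.End K V} (hX : IsLef ψ C X) (hY : IsLef ψ C Y) :
    IsLef ψ C (X + Y) := by
  refine ⟨fun x y => ?_, fun c hc => ?_⟩
  · rw [LinearMap.add_apply, LinearMap.add_apply, map_add, LinearMap.add_apply, map_add,
      hX.1, hY.1]
    ring
  · rw [add_mul, mul_add, hX.2 c hc, hY.2 c hc]

private theorem Ind_lef_smul (t : K) {X : Module.End K V} (hX : IsLef ψ C X) :
    IsLef ψ C (t • X) := by
  refine ⟨fun x y => ?_, fun c hc => ?_⟩
  · rw [LinearMap.smul_apply, LinearMap.smul_apply, map_smul, LinearMap.smul_apply, map_smul,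
      hX.1, smul_eq_mul, smul_eq_mul]
    ring
  · rw [smul_mul_assoc, mul_smul_comm, hX.2 c hc]

private theorem Ind_lef_zero : IsLef ψ C (0 : Module.End K V) := by
  refine ⟨fun x y => ?_, fun c _ => ?_⟩
  · rw [LinearMap.zero_apply, LinearMap.zero_apply, map_zero, LinearMap.zero_apply, map_zero,
      neg_zero]
  · rw [zero_mul, mul_zero]

private theorem Ind_lef_sum {ι : Type} (s : Finset ι) (X : ι → Module.End K V)
    (h : ∀ i, IsLef ψ C (X i)) : IsLef ψ C (∑ i ∈ s, X i) := by
  classical
  induction s using Finset.induction_on with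
  | empty =>
    rw [Finset.sum_empty]
    exact Ind_lef_zero
  | insert a s ha ih =>
    rw [Finset.sum_insert ha]
    exact Ind_lef_add (h a) ih

private theorem Ind_Dv_neg [FiniteDimensional K V] (n : ℕ) (X : Module.End K V)
    (y : ExteriorAlgebra K (Fin n → V)) : Dv n (-X) y = -(Dv n X y) := by
  have h1 : -X = (-1 : K) • X := by rw [neg_smul, one_smul]
  rw [h1, Dv_smul, LinearMap.smul_apply, neg_smul, one_smul]

variable {N : ℕ} {st : Fin N → Fin N} {ε : Fin N → Module.End K V} {r : Fin N → Fin N}
  {u v : Fin N → Module.End K V}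

/-- All central elements kill `y`: then the Lefschetz Lie algebra kills `y`. -/
private theorem Ind_kl [CharZero K] [FiniteDimensional K V] (hCen : SCenL)
    (hD : Dat ψ C N st ε r u v) {n : ℕ} {y : ExteriorAlgebra K (Fin n → V)} (hy : KP ψ C ε n y)
    (h : ∀ a, Dv n (hh ε r st a) y = 0) : KL ψ C n y := by
  intro X hX
  obtain ⟨t, ht⟩ := hCen K V ψ C N st ε r u v hD X hX
  have hL : IsLef ψ C (∑ a, t a • hh ε r st a) :=
    Ind_lef_sum _ _ fun a => Ind_lef_smul _ (hh_lef hD a)
  have hL2 : IsLef ψ C (X - ∑ a, t a • hh ε r st a) := by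
    have h1 : X - ∑ a, t a • hh ε r st a = X + (-1 : K) • ∑ a, t a • hh ε r st a := by
      rw [neg_smul, one_smul, sub_eq_add_neg]
    rw [h1]
    exact Ind_lef_add hX (Ind_lef_smul _ hL)
  have h2 := hy _ hL2 ht
  have h3 : Dv n X y = Dv n (X - ∑ a, t a • hh ε r st a) y +
      Dv n (∑ a, t a • hh ε r st a) y := by
    rw [← LinearMap.add_apply, ← Dv_add, sub_add_cancel]
  rw [h3, h2, zero_add, Dv_sum, LinearMap.sum_apply]
  refine Finset.sum_eq_zero fun a _ => ?_
  rw [Dv_smul, LinearMap.smul_apply, h a, smul_zero]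

/-- The derivation on the top form of the last copy. -/
private theorem Ind_tau [CharZero K] [FiniteDimensional K V] (hDv : SDvTop)
    (hD : Dat ψ C N st ε r u v) {a : Fin N} {d : ℕ} {e f : Fin d → V}
    (hE : DB ψ (ε a) (ε (st a)) d e f) (n : ℕ) {X : Module.End K V} (hX : IsLef ψ C X) :
    Dv (n + 1) X (ExteriorAlgebra.ιMulti K d fun i => las K V n (f i)) =
      tr (ε (st a) * X) • ExteriorAlgebra.ιMulti K d fun i => las K V n (f i) := by
  have h1 : ∀ x, ε (st a) (X x) = X (ε (st a) x) := fun x =>
    (LinearMap.congr_fun (hX.2 _ (hD.sys.mem (st a))) x).symm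
  have h2 : ∀ q, X (f q) = ∑ p, ψ (e p) (X (f q)) • f p := by
    intro q
    have h3 := hE.exq (X (f q))
    rw [h1, hE.qf] at h3
    exact h3
  let M : Matrix (Fin d) (Fin d) K := fun p q => ψ (e p) (X (f q))
  have h4 := hDv K V (n + 1) d X (fun i => las K V n (f i)) M (by
    intro q
    rw [compLeft_las]
    conv_lhs => rw [h2 q]
    rw [map_sum]
    exact Finset.sum_congr rfl fun p _ => by rw [map_smul])
  rw [h4]
  congr 1
  have h5 : ε (st a) * X = ∑ i, ((ψ (e i)) ∘ₗ X).smulRight (f i) := by
    refine LinearMap.ext fun x => ?_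
    rw [LinearMap.sum_apply]
    exact hE.exq (X x)
  rw [h5]
  unfold tr
  rw [map_sum]
  refine Finset.sum_congr rfl fun i _ => ?_
  rw [LinearMap.trace_smulRight]
  rfl

end

theorem pInd (hDv : SDvTop) (_hHh : SHh) (hCen : SCenL) (hDB : SDB) (hExtr : SExtr) : SInd := by
  intro K V _ _ _ _ _ ψ C N st ε r u v hD S hS1 hS2
  classical
  have hs := hD.sys
  have huv := hD.uv
  have key : ∀ (m n : ℕ) (y : ExteriorAlgebra K (Fin n → V)), KP ψ C ε n y →
      ∀ κ : Fin N → ℤ,
      (∀ a, r a = a → Dv n (hh ε r st a) y = (((κ a * (rk (ε a) : ℤ) : ℤ)) : K) • y) →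
      (∀ a, r a = a → 0 < κ a → a ∈ S) →
      ∑ a ∈ Finset.univ.filter (fun a => r a = a), (κ a).toNat = m → y ∈ NN ψ C ε S n := by
    intro m
    induction m with
    | zero =>
      intro n y hy κ hκ _ hsum
      by_cases hy0 : y = 0
      · rw [hy0]
        exact Subalgebra.zero_mem _
      have hst : ∀ a, r a = a → κ (st a) = - κ a := by
        intro a ha
        have h1 := hκ (st a) (rst_eq huv ha)
        rw [hh_st hs, Ind_Dv_neg, hκ a ha, rk_st hD, ← neg_smul] at h1
        have h2 : -(((κ a * (rk (ε a) : ℤ) : ℤ)) : K) = (((κ (st a) * (rk (ε a) : ℤ) : ℤ)) : K) := by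
          by_contra hne
          exact hne ((smul_left_injective K hy0) h1)
        have h3 : -(κ a * (rk (ε a) : ℤ)) = κ (st a) * (rk (ε a) : ℤ) := by exact_mod_cast h2
        have h4 : (rk (ε a) : ℤ) ≠ 0 := by exact_mod_cast rk_ne hs a
        have h5 : (κ (st a) + κ a) * (rk (ε a) : ℤ) = 0 := by rw [add_mul, ← h3]; ring
        rcases mul_eq_zero.1 h5 with h6 | h6
        · omega
        · exact absurd h6 h4
      have hle : ∀ a, r a = a → κ a ≤ 0 := by
        intro a ha
        have h1 := (Finset.sum_eq_zero_iff.1 hsum) a (Finset.mem_filter.2 ⟨Finset.mem_univ _, ha⟩)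
        exact Int.toNat_eq_zero.1 h1
      refine KL.mem_NN (Ind_kl hCen hD hy fun a => ?_)
      by_cases ha : r a = a
      · have h1 := hle a ha
        have h2 := hle (st a) (rst_eq huv ha)
        have h3 := hst a ha
        have h4 : κ a = 0 := by omega
        rw [hκ a ha, h4, zero_mul, Int.cast_zero, zero_smul]
      · rw [hh_zero hs huv ha, Dv_zero, LinearMap.zero_apply]
    | succ m ih =>
      intro n y hy κ hκ hpos hsum
      by_cases hy0 : y = 0
      · rw [hy0]
        exact Subalgebra.zero_mem _
      have hst : ∀ a, r a = a → κ (st a) = - κ a := by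
        intro a ha
        have h1 := hκ (st a) (rst_eq huv ha)
        rw [hh_st hs, Ind_Dv_neg, hκ a ha, rk_st hD, ← neg_smul] at h1
        have h2 : -(((κ a * (rk (ε a) : ℤ) : ℤ)) : K) = (((κ (st a) * (rk (ε a) : ℤ) : ℤ)) : K) := by
          by_contra hne
          exact hne ((smul_left_injective K hy0) h1)
        have h3 : -(κ a * (rk (ε a) : ℤ)) = κ (st a) * (rk (ε a) : ℤ) := by exact_mod_cast h2
        have h4 : (rk (ε a) : ℤ) ≠ 0 := by exact_mod_cast rk_ne hs a
        have h5 : (κ (st a) + κ a) * (rk (ε a) : ℤ) = 0 := by rw [add_mul, ← h3]; ring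
        rcases mul_eq_zero.1 h5 with h6 | h6
        · omega
        · exact absurd h6 h4
      obtain ⟨a, ha, hκa⟩ : ∃ a, r a = a ∧ 0 < κ a := by
        by_contra hcon
        push Not at hcon
        have h1 : ∑ a ∈ Finset.univ.filter (fun a => r a = a), (κ a).toNat = 0 :=
          Finset.sum_eq_zero fun a ha =>
            Int.toNat_eq_zero.2 (hcon a (Finset.mem_filter.1 ha).2)
        omega
      have haS : a ∈ S := hpos a ha hκa
      have hbS : st a ∉ S := hS2 a haS
      have hba : st a ≠ a := fun h => hbS (by rw [h]; exact haS)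
      have hκb : κ (st a) = - κ a := hst a ha
      have hrb : r (st a) = st a := rst_eq huv ha
      obtain ⟨e, f, hE, hle, hlf, hse, _⟩ := hDB K V ψ C N st ε r u v hD a
      refine hExtr K V ψ C N st ε r u v hD S hS1 a haS hba hbS _ e f hE hle hse hlf n y ?_
      have htau := fun (X : Module.End K V) (hX : IsLef ψ C X) => Ind_tau hDv hD hE n hX
      let κ' : Fin N → ℤ := fun j => if j = a then κ a - 1 else if j = st a then 1 - κ a else κ j
      have hκ'a : κ' a = κ a - 1 := if_pos rfl
      have hκ'b : κ' (st a) = 1 - κ a := by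
        change (if st a = a then κ a - 1 else if st a = st a then 1 - κ a else κ (st a)) = _
        rw [if_neg hba, if_pos rfl]
      have hκ'o : ∀ j, j ≠ a → j ≠ st a → κ' j = κ j := by
        intro j h1 h2
        change (if j = a then κ a - 1 else if j = st a then 1 - κ a else κ j) = _
        rw [if_neg h1, if_neg h2]
      refine ih (n + 1) _ ?_ κ' ?_ ?_ ?_
      · intro X hX hX0
        rw [Dv_mul, Dv_inn, hy X hX hX0, map_zero, zero_mul, htau X hX, hX0, zero_smul, mul_zero,
          add_zero]
      · intro a' ha'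
        have h1 : tr (ε (st a) * hh ε r st a') = wt K r st a' (st a) * (rk (ε a) : K) := by
          rw [eps_hh hs]
          have h2 := tr_idem (hs.idem (st a))
          rw [rk_st hD] at h2
          unfold tr at h2 ⊢
          rw [map_smul, h2, smul_eq_mul]
        rw [Dv_mul, Dv_inn, hκ a' ha', htau _ (hh_lef hD a'), h1, map_smul, smul_mul_assoc,
          mul_smul_comm, ← add_smul]
        congr 1
        unfold wt
        rw [hrb]
        by_cases h3 : a' = a
        · subst h3
          rw [hκ'a, if_neg hba, if_pos rfl]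
          push_cast
          ring
        · by_cases h4 : a' = st a
          · subst h4
            rw [hκ'b, if_pos rfl, if_neg (by rw [hs.inv]; exact hba), hκb, rk_st hD]
            push_cast
            ring
          · rw [hκ'o a' h3 h4, if_neg (Ne.symm h4), if_neg]
            · ring
            · intro h5
              exact h3 (by rw [← hs.inv a', ← h5, hs.inv])
      · intro j hj hj0
        by_cases h3 : j = a
        · rw [h3]
          exact haS
        · by_cases h4 : j = st a
          · exfalso
            rw [h4, hκ'b] at hj0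
            omega
          · rw [hκ'o j h3 h4] at hj0
            exact hpos j hj hj0
      · have hmem : a ∈ Finset.univ.filter (fun a => r a = a) :=
          Finset.mem_filter.2 ⟨Finset.mem_univ _, ha⟩
        have h1 : ∀ j ∈ Finset.univ.filter (fun a => r a = a), (κ j).toNat =
            (κ' j).toNat + if j = a then 1 else 0 := by
          intro j _
          by_cases h3 : j = a
          · rw [h3, hκ'a, if_pos rfl]
            omega
          · rw [if_neg h3]
            by_cases h4 : j = st a
            · rw [h4, hκ'b, hκb]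
              omega
            · rw [hκ'o j h3 h4, add_zero]
        rw [Finset.sum_congr rfl h1, Finset.sum_add_distrib, Finset.sum_ite_eq',
          if_pos hmem] at hsum
        omega
  intro n y hy κ hκ hpos
  exact key _ n y hy κ hκ hpos rfl

end Pool.Agent.Lib.MP_640417_ag.Ws
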