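import Pool.Agent.Lib.MP_640417_ag.Ws.Spec

/-!
# The structure of the Tate classes: multiplication by the top form of the last copy
-/

set_option autoImplicit false

namespace Pool.Agent.Lib.MP_640417_ag.Ws

open Module

section

variable {K W : Type} [Field K] [AddCommGroup W] [Module K W]

/-- contraction from the right -/
noncomputable def ctr (φ : Module.Dual K W) : ExteriorAlgebra K W →ₗ[K] ExteriorAlgebra K W :=
  (CliffordAlgebra.contractRight (Q := (0 : QuadraticForm K W))).flip φ

theorem ctr_mul_ι (φ : Module.Dual K W) (z : ExteriorAlgebra K W) (x : W) :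
    ctr φ (z * ExteriorAlgebra.ι K x) = φ x • z - ctr φ z * ExteriorAlgebra.ι K x :=
  CliffordAlgebra.contractRight_mul_ι (Q := (0 : QuadraticForm K W)) (d := φ) x z

theorem ctr_algebraMap (φ : Module.Dual K W) (t : K) :
    ctr φ (algebraMap K (ExteriorAlgebra K W) t) = 0 :=
  CliffordAlgebra.contractRight_algebraMap (Q := (0 : QuadraticForm K W)) (d := φ) t

/-- the last factor -/
theorem ιMulti_last (d : ℕ) (w : Fin (d + 1) → W) : ExteriorAlgebra.ιMulti K (d + 1) w =
    ExteriorAlgebra.ιMulti K d (fun i => w i.castSucc) * ExteriorAlgebra.ι K (w (Fin.last d)) := by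
  rw [ExteriorAlgebra.ιMulti_apply, ExteriorAlgebra.ιMulti_apply, List.ofFn_succ',
    List.concat_eq_append, List.prod_append, List.prod_singleton]

theorem ctr_map {U : Type} [AddCommGroup U] [Module K U] (g : U →ₗ[K] W) (φ : Module.Dual K W)
    (h : ∀ x, φ (g x) = 0) (y : ExteriorAlgebra K U) : ctr φ (ExteriorAlgebra.map g y) = 0 := by
  induction y using CliffordAlgebra.right_induction with
  | algebraMap r =>
    have h1 : ExteriorAlgebra.map g ((algebraMap K (CliffordAlgebra (0 : QuadraticForm K U))) r) =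
        algebraMap K (ExteriorAlgebra K W) r := AlgHom.commutes _ r
    rw [h1, ctr_algebraMap]
  | add a b ha hb => rw [map_add, map_add, ha, hb, add_zero]
  | mul_ι m a ha =>
    change ctr φ (ExteriorAlgebra.map g (a * ExteriorAlgebra.ι K m)) = 0
    rw [map_mul, ExteriorAlgebra.map_apply_ι, ctr_mul_ι, h, ha, zero_smul, zero_mul, sub_zero]

theorem ctr_mul_top (φ : Module.Dual K W) (z : ExteriorAlgebra K W) (hz : ctr φ z = 0) :
    ∀ (d : ℕ) (w : Fin d → W), (∀ i, φ (w i) = 0) →
      ctr φ (z * ExteriorAlgebra.ιMulti K d w) = 0 := by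
  intro d
  induction d with
  | zero =>
    intro w _
    rw [ExteriorAlgebra.ιMulti_zero_apply, mul_one, hz]
  | succ d ih =>
    intro w h
    rw [ιMulti_last, ← mul_assoc, ctr_mul_ι, h, ih _ fun i => h i.castSucc, zero_smul, zero_mul,
      sub_zero]

end

theorem pInj : SInj := by
  intro K V _ _ _ _ n d
  induction d with
  | zero =>
    intro f _ y h
    rw [ExteriorAlgebra.ιMulti_zero_apply, mul_one] at h
    have h1 : (ExteriorAlgebra.map (out K V n)).comp (ExteriorAlgebra.map (inn K V n)) =
        AlgHom.id K _ := by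
      rw [ExteriorAlgebra.map_comp_map]
      have h2 : out K V n ∘ₗ inn K V n = LinearMap.id := LinearMap.ext fun x => out_inn (K := K) n x
      rw [h2, ExteriorAlgebra.map_id]
    have h3 := DFunLike.congr_fun h1 y
    rw [AlgHom.comp_apply, h, map_zero] at h3
    exact h3.symm
  | succ d ih =>
    intro f hf y h
    obtain ⟨hf1, hf2⟩ := linearIndependent_finSucc'.1 hf
    obtain ⟨φ, hφ1, hφ2⟩ := Submodule.exists_dual_map_eq_bot_of_notMem hf2 inferInstance
    refine ih _ hf1 y ?_
    set φ' : Module.Dual K (Fin (n + 1) → V) := φ ∘ₗ LinearMap.proj (Fin.last n) with hφ'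
    have h0 : ∀ x, φ' (las K V n x) = φ x := fun x => by
      rw [hφ', LinearMap.comp_apply, LinearMap.proj_apply, las_last]
    have h1 : ctr φ' (ExteriorAlgebra.map (inn K V n) y) = 0 := by
      refine ctr_map _ _ (fun x => ?_) y
      rw [hφ', LinearMap.comp_apply, LinearMap.proj_apply, inn_last, map_zero]
    have h2 : ∀ i : Fin d, φ' (las K V n (Fin.init f i)) = 0 := by
      intro i
      rw [h0]
      have h3 : φ (Fin.init f i) ∈ Submodule.map φ (Submodule.span K (Set.range (Fin.init f))) :=
        ⟨_, Submodule.subset_span ⟨i, rfl⟩, rfl⟩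
      rw [hφ2] at h3
      exact h3
    have h4 := congrArg (ctr φ') h
    have h5 := ctr_mul_top φ' _ h1 d (fun i => las K V n (f i.castSucc)) h2
    rw [ιMulti_last, ← mul_assoc, ctr_mul_ι, map_zero, h5, zero_mul, sub_zero, h0] at h4
    exact (smul_eq_zero.1 h4).resolve_left hφ1

end Pool.Agent.Lib.MP_640417_ag.Ws
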