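import Pool.Agent.Lib.MP_640417_ag.Ws.Spec

/-!
# The structure of the Tate classes: weights are integers (eigenvalues)
-/

set_option autoImplicit false

namespace Pool.Agent.Lib.MP_640417_ag.Ws

open Module Pool.Agent.Lib.MP_640417_ag Pool.Agent.Lib.MP_640417_ag.Tor

open Pool.Agent.Lib.MP_640417_ag.Four (Dv IsDer isDer_Dv)

theorem pInt (hKill : SKill) : SInt := by
  intro K V _ _ _ _ _ n m X hX y hy hy0 μ hμ
  have h1 := hKill K V n m X hX y hy
  have h2 : ∀ Q : Polynomial K, Polynomial.aeval (Dv n X) Q y = Q.eval μ • y := by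
    intro Q
    induction Q using Polynomial.induction_on' with
    | add p q hp hq =>
      rw [map_add, LinearMap.add_apply, hp, hq, Polynomial.eval_add, add_smul]
    | monomial i a =>
      rw [Polynomial.aeval_monomial, Polynomial.eval_monomial, Module.End.mul_apply,
        Module.algebraMap_end_apply, mul_smul]
      congr 1
      induction i with
      | zero => rw [pow_zero, pow_zero, one_smul, Module.End.one_apply]
      | succ i ih => rw [pow_succ', Module.End.mul_apply, ih, map_smul, hμ, smul_smul, pow_succ]
  rw [h2, Polynomial.eval_prod] at h1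
  rcases smul_eq_zero.1 h1 with h3 | h3
  · obtain ⟨k, hk, h4⟩ := Finset.prod_eq_zero_iff.1 h3
    refine ⟨k, abs_le.2 (Finset.mem_Icc.1 hk), ?_⟩
    rw [Polynomial.eval_sub, Polynomial.eval_X, Polynomial.eval_C, sub_eq_zero] at h4
    exact h4
  · exact absurd h3 hy0

end Pool.Agent.Lib.MP_640417_ag.Ws
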