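import Pool.Agent.Lib.MP_640417_ag.Ws.SpecB
import Pool.Agent.Lib.MP_640417_ag.Lef.FftK
import Pool.Agent.Lib.MP_640417_ag.Frob.BaseRep

/-!
# MP_640417_ag, Ws, module KLdiv: what the Lefschetz Lie algebra kills is in the divisor algebra
-/

set_option autoImplicit false

namespace Pool.Agent.Lib.MP_640417_ag.Ws

open Module TensorProduct Pool.Agent.Lib.MP_640417_ag Pool.Agent.Lib.MP_640417_ag.Frob
  Pool.Agent.Lib.MP_640417_ag.Tor Pool.Agent.Lib.MP_640417_ag.Tg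
  Pool.Agent.Lib.MP_640417_ag.Lef Pool.Agent.Lib.MP_640417_ag.Dfr
  Pool.Agent.Lib.MP_640417_ag.Ty Pool.Agent.Lib.MP_640417_ag.Ctl
  Pool.Agent.Lib.MP_640417_ag.Gen4

open Pool.Agent.Lib.MP_640417_ag.Four (Dv IsDer isDer_Dv be Semisimple)

private theorem KLdiv_exists {Γ : Type} [Group Γ] [TopologicalSpace Γ] (U : OpenSubgroup Γ)
    (p : Γ → Prop) (h : ∃ W : OpenSubgroup U, ∀ γ ∈ W, p (γ : Γ)) :
    ∃ W : OpenSubgroup Γ, ∀ γ ∈ W, p γ := by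
  obtain ⟨W, hW⟩ := h
  have ho : IsOpen ((W.toSubgroup.map U.toSubgroup.subtype : Subgroup Γ) : Set Γ) := by
    rw [Subgroup.coe_map]
    exact U.isOpen.isOpenMap_subtype_val _ W.isOpen
  refine ⟨⟨W.toSubgroup.map U.toSubgroup.subtype, ho⟩, ?_⟩
  intro γ hγ
  obtain ⟨u, hu, rfl⟩ : γ ∈ W.toSubgroup.map U.toSubgroup.subtype := hγ
  exact hW u hu

theorem pKLdiv (hFft2 : SFft2) : SKLdiv := by
  intro l _ Γ _ _ _ _ V _ _ _ ρ U K _ _ N st ε r u v hD n w hw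
  have hK : CharZero K := charZero_of_injective_algebraMap (algebraMap ℚ_[l] K).injective
  have h1 := hFft2 K (K ⊗[ℚ_[l]] V) (ρ.form.baseChange K) (cenK K (res ρ U).T) N st ε r u v
    hD.dat n w hw
  refine Algebra.adjoin_le ?_ h1
  rintro z ⟨hz, hzk⟩
  let TU : U →* Module.End K (K ⊗[ℚ_[l]] V) :=
    ((Module.End.baseChangeHom ℚ_[l] K V : Module.End ℚ_[l] V →ₐ[ℚ_[l]]
      Module.End K (K ⊗[ℚ_[l]] V)) :
        Module.End ℚ_[l] V →* Module.End K (K ⊗[ℚ_[l]] V)).comp (res ρ U).T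
  let χU : U →* Kˣ := (Units.map (algebraMap ℚ_[l] K : ℚ_[l] →* K)).comp (res ρ U).χ
  have hTU : ∀ γ : U, TU γ = (ρ.T (γ : Γ)).baseChange K := fun _ => rfl
  have h2 : z ∈ divisorAlg (fun γ : U => (TU γ).compLeft (Fin n)) χU := by
    refine fft_K (form := ρ.form.baseChange K) (C := cenK K (res ρ U).T) TU χU hD.dat.alt
      hD.dat.nd ?_ ?_ hD.dat.sys hD.dat.uv n 2 z hz fun X hX hXc =>
        hzk X ⟨fun a b => eq_neg_of_add_eq_zero_left (hX a b), hXc⟩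
    · intro γ x y
      have e1 : ((χU γ)⁻¹ : Kˣ).val = algebraMap ℚ_[l] K ((ρ.χ (γ : Γ))⁻¹ : ℚ_[l]ˣ).val := by
        change ((Units.map (algebraMap ℚ_[l] K : ℚ_[l] →* K) (ρ.χ (γ : Γ)))⁻¹ : Kˣ).val = _
        rw [← map_inv, Units.coe_map]
        rfl
      rw [e1, hTU]
      exact equivariant_baseChange K ρ.form (ρ.T γ) _ (ρ.form_equivariant γ) x y
    · intro c hc γ
      rw [cenK, Subalgebra.mem_centralizer_iff] at hc
      exact (hc _ ⟨γ, rfl⟩).symm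
  unfold divisorAlg at h2
  refine Algebra.adjoin_mono ?_ h2
  rintro y ⟨hy1, hy2⟩
  exact ⟨hy1, KLdiv_exists U (fun γ => (((Units.map (algebraMap ℚ_[l] K : ℚ_[l] →* K)).comp
    ρ.χ γ : Kˣ) : K) ^ 1 • ExteriorAlgebra.map (((ρ.T γ).baseChange K).compLeft (Fin n)) y = y)
      hy2⟩

end Pool.Agent.Lib.MP_640417_ag.Ws
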