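import Pool.Agent.Lib.MP_640417_ag.Ws.SpecB
import Pool.Agent.Lib.MP_640417_ag.Tg.MainX

/-!
# The structure of the Tate classes: the derived algebra kills all Tate classes
-/

set_option autoImplicit false

namespace Pool.Agent.Lib.MP_640417_ag.Ws

open Module TensorProduct Pool.Agent.Lib.MP_640417_ag Pool.Agent.Lib.MP_640417_ag.Frob
  Pool.Agent.Lib.MP_640417_ag.Tor Pool.Agent.Lib.MP_640417_ag.Tg
  Pool.Agent.Lib.MP_640417_ag.Lef Pool.Agent.Lib.MP_640417_ag.Dfr
  Pool.Agent.Lib.MP_640417_ag.Ty Pool.Agent.Lib.MP_640417_ag.Ctl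

theorem pKPK (hT : STateK) : SKPK := by
  intro l _ Γ _ _ _ _ V _ _ _ ρ U K _ _ _ N st ε r u v hD hC hN n i w hw X hX htr
  have hCK : CharZero K := charZero_of_injective_algebraMap (algebraMap ℚ_[l] K).injective
  exact hT l Γ V ρ K n i w hw X (pFullX pIrrE pDualE (pTwistE pIrrE pDualE) allX K _ _ _ _
    hD.cc N st ε hD.dat.sys r u v hD.dat.uv hC hN X hX.1 hX.2 htr)

end Pool.Agent.Lib.MP_640417_ag.Ws
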