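import Pool.Agent.Lib.MP_640417_ag.Ws.Spec

/-!
# The structure of the Tate classes: weights are integers
-/

set_option autoImplicit false

namespace Pool.Agent.Lib.MP_640417_ag.Ws

open Module Pool.Agent.Lib.MP_640417_ag Pool.Agent.Lib.MP_640417_ag.Tor

open Pool.Agent.Lib.MP_640417_ag.Four (Dv IsDer isDer_Dv)

/-- products of eigenvectors with eigenvalues `0`, `1`, `-1` -/
private theorem Kill_a {K V : Type} [Field K] [AddCommGroup V] [Module K V]
    [FiniteDimensional K V] (n : ℕ) (X : Module.End K V) :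
    ∀ (m : ℕ) (w : Fin m → (Fin n → V)) (_ : ∀ q, ∃ k : ℤ, |k| ≤ 1 ∧
      X.compLeft (Fin n) (w q) = (k : K) • w q),
      ∃ k : ℤ, |k| ≤ m ∧ Dv n X (ExteriorAlgebra.ιMulti K m w) =
        (k : K) • ExteriorAlgebra.ιMulti K m w := by
  intro m
  induction m with
  | zero =>
    intro w _
    refine ⟨0, by simp, ?_⟩
    rw [ExteriorAlgebra.ιMulti_zero_apply, Dv_one, Int.cast_zero, zero_smul]
  | succ m ih =>
    intro w h
    obtain ⟨k, hk, h1⟩ := ih (Matrix.vecTail w) fun q => h q.succ
    obtain ⟨a, ha, h2⟩ := h 0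
    refine ⟨a + k, ?_, ?_⟩
    · have := abs_add_le a k
      push_cast
      omega
    · rw [ExteriorAlgebra.ιMulti_succ_apply, Dv_mul, Dv_ι, h1, h2, map_smul, Int.cast_add,
        add_smul, smul_mul_assoc, mul_smul_comm]

theorem pKill : SKill := by
  intro K V _ _ _ _ _ n m X hX y hy
  set P : Polynomial K := ∏ k ∈ Finset.Icc (-(m : ℤ)) (m : ℤ),
        (Polynomial.X - Polynomial.C (k : K)) with hP
  let s : Set (Fin n → V) := {w | ∃ k : ℤ, |k| ≤ 1 ∧ X.compLeft (Fin n) w = (k : K) • w}
  have hs : Submodule.span K s = ⊤ := by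
    rw [eq_top_iff]
    intro w _
    have h2 : (2 : K) ≠ 0 := two_ne_zero
    have hX' : ∀ x, X (X (X x)) = X x := fun x => LinearMap.congr_fun hX x
    have e1 : w = (w - X.compLeft (Fin n) (X.compLeft (Fin n) w)) +
        ((2 : K)⁻¹ • (X.compLeft (Fin n) (X.compLeft (Fin n) w) + X.compLeft (Fin n) w) +
          (2 : K)⁻¹ • (X.compLeft (Fin n) (X.compLeft (Fin n) w) - X.compLeft (Fin n) w)) := by
      rw [← smul_add, add_add_sub_cancel, ← two_smul K, smul_smul, inv_mul_cancel₀ h2, one_smul,
        sub_add_cancel]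
    have hc : ∀ x : Fin n → V, X.compLeft (Fin n) (X.compLeft (Fin n) (X.compLeft (Fin n) x)) =
        X.compLeft (Fin n) x := fun x => funext fun i => hX' (x i)
    rw [e1]
    refine Submodule.add_mem _ (Submodule.subset_span ⟨0, by simp, ?_⟩) (Submodule.add_mem _
      (Submodule.smul_mem _ _ (Submodule.subset_span ⟨1, by simp, ?_⟩))
      (Submodule.smul_mem _ _ (Submodule.subset_span ⟨-1, by simp, ?_⟩)))
    · rw [map_sub, hc, sub_self, Int.cast_zero, zero_smul]
    · rw [map_add, hc, Int.cast_one, one_smul, add_comm]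
    · rw [map_sub, hc, Int.cast_neg, Int.cast_one, neg_smul, one_smul, neg_sub]
  rw [← exteriorPower.ιMulti_span_fixedDegree_of_span_eq_top K m (Fin n → V) hs] at hy
  induction hy using Submodule.span_induction with
  | mem x hx =>
    obtain ⟨w, hw, rfl⟩ := hx
    obtain ⟨k, hk, h1⟩ := Kill_a n X m w fun q => hw ⟨q, rfl⟩
    have h2 : ∀ Q : Polynomial K, Polynomial.aeval (Dv n X) Q (ExteriorAlgebra.ιMulti K m w) =
        Q.eval (k : K) • ExteriorAlgebra.ιMulti K m w := by
      intro Q
      induction Q using Polynomial.induction_on' with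
      | add p q hp hq =>
        rw [map_add, LinearMap.add_apply, hp, hq, Polynomial.eval_add, add_smul]
      | monomial i a =>
        rw [Polynomial.aeval_monomial, Polynomial.eval_monomial, Module.End.mul_apply,
          Module.algebraMap_end_apply, mul_smul]
        congr 1
        induction i with
        | zero => rw [pow_zero, pow_zero, one_smul, Module.End.one_apply]
        | succ i ih => rw [pow_succ', Module.End.mul_apply, ih, map_smul, h1, smul_smul, pow_succ]
    rw [h2, hP, Polynomial.eval_prod, Finset.prod_eq_zero (i := k), zero_smul]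
    · rw [Finset.mem_Icc]
      exact abs_le.1 hk
    · simp
  | zero => exact map_zero _
  | add x y _ _ hx hy => rw [map_add, hx, hy, add_zero]
  | smul a x _ hx => rw [map_smul, hx, smul_zero]

end Pool.Agent.Lib.MP_640417_ag.Ws
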