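import Pool.Agent.Lib.MP_640417_ag.Ws.SpecB
import Pool.Agent.Lib.MP_640417_ag.Tg.IrrE
import Pool.Agent.Lib.MP_640417_ag.Tg.DualE
import Pool.Agent.Lib.MP_640417_ag.Tg.LefT
import Pool.Agent.Lib.MP_640417_ag.Lef.Main

/-!
# The structure of the Tate classes: low codimension
-/

set_option autoImplicit false

namespace Pool.Agent.Lib.MP_640417_ag.Ws

open Module TensorProduct Pool.Agent.Lib.MP_640417_ag Pool.Agent.Lib.MP_640417_ag.Frob
  Pool.Agent.Lib.MP_640417_ag.Tor Pool.Agent.Lib.MP_640417_ag.Tg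
  Pool.Agent.Lib.MP_640417_ag.Lef Pool.Agent.Lib.MP_640417_ag.Dfr
  Pool.Agent.Lib.MP_640417_ag.Ty Pool.Agent.Lib.MP_640417_ag.Ctl
  Pool.Agent.Lib.MP_640417_ag.Gen4

open Pool.Agent.Lib.MP_640417_ag.Four (Dv IsDer isDer_Dv be Semisimple tate_be)

theorem pLow (hD : SDatK) (hK : SKPK) (hC : SCoreW) (hB : SBeInj) : SLow := by
  intro l _ Γ _ _ _ _ V _ _ _ ρ hss h3 K _ _ _ hK3 hCon hNT i hdim n x hex
  obtain ⟨hx, hnot⟩ := hex
  have hCK : CharZero K := charZero_of_injective_algebraMap (algebraMap ℚ_[l] K).injective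
  obtain ⟨U, N, st, ε, r, u, v, hdk⟩ := hD l Γ V ρ hss K hK3
  have hw : TateK l ρ K n i (be K n x) := tate_be (fun γ => ρ.T γ) ρ.χ n i hx
  have hKP := hK l Γ V ρ U K N st ε r u v hdk hCon hNT n i (be K n x) hw
  have hKL : KL (ρ.form.baseChange K) (cenK K (res ρ U).T) n (be K n x) := by
    refine (hC K (K ⊗[ℚ_[l]] V) _ _ N st ε r u v hdk.dat n (2 * i) (be K n x) hw.1 hKP).2 ?_
    intro a _ hsta
    refine hdim (LinearMap.range (ε a)) (pIrrE K _ _ _ _ hdk.cc N st ε hdk.dat.sys a)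
      fun hdual => ?_
    exact hsta ((pDualE K _ _ _ _ hdk.cc N st ε hdk.dat.sys r u v hdk.dat.uv a a hdual).2 rfl)
  refine hnot (fft_of l ρ hss h3 n (2 * i) x hx.1 fun X hX hXc => ?_)
  refine hB l V K n _ ?_
  rw [← Dv_be]
  refine hKL _ ⟨NilT_base ρ.form X hX, fun c hc => ?_⟩
  exact LefT_comm K (res ρ U).T X (fun c hc => hXc c ⟨U, fun γ hγ => hc ⟨γ, hγ⟩⟩) c hc

end Pool.Agent.Lib.MP_640417_ag.Ws
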