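import Pool.Agent.Lib.MP_640417_ag.Ws.SpecB
import Pool.Agent.Lib.MP_640417_ag.Tg.DefsZ

/-!
# The structure of the Tate classes: the main theorem, from the modules
-/

set_option autoImplicit false

namespace Pool.Agent.Lib.MP_640417_ag.Ws

open Module TensorProduct Pool.Agent.Lib.MP_640417_ag Pool.Agent.Lib.MP_640417_ag.Frob
  Pool.Agent.Lib.MP_640417_ag.Tor Pool.Agent.Lib.MP_640417_ag.Tg
  Pool.Agent.Lib.MP_640417_ag.Lef Pool.Agent.Lib.MP_640417_ag.Dfr
  Pool.Agent.Lib.MP_640417_ag.Ty Pool.Agent.Lib.MP_640417_ag.Ctl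
  Pool.Agent.Lib.MP_640417_ag.Gen4

open Pool.Agent.Lib.MP_640417_ag.Four (Dv IsDer isDer_Dv be Semisimple NoExotic)

variable (l : ℕ) [Fact l.Prime] {Γ : Type} [Group Γ]
    [TopologicalSpace Γ] [IsTopologicalGroup Γ] [CompactSpace Γ] {V : Type} [AddCommGroup V]
    [Module ℚ_[l] V] [FiniteDimensional ℚ_[l] V] (ρ : H1Rep Γ ℚ_[l] V)

/-- Good constituents and no twists: divisor classes and Weil classes generate. -/
theorem weilGen_of_constH (hDat : SDatK) (hKP : SKPK) (hCore : SCoreW) (hWeil : SWeil)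
    (hss : Semisimple ρ) (K : Type) [Field K] [Algebra ℚ_[l] K]
    [IsAlgClosed K] (h3 : HasSysK l ρ K) (hT : ConstH (ρ.form.baseChange K) (LieK l ρ K))
    (hN : NoTwist (ρ.form.baseChange K) (LieK l ρ K)) : WeilGen l ρ K := by
  intro n i w hw
  have hCK : CharZero K := charZero_of_injective_algebraMap (algebraMap ℚ_[l] K).injective
  obtain ⟨U, N, st, ε, r, u, v, hD⟩ := hDat l Γ V ρ hss K h3
  refine hWeil l Γ V ρ U K N st ε r u v hD n i _ w hw
    (hCore K _ _ _ N st ε r u v hD.dat n (2 * i) w hw.1 ?_).1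
  exact hKP l Γ V ρ U K N st ε r u v hD hT hN n i w hw

/-- **The structure theorem.** -/
theorem tfae_weil (hDat : SDatK) (hKP : SKPK) (hCore : SCoreW) (hWeil : SWeil)
    (hGen : SGenLef) (hss : Semisimple ρ) (K : Type) [Field K]
    [Algebra ℚ_[l] K] [IsAlgClosed K] (h3 : HasSysK l ρ K) :
    List.TFAE [WeilGen l ρ K, WeilAt l ρ K 4 2, LefCond ρ 4 2,
      AllBig l ρ K ∧ NoTwist (ρ.form.baseChange K) (LieK l ρ K),
      PlacesDecide l ρ K ∧ NoTwist (ρ.form.baseChange K) (LieK l ρ K)] := by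
  tfae_have 1 → 2 := fun h => h 4 2
  tfae_have 2 → 3 := fun h => hGen l Γ V ρ hss K h3 h
  tfae_have 3 → 4 := fun h => ⟨fun W hW => bigMod_of_lef_of l ρ hss K h3 h W hW,
    noTwist_of_lef_of l ρ pCcL pNtK ntA hss K h3 h⟩
  tfae_have 4 → 5 := fun h => ⟨fun W hW => Or.inr (Or.inl (h.1 W hW)), h.2⟩
  tfae_have 5 → 1 := fun h => weilGen_of_constH l ρ hDat hKP hCore hWeil hss K h3
    (constH_of_places_of l ρ plcA plcB pDimTwo pAdL hss K h3 h.2 h.1) h.2
  tfae_finish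

/-- Low codimension. -/
theorem lowOK_of_weil (hDat : SDatK) (hKP : SKPK) (hCore : SCoreW) (hWeil : SWeil)
    (hGen : SGenLef) (hLow : SLow) (hss : Semisimple ρ) (h2 : HasSys ρ) (K : Type) [Field K]
    [Algebra ℚ_[l] K] [IsAlgClosed K] (h3 : HasSysK l ρ K) (h : WeilGen l ρ K) :
    LowOK l ρ K := by
  have h1 : PlacesDecide l ρ K ∧ NoTwist (ρ.form.baseChange K) (LieK l ρ K) :=
    ((tfae_weil l ρ hDat hKP hCore hWeil hGen hss K h3).out 0 4 rfl rfl).1 h
  exact hLow l Γ V ρ hss h2 K h3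
    (constH_of_places_of l ρ plcA plcB pDimTwo pAdL hss K h3 h1.2 h1.1) h1.2

/-- The local-global principle. -/
theorem noExotic_iff_rel (hss : Semisimple ρ) (h3 : HasSys ρ) :
    NoExotic ρ ↔ LefCond ρ 4 2 ∧ ¬ WeilRel ρ := by
  constructor
  · intro h
    exact ⟨lef_of_div l ρ ((noExotic_iff_of l ρ hss h3).mp h).1, not_weilRel ρ h⟩
  · rintro ⟨h4, hW⟩
    obtain ⟨γ, h1, h2⟩ := exists_good_free_of l ρ hss h3 (div_of_lef_of l ρ hss h3 h4) hW
    exact noExotic_of_detects_of l ρ hss h3 (detects_of_good l ρ hss h1) h2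

end Pool.Agent.Lib.MP_640417_ag.Ws
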