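import Pool.Agent.Lib.MP_640417_ag.Ws.Spec

/-!
# The structure of the Tate classes: polarization
-/

set_option autoImplicit false

namespace Pool.Agent.Lib.MP_640417_ag.Ws

open Module

/-- the coefficients of a polynomial function with values in a submodule are in the submodule -/
theorem coef_mem {K M : Type} [Field K] [CharZero K] [AddCommGroup M] [Module K M]
    (S : Submodule K M) (n : ℕ) (a : ℕ → M)
    (h : ∀ t : K, ∑ j ∈ Finset.range n, t ^ j • a j ∈ S) : ∀ j ∈ Finset.range n, a j ∈ S := by
  intro j hj
  rw [← Submodule.Quotient.mk_eq_zero, ← Module.forall_dual_apply_eq_zero_iff K]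
  intro φ
  set p : Polynomial K := ∑ k ∈ Finset.range n,
    Polynomial.monomial k (φ (Submodule.Quotient.mk (a k))) with hp
  have h0 : p = 0 := by
    refine Polynomial.eq_zero_of_infinite_isRoot p ?_
    refine Set.infinite_univ.mono fun t _ => ?_
    have h1 := (Submodule.Quotient.mk_eq_zero S).2 (h t)
    have h2 := congrArg φ h1
    rw [map_zero] at h2
    have h3 : (Submodule.Quotient.mk (∑ j ∈ Finset.range n, t ^ j • a j) : M ⧸ S) =
        ∑ j ∈ Finset.range n, t ^ j • (Submodule.Quotient.mk (a j) : M ⧸ S) := by
      change S.mkQ (∑ j ∈ Finset.range n, t ^ j • a j) = _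
      rw [map_sum]
      exact Finset.sum_congr rfl fun j _ => by rw [map_smul]; rfl
    rw [h3, map_sum] at h2
    change Polynomial.eval t p = 0
    rw [hp, Polynomial.eval_finset_sum, ← h2]
    refine Finset.sum_congr rfl fun k _ => ?_
    rw [Polynomial.eval_monomial, map_smul, smul_eq_mul, mul_comm]
  have h4 : p.coeff j = φ (Submodule.Quotient.mk (a j)) := by
    rw [hp, Polynomial.finset_sum_coeff, Finset.sum_eq_single j]
    · rw [Polynomial.coeff_monomial, if_pos rfl]
    · intro k _ hk
      rw [Polynomial.coeff_monomial, if_neg hk]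
    · intro h5
      exact absurd hj h5
  rw [← h4, h0, Polynomial.coeff_zero]

theorem pPolar : SPolar := by
  intro K A M _ _ _ _ _ _ T hT d
  have key : ∀ (d : ℕ) (x y : M), T y * T x ^ d ∈
      Submodule.span K (Set.range fun x => T x ^ (d + 1)) := by
    intro d x y
    have h1 := coef_mem (Submodule.span K (Set.range fun x => T x ^ (d + 1))) (d + 2)
      (fun m => ((d + 1).choose m : K) • (T y ^ m * T x ^ (d + 1 - m))) (fun t => by
        have hc : Commute (t • T y) (T x) := by
          change t • T y * T x = T x * t • T y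
          rw [smul_mul_assoc, mul_smul_comm, hT]
        have e1 : ∑ j ∈ Finset.range (d + 2), t ^ j •
            (((d + 1).choose j : K) • (T y ^ j * T x ^ (d + 1 - j))) =
            T (t • y + x) ^ (d + 1) := by
          rw [map_add, map_smul, hc.add_pow]
          refine Finset.sum_congr rfl fun j _ => ?_
          rw [smul_pow, smul_mul_assoc, smul_mul_assoc]
          congr 1
          rw [Nat.cast_smul_eq_nsmul, nsmul_eq_mul, Nat.cast_comm]
        rw [e1]
        exact Submodule.subset_span ⟨_, rfl⟩) 1 (Finset.mem_range.2 (by omega))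
    have h2 : ((d + 1 : ℕ) : K) ≠ 0 := by exact_mod_cast Nat.succ_ne_zero d
    have h3 : T y * T x ^ d = ((d + 1 : ℕ) : K)⁻¹ •
        (((d + 1).choose 1 : K) • (T y ^ 1 * T x ^ (d + 1 - 1))) := by
      rw [Nat.choose_one_right, smul_smul, inv_mul_cancel₀ h2, one_smul, pow_one,
        Nat.add_sub_cancel]
    rw [h3]
    exact Submodule.smul_mem _ _ h1
  induction d with
  | zero =>
    intro θ
    refine Submodule.subset_span ⟨0, ?_⟩
    simp
  | succ d ih =>
    intro θ
    have h1 := ih fun i => θ i.succ
    rw [List.ofFn_succ, List.prod_cons]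
    generalize (List.ofFn fun i => T (θ i.succ)).prod = z at h1 ⊢
    induction h1 using Submodule.span_induction with
    | mem x hx =>
      obtain ⟨z, rfl⟩ := hx
      exact key d z (θ 0)
    | zero =>
      rw [mul_zero]
      exact Submodule.zero_mem _
    | add x y _ _ hx hy =>
      rw [mul_add]
      exact Submodule.add_mem _ hx hy
    | smul a x _ hx =>
      rw [mul_smul_comm]
      exact Submodule.smul_mem _ _ hx

end Pool.Agent.Lib.MP_640417_ag.Ws
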