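import Pool.Agent.Lib.MP_640417_ag.Ws.Hh
import Pool.Agent.Lib.MP_640417_ag.Dfr.Comm

/-!
# The structure of the Tate classes: elements of rank one on a block
-/

set_option autoImplicit false

namespace Pool.Agent.Lib.MP_640417_ag.Ws

open Module Pool.Agent.Lib.MP_640417_ag Pool.Agent.Lib.MP_640417_ag.Tor
  Pool.Agent.Lib.MP_640417_ag.Lef Pool.Agent.Lib.MP_640417_ag.Dfr

theorem pRk1 : SRk1 := by
  intro K V _ _ _ _ _ ψ C N st ε r u v hD a hra hst
  classical
  have hS := hD.sys
  have hUV := hD.uv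
  obtain ⟨x₀, hx₀⟩ : ∃ x, ε a x ≠ 0 := by
    by_contra h
    push Not at h
    exact hS.ne a (LinearMap.ext h)
  obtain ⟨e, he⟩ : ∃ e, e = ε a x₀ := ⟨_, rfl⟩
  have he0 : e ≠ 0 := he ▸ hx₀
  have hee : ε a e = e := by rw [he, ← Module.End.mul_apply, hS.idem]
  have heps : ∀ k, ε k e = if k = a then e else 0 := by
    intro k
    by_cases hk : k = a
    · rw [if_pos hk, hk, hee]
    · rw [if_neg hk, ← hee, ← Module.End.mul_apply, hS.orth k a hk, LinearMap.zero_apply]
  obtain ⟨φ₀, hφ₀⟩ := Module.Projective.exists_dual_ne_zero K he0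
  obtain ⟨φ, hφ⟩ : ∃ φ : Module.Dual K V, ∀ x, φ x = (φ₀ e)⁻¹ * φ₀ (ε a x) :=
    ⟨(φ₀ e)⁻¹ • (φ₀ ∘ₗ ε a), fun x => rfl⟩
  have hφe : φ e = 1 := by rw [hφ, hee, inv_mul_cancel₀ hφ₀]
  have hφε : ∀ k x, φ (ε k x) = if k = a then φ x else 0 := by
    intro k x
    by_cases hk : k = a
    · rw [if_pos hk, hk, hφ, hφ, ← Module.End.mul_apply, hS.idem]
    · rw [if_neg hk, hφ, ← Module.End.mul_apply, hS.orth a k (Ne.symm hk), LinearMap.zero_apply,
        map_zero, mul_zero]
  obtain ⟨g, hg⟩ : ∃ g, ∀ x, ψ x g = φ x := by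
    refine ⟨(Adj_equiv ψ hD.nd).symm (-φ), fun x => ?_⟩
    have h1 : ψ ((Adj_equiv ψ hD.nd).symm (-φ)) = -φ := by
      rw [← Adj_equiv_apply ψ hD.nd]
      exact (Adj_equiv ψ hD.nd).apply_symm_apply _
    rw [hD.anti, h1, LinearMap.neg_apply, neg_neg]
  have hφg : φ g = 0 := by rw [← hg, hD.alt]
  have hgε : ∀ k, ε k g = if st k = a then g else 0 := by
    intro k
    have h1 : ∀ x, ψ x (ε k g) = if st k = a then φ x else 0 := by
      intro x
      have h2 := hS.adj (st k) x g
      rw [hS.inv] at h2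
      rw [← h2, hg, hφε]
    rw [← sub_eq_zero]
    apply hD.nd
    intro y
    rw [hD.anti, map_sub, h1]
    by_cases hk : st k = a
    · rw [if_pos hk, if_pos hk, hg, sub_self, neg_zero]
    · rw [if_neg hk, if_neg hk, map_zero, sub_self, neg_zero]
  obtain ⟨f, hf⟩ : ∃ f : Module.End K V, f = LinearMap.smulRight φ e := ⟨_, rfl⟩
  obtain ⟨f', hf'⟩ : ∃ f' : Module.End K V, f' = LinearMap.smulRight (ψ e) g := ⟨_, rfl⟩
  have hfx : ∀ x, f x = φ x • e := fun x => by rw [hf]; rfl
  have hfx' : ∀ x, f' x = ψ e x • g := fun x => by rw [hf']; rfl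
  have hff : f * f = f := LinearMap.ext fun x => by
    rw [Module.End.mul_apply, hfx, hfx, map_smul, hφe, smul_eq_mul, mul_one]
  have hff' : f' * f' = f' := LinearMap.ext fun x => by
    rw [Module.End.mul_apply, hfx', hfx', map_smul, hg, hφe, smul_eq_mul, mul_one]
  have hfg : f * f' = 0 := LinearMap.ext fun x => by
    rw [Module.End.mul_apply, hfx', hfx, map_smul, hφg, smul_zero, zero_smul]
    rfl
  have hgf : f' * f = 0 := LinearMap.ext fun x => by
    rw [Module.End.mul_apply, hfx, hfx', map_smul, hD.alt, smul_zero, zero_smul]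
    rfl
  obtain ⟨Y, hY⟩ : ∃ Y, Y = f - f' := ⟨_, rfl⟩
  have hYY : Y * Y = f + f' := by
    rw [hY, sub_mul, mul_sub, mul_sub, hff, hff', hfg, hgf]
    abel
  have hY3 : Y * Y * Y = Y := by
    rw [hYY, hY, add_mul, mul_sub, mul_sub, hff, hff', hfg, hgf]
    abel
  have hfε : ∀ k, f * ε k = if k = a then f else 0 := by
    intro k
    refine LinearMap.ext fun x => ?_
    rw [Module.End.mul_apply, hfx, hφε]
    by_cases hk : k = a
    · rw [if_pos hk, if_pos hk, hfx]
    · rw [if_neg hk, if_neg hk, zero_smul]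
      rfl
  have hεf : ∀ k, ε k * f = if k = a then f else 0 := by
    intro k
    refine LinearMap.ext fun x => ?_
    rw [Module.End.mul_apply, hfx, map_smul, heps]
    by_cases hk : k = a
    · rw [if_pos hk, if_pos hk, hfx]
    · rw [if_neg hk, if_neg hk, smul_zero]
      rfl
  have hfε' : ∀ k, f' * ε k = if st k = a then f' else 0 := by
    intro k
    refine LinearMap.ext fun x => ?_
    have h2 := hS.adj (st k) e x
    rw [hS.inv, heps] at h2
    rw [Module.End.mul_apply, hfx', ← h2]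
    by_cases hk : st k = a
    · rw [if_pos hk, if_pos hk, hfx']
    · rw [if_neg hk, if_neg hk, map_zero, LinearMap.zero_apply, zero_smul]
      rfl
  have hεf' : ∀ k, ε k * f' = if st k = a then f' else 0 := by
    intro k
    refine LinearMap.ext fun x => ?_
    rw [Module.End.mul_apply, hfx', map_smul, hgε]
    by_cases hk : st k = a
    · rw [if_pos hk, if_pos hk, hfx']
    · rw [if_neg hk, if_neg hk, smul_zero]
      rfl
  have hYc : ∀ k, Y * ε k = ε k * Y := by
    intro k
    rw [hY, sub_mul, mul_sub, hfε, hεf, hfε', hεf']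
  have hYs : Four.Skew ψ Y := by
    intro x y
    rw [hY, LinearMap.sub_apply, LinearMap.sub_apply, map_sub, map_sub, LinearMap.sub_apply,
      hfx, hfx, hfx', hfx', map_smul, map_smul, map_smul, map_smul, LinearMap.smul_apply,
      LinearMap.smul_apply, hg, hD.anti x e, hD.anti g y, hg, smul_eq_mul, smul_eq_mul,
      smul_eq_mul, smul_eq_mul]
    ring
  have hcomm : ∀ j, Y * ε (r j) = ε (r j) * Y := fun j => hYc _
  have hsk := ext_skew hS hUV hYs
  refine ⟨ext u v Y, ⟨fun x y => eq_neg_of_add_eq_zero_left (hsk x y),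
    fun c hc => ext_comm hS hUV hcomm hc⟩, ?_, fun j => ?_⟩
  · rw [ext_mul hS hUV _ _ hcomm, ext_mul hS hUV _ _ hcomm, hY3]
  · have h1 : tr (ε j * ext u v Y) = tr (Y * ε (r j)) := by
      rw [← hUV.uv j, mul_assoc, v_ext hS hUV hcomm, tr_comm, mul_assoc, hUV.vu]
    have htf : tr f = 1 := by
      rw [tr, hf, LinearMap.trace_smulRight, hφe]
    have htf' : tr f' = 1 := by
      rw [tr, hf', LinearMap.trace_smulRight, hg, hφe]
    have hsub : tr (Y * ε (r j)) = tr (f * ε (r j)) - tr (f' * ε (r j)) := by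
      rw [hY, sub_mul]
      unfold tr
      rw [map_sub]
    have h2 : tr (Y * ε (r j)) = wt K r st a j := by
      rw [hsub, hfε, hfε', wt]
      congr 1
      · by_cases h : r j = a
        · rw [if_pos h, if_pos h, htf]
        · rw [if_neg h, if_neg h]
          exact map_zero _
      · by_cases h : st (r j) = a
        · rw [if_pos h, if_pos (by rw [← h, hS.inv]), htf']
        · rw [if_neg h, if_neg (fun h' => h (by rw [h', hS.inv]))]
          exact map_zero _
    have h3 : tr (ε j * hh ε r st a) = wt K r st a j * (rk (ε j) : K) := by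
      rw [eps_hh hS, ← tr_idem (hS.idem j)]
      unfold tr
      rw [map_smul, smul_eq_mul]
    rw [h1, h2, h3, mul_comm]
    by_cases h : r j = a
    · rw [← h, rk_r hD]
    · by_cases h' : r j = st a
      · rw [← rk_r hD j, h', rk_st hD]
      · rw [wt, if_neg h, if_neg h', sub_self, zero_mul, zero_mul]

end Pool.Agent.Lib.MP_640417_ag.Ws
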