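import Pool.Agent.Lib.MP_640417_ag.Ws.SpecB
import Pool.Agent.Lib.MP_640417_ag.Tg.DescT
import Pool.Agent.Lib.MP_640417_ag.Dfr.Der
import Pool.Agent.Lib.MP_640417_ag.Dfr.Base

/-!
# The Lie algebra of the image kills all Tate classes
-/

set_option autoImplicit false

namespace Pool.Agent.Lib.MP_640417_ag.Ws

open Module TensorProduct Pool.Agent.Lib.MP_640417_ag Pool.Agent.Lib.MP_640417_ag.Tor
  Pool.Agent.Lib.MP_640417_ag.Lef Pool.Agent.Lib.MP_640417_ag.Frob
  Pool.Agent.Lib.MP_640417_ag.Glob Pool.Agent.Lib.MP_640417_ag.Ty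
  Pool.Agent.Lib.MP_640417_ag.Ctl Pool.Agent.Lib.MP_640417_ag.Tg
  Pool.Agent.Lib.MP_640417_ag.Dfr

open Pool.Agent.Lib.MP_640417_ag.Four (Dv IsDer isDer_Dv cp cp_zero cp_add cp_smul_baseChange
  cp_mul_baseChange cp_baseChange_mul form_cp sum_cp Dv_sum Dv_smul)

theorem pTateK : STateK := by
  intro l _ Γ _ _ _ _ V _ _ _ ρ K _ _ n i w hw X hX
  classical
  obtain ⟨hskew, s, hs⟩ := hX
  have hl : ‖(l : ℚ_[l])‖ < 1 := by
    rw [Padic.norm_p]
    exact inv_lt_one_of_one_lt₀ (by exact_mod_cast (Fact.out : l.Prime).one_lt)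
  have hl0 : (l : ℚ_[l]) ≠ 0 := by exact_mod_cast (Fact.out : l.Prime).ne_zero
  let e := Module.finBasis ℚ_[l] V
  obtain ⟨R, h1, h2, h3⟩ := exists_coord ρ e
  have hanti : ∀ u v, ρ.form u v = - ρ.form v u := Four.anti ρ.form_alt
  have hanti' : ∀ u v, ρ.form.baseChange K u v = - ρ.form.baseChange K v u :=
    Four.anti (alt_baseChange K ρ.form ρ.form_alt)
  have hb1 : (1 : Module.End K (K ⊗[ℚ_[l]] V)) = (1 : Module.End ℚ_[l] V).baseChange K := by
    apply LinearMap.ext
    intro v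
    change v = (LinearMap.id : V →ₗ[ℚ_[l]] V).baseChange K v
    rw [LinearMap.baseChange_id]
    rfl
  let b := Module.Free.chooseBasis ℚ_[l] K
  obtain ⟨τ, hτ⟩ := sum_cp b X
  -- every component kills the Tate classes over `ℚ_l`
  have key : ∀ t, ∀ x : ExteriorAlgebra ℚ_[l] (Fin n → V),
      TateClass (fun γ => (ρ.T γ).compLeft (Fin n)) ρ.χ i x → Dv n (cp (b.coord t) X) x = 0 := by
    intro t x hx
    obtain ⟨y, hy, hy'⟩ := coord_dv ρ e R h1 h2 n i x hx
    rw [← hy']
    refine hh_tate R l hl hl0 _ ⟨?_, b.coord t s, ?_⟩ n i y hy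
    · rw [coord_skew ρ e R h3]
      intro u v
      have hsk : ∀ x y, ρ.form.baseChange K (X x) y + ρ.form.baseChange K x (X y) = 0 := by
        intro x y
        rw [hskew x y, neg_add_cancel]
      rw [hanti u, form_cp, form_cp, ← map_neg, ← hanti', ← map_add, hsk, map_zero]
    · have hA := DescT_cp (Tangent l ρ) (b.coord t) _ hs
      have hcomp : cp (b.coord t) (X + s • (1 : Module.End K (K ⊗[ℚ_[l]] V))) =
          cp (b.coord t) X + b.coord t s • (1 : Module.End ℚ_[l] V) := by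
        rw [cp_add, hb1, cp_smul_baseChange]
      rw [hcomp] at hA
      have h4 : LinearMap.toMatrix e e (cp (b.coord t) X + b.coord t s •
          (1 : Module.End ℚ_[l] V)) ∈
          (Submodule.span ℚ_[l] (Tangent l ρ)).map (LinearMap.toMatrix e e).toLinearMap :=
        ⟨_, hA, rfl⟩
      rw [Submodule.map_span] at h4
      have h5 : LinearMap.toMatrix e e (cp (b.coord t) X + b.coord t s •
          (1 : Module.End ℚ_[l] V)) =
          LinearMap.toMatrix e e (cp (b.coord t) X) + b.coord t s •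
            (1 : Matrix _ _ ℚ_[l]) := by
        rw [map_add, map_smul, LinearMap.toMatrix_one]
      rw [← h5]
      refine Submodule.span_mono ?_ h4
      rintro _ ⟨A, hA', rfl⟩
      exact (CoordT_tan h1 A).1 hA'
  have hspan := tate_span ρ.T ρ.χ n i w hw
  have hker : w ∈ LinearMap.ker (Dv n X) := by
    refine (Submodule.span_le.2 ?_) hspan
    rintro _ ⟨x, hx, rfl⟩
    rw [SetLike.mem_coe, LinearMap.mem_ker]
    conv_lhs => rw [hτ]
    rw [Dv_sum, LinearMap.sum_apply]
    refine Finset.sum_eq_zero fun t _ => ?_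
    rw [Dv_smul, LinearMap.smul_apply, Dv_be, key t x hx, map_zero, smul_zero]
  exact hker

end Pool.Agent.Lib.MP_640417_ag.Ws
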