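import Pool.Agent.Lib.MP_640417_ag.Ws.SpecB
import Pool.Agent.Lib.MP_640417_ag.Tg.IrrE

/-!
# The structure of the Tate classes: top forms of irreducible submodules are top forms of type `a`
-/

set_option autoImplicit false

namespace Pool.Agent.Lib.MP_640417_ag.Ws

open Module Pool.Agent.Lib.MP_640417_ag Pool.Agent.Lib.MP_640417_ag.Tor
  Pool.Agent.Lib.MP_640417_ag.Tg Pool.Agent.Lib.MP_640417_ag.Lef
  Pool.Agent.Lib.MP_640417_ag.Dfr

/-- stability under the operators of `L` on the power -/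
theorem diag_stab {K V : Type} [Field K] [AddCommGroup V] [Module K V]
    {L : Submodule K (Module.End K V)} {n : ℕ} {N : Submodule K (Fin n → V)}
    (h : ∀ X ∈ L, ∀ y ∈ N, X.compLeft (Fin n) y ∈ N) :
    ∀ X ∈ diag n L, ∀ y ∈ N, X y ∈ N := by
  intro X hX
  unfold diag at hX
  induction hX using Submodule.span_induction with
  | mem X hX =>
    obtain ⟨Y, hY, rfl⟩ := hX
    exact h Y hY
  | zero => exact fun y _ => zero_mem _
  | add X Y _ _ h1 h2 => exact fun y hy => add_mem (h1 y hy) (h2 y hy)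
  | smul t X _ h1 => exact fun y hy => Submodule.smul_mem _ t (h1 y hy)

theorem pTopB : STopB := by
  intro K V _ _ _ _ _ ψ L C hC N st ε hs r u v hUV n w hw
  obtain ⟨d, z, hli, hI, rfl⟩ := hw
  obtain ⟨x, hx, hx0⟩ := Submodule.exists_mem_ne_zero_of_ne_bot hI.1
  obtain ⟨i, hi⟩ : ∃ i, x i ≠ 0 := by
    by_contra h
    push Not at h
    exact hx0 (funext h)
  obtain ⟨j, hj⟩ : ∃ j, ε j (x i) ≠ 0 := by
    by_contra h
    push Not at h
    apply hi
    have h1 := LinearMap.congr_fun hs.sum (x i)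
    rw [LinearMap.sum_apply, Finset.sum_eq_zero fun j _ => h j] at h1
    exact h1.symm
  -- the map to the block
  set g : (Fin n → V) →ₗ[K] V := v j ∘ₗ LinearMap.proj i with hg
  have hgx : g x ≠ 0 := by
    intro h
    apply hj
    have h1 := LinearMap.congr_fun (hUV.uv j) (x i)
    rw [← h1]
    change u j (v j (x i)) = 0
    have h2 : v j (x i) = 0 := h
    rw [h2, map_zero]
  have hgX : ∀ X ∈ L, ∀ y, g (X.compLeft (Fin n) y) = X (g y) := fun X hX y =>
    LinearMap.congr_fun (hC.com X hX _ (hUV.vC j)) (y i)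
  have hga : ∀ y, g y ∈ LinearMap.range (ε (r j)) := fun y =>
    ⟨v j (y i), LinearMap.congr_fun (hUV.ev j) (y i)⟩
  set W := Submodule.span K (Set.range z) with hW
  have hst : ∀ X ∈ L, ∀ y ∈ W, X.compLeft (Fin n) y ∈ W := fun X hX y hy =>
    hI.2.1 _ (Submodule.subset_span ⟨X, hX, rfl⟩) y hy
  have h0 : LinearMap.ker g ⊓ W = ⊥ := by
    refine (hI.2.2 (LinearMap.ker g ⊓ W) inf_le_right (diag_stab ?_)).resolve_right ?_
    · rintro X hX y ⟨hy1, hy2⟩
      refine ⟨?_, hst X hX y hy2⟩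
      rw [SetLike.mem_coe, LinearMap.mem_ker] at hy1 ⊢
      rw [hgX X hX, hy1, map_zero]
    · intro h
      have h1 : x ∈ LinearMap.ker g ⊓ W := by
        rw [h]
        exact hx
      exact hgx h1.1
  have hinj : ∀ y ∈ W, ∀ y' ∈ W, g y = g y' → y = y' := by
    intro y hy y' hy' h
    have h1 : y - y' ∈ LinearMap.ker g ⊓ W := by
      refine ⟨?_, sub_mem hy hy'⟩
      rw [SetLike.mem_coe, LinearMap.mem_ker, map_sub, h, sub_self]
    rw [h0, Submodule.mem_bot] at h1
    exact sub_eq_zero.1 h1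
  have hirr := pIrrE K V ψ L C hC N st ε hs (r j)
  have hmap : W.map g = LinearMap.range (ε (r j)) := by
    refine (hirr.2.2 (W.map g) ?_ ?_).resolve_left ?_
    · rintro _ ⟨y, -, rfl⟩
      exact hga y
    · rintro X hX _ ⟨y, hy, rfl⟩
      exact ⟨X.compLeft (Fin n) y, hst X hX y hy, hgX X hX y⟩
    · intro h
      have h1 : g x ∈ W.map g := ⟨x, hx, rfl⟩
      rw [h, Submodule.mem_bot] at h1
      exact hgx h1
  -- the inverse
  have hex : ∀ y : LinearMap.range (ε (r j)), ∃ x' : W, g x' = y := by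
    intro y
    have h1 : (y : V) ∈ W.map g := by
      rw [hmap]
      exact y.2
    obtain ⟨x', hx', h2⟩ := h1
    exact ⟨⟨x', hx'⟩, h2⟩
  choose k hk using hex
  let k' : LinearMap.range (ε (r j)) →ₗ[K] (Fin n → V) :=
    { toFun := fun y => (k y : Fin n → V)
      map_add' := fun y y' => by
        refine hinj _ (k _).2 _ (add_mem (k y).2 (k y').2) ?_
        rw [map_add, hk, hk, hk]
        rfl
      map_smul' := fun t y => by
        refine hinj _ (k _).2 _ (Submodule.smul_mem _ _ (k y).2) ?_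
        rw [RingHom.id_apply, map_smul, hk, hk]
        rfl }
  have hk' : ∀ y, g (k' y) = y := hk
  have hkW : ∀ y, k' y ∈ W := fun y => (k y).2
  set c : V →ₗ[K] (Fin n → V) := k' ∘ₗ (ε (r j)).rangeRestrict with hc
  have hcg : ∀ y, g (c y) = ε (r j) y := fun y => hk' _
  have hcW : ∀ y, c y ∈ W := fun y => hkW _
  have hcX : ∀ X ∈ L, ∀ y, c (X y) = X.compLeft (Fin n) (c y) := by
    intro X hX y
    refine hinj _ (hcW _) _ (hst X hX _ (hcW _)) ?_
    rw [hcg, hgX X hX, hcg]
    exact LinearMap.congr_fun (hC.com X hX _ (hs.mem (r j))) y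
  have hcC : ∀ i', (LinearMap.proj i' ∘ₗ c : Module.End K V) ∈ C := by
    intro i'
    refine hC.bic _ fun X hX => ?_
    refine LinearMap.ext fun y => ?_
    exact congrFun (hcX X hX y) i'
  have hfix : ∀ y ∈ LinearMap.range (ε (r j)), ε (r j) y = y := by
    rintro _ ⟨y, rfl⟩
    exact LinearMap.congr_fun (hs.idem (r j)) y
  have hce : ∀ q, c (g (z q)) = z q := by
    intro q
    have hzq : z q ∈ W := Submodule.subset_span ⟨q, rfl⟩
    refine hinj _ (hcW _) _ hzq ?_
    rw [hcg, hfix _ (hga _)]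
  refine ⟨r j, hUV.rr j, d, fun q => g (z q), c, ?_, ?_, hcC, ?_⟩
  · refine hli.map ?_
    rw [disjoint_iff, inf_comm]
    exact h0
  · rw [← hmap, hW, Submodule.map_span, ← Set.range_comp]
    rfl
  · congr 1
    funext q
    exact (hce q).symm

end Pool.Agent.Lib.MP_640417_ag.Ws
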