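import Pool.Agent.Lib.MP_640417_ag.Ws.TopP

/-!
# The structure of the Tate classes: top forms are eigenvectors of the group, and homogeneous
-/

set_option autoImplicit false

namespace Pool.Agent.Lib.MP_640417_ag.Ws

open Module TensorProduct Pool.Agent.Lib.MP_640417_ag Pool.Agent.Lib.MP_640417_ag.Frob
  Pool.Agent.Lib.MP_640417_ag.Tor Pool.Agent.Lib.MP_640417_ag.Tg
  Pool.Agent.Lib.MP_640417_ag.Lef Pool.Agent.Lib.MP_640417_ag.Dfr
  Pool.Agent.Lib.MP_640417_ag.Ty

/-- an alternating map on a space with a basis of the right length -/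
theorem alt_eq_det {K W M : Type} [Field K] [AddCommGroup W] [Module K W] [AddCommGroup M]
    [Module K M] {d : ℕ} (b : Basis (Fin d) K W) (g : W [⋀^Fin d]→ₗ[K] M) (v : Fin d → W) :
    g v = b.det v • g b := by
  rw [← sub_eq_zero, ← Module.forall_dual_apply_eq_zero_iff K]
  intro φ
  have h := AlternatingMap.congr_fun ((φ.compAlternatingMap g).eq_smul_basis_det b) v
  rw [LinearMap.compAlternatingMap_apply, AlternatingMap.smul_apply,
    LinearMap.compAlternatingMap_apply] at h
  rw [map_sub, map_smul, h, smul_eq_mul, smul_eq_mul, mul_comm, sub_self]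

/-- elements of the commutant over `K` -/
theorem cenK_comm {Γ F V : Type} [Group Γ] [Field F] [AddCommGroup V] [Module F V]
    {K : Type} [Field K] [Algebra F K] {T : Γ →* Module.End F V} {c : Module.End K (K ⊗[F] V)}
    (hc : c ∈ cenK K T) (γ : Γ) : (T γ).baseChange K * c = c * (T γ).baseChange K :=
  Subalgebra.mem_centralizer_iff K |>.1 hc _ ⟨γ, rfl⟩

/-- the action of an operator which commutes with the commutant on a top form -/
theorem top_eigen {K V : Type} [Field K] [AddCommGroup V] [Module K V]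
    {C : Subalgebra K (Module.End K V)} {p : Module.End K V} (hp : p ∈ C) {n : ℕ}
    {w : ExteriorAlgebra K (Fin n → V)} (hw : w ∈ Tops C p n) {T : Module.End K V}
    (hT : ∀ c ∈ C, T * c = c * T) :
    ∃ t : K, ExteriorAlgebra.map (T.compLeft (Fin n)) w = t • w := by
  obtain ⟨d, e, c, hli, hsp, hc, rfl⟩ := hw
  obtain ⟨b, hb⟩ := exists_basis_range hli hsp
  have hmem : ∀ q, T (e q) ∈ LinearMap.range p := by
    intro q
    have h1 : e q ∈ LinearMap.range p := by
      rw [← hsp]
      exact Submodule.subset_span ⟨q, rfl⟩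
    obtain ⟨y, hy⟩ := h1
    exact ⟨T y, by rw [← hy]; exact (LinearMap.congr_fun (hT p hp) y).symm⟩
  refine ⟨b.det fun q => ⟨T (e q), hmem q⟩, ?_⟩
  have h2 := alt_eq_det b ((ExteriorAlgebra.ιMulti K d (M := Fin n → V)).compLinearMap
    (c ∘ₗ (LinearMap.range p).subtype)) fun q => ⟨T (e q), hmem q⟩
  rw [AlternatingMap.compLinearMap_apply, AlternatingMap.compLinearMap_apply] at h2
  have h3 : (fun i => (c ∘ₗ (LinearMap.range p).subtype) (b i)) = fun q => c (e q) := by
    funext q
    exact congrArg c (hb q)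
  have h5 : (⇑(T.compLeft (Fin n)) ∘ fun q => c (e q)) = fun q => c (T (e q)) := by
    funext q i
    exact LinearMap.congr_fun (hT _ (hc i)) (e q)
  rw [ExteriorAlgebra.map_apply_ιMulti, h5]
  rw [h3] at h2
  exact h2

/-- top forms are homogeneous -/
theorem top_hom {K V : Type} [Field K] [AddCommGroup V] [Module K V]
    {C : Subalgebra K (Module.End K V)} {p : Module.End K V} {n : ℕ}
    {w : ExteriorAlgebra K (Fin n → V)} (hw : w ∈ Tops C p n) :
    ∃ m : ℕ, w ∈ ⋀[K]^m (Fin n → V) := by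
  obtain ⟨d, e, c, hli, hsp, hc, rfl⟩ := hw
  exact ⟨d, ExteriorAlgebra.ιMulti_range K d ⟨_, rfl⟩⟩

theorem pTopE : STopE := by
  intro l _ Γ _ _ _ _ V _ _ _ ρ U K _ _ N st ε r u v hD n a w hw
  refine ⟨top_hom hw, ?_⟩
  have h1 : ∀ γ : Γ, ∃ t : K, γ ∈ U →
      ExteriorAlgebra.map (((ρ.T γ).baseChange K).compLeft (Fin n)) w = t • w := by
    intro γ
    by_cases hγ : γ ∈ U
    · obtain ⟨t, ht⟩ := top_eigen (hD.dat.sys.mem a) hw (T := (ρ.T γ).baseChange K)
        (fun c hc => cenK_comm hc (⟨γ, hγ⟩ : U))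
      exact ⟨t, fun _ => ht⟩
    · exact ⟨0, fun h => absurd h hγ⟩
  choose θ hθ using h1
  exact ⟨θ, hθ⟩

end Pool.Agent.Lib.MP_640417_ag.Ws
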