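import Pool.Agent.Lib.MP_640417_ag.Ws.SpecB
import Pool.Agent.Lib.MP_640417_ag.Tg.IrrE

/-!
# The structure of the Tate classes: top forms of type `a` are top forms of irreducible submodules
-/

set_option autoImplicit false

namespace Pool.Agent.Lib.MP_640417_ag.Ws

open Module Pool.Agent.Lib.MP_640417_ag Pool.Agent.Lib.MP_640417_ag.Tor
  Pool.Agent.Lib.MP_640417_ag.Tg Pool.Agent.Lib.MP_640417_ag.Lef
  Pool.Agent.Lib.MP_640417_ag.Dfr

theorem pTopF : STopF := by
  intro K V _ _ _ _ _ ψ L C hC N st ε hs a n w hw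
  obtain ⟨d, e, c, hli, hsp, hc, rfl⟩ := hw
  have hI := pIrrE K V ψ L C hC N st ε hs a
  have hcX : ∀ X ∈ L, ∀ y, X.compLeft (Fin n) (c y) = c (X y) := by
    intro X hX y
    funext i
    exact (LinearMap.congr_fun (hC.com X hX _ (hc i)) y).symm
  have h0 := hI.2.2 (LinearMap.ker c ⊓ LinearMap.range (ε a)) inf_le_right (by
    rintro X hX y ⟨hy1, hy2⟩
    refine ⟨?_, hI.2.1 X hX y hy2⟩
    rw [SetLike.mem_coe, LinearMap.mem_ker] at hy1 ⊢
    rw [← hcX X hX, hy1, map_zero])
  rcases h0 with h0 | h0
  · right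
    have hdis : Disjoint (Submodule.span K (Set.range e)) (LinearMap.ker c) := by
      rw [hsp, disjoint_iff, inf_comm]
      exact h0
    have hmap : Submodule.span K (Set.range fun q => c (e q)) = (LinearMap.range (ε a)).map c := by
      rw [← hsp, Submodule.map_span, ← Set.range_comp]
      rfl
    refine ⟨d, fun q => c (e q), hli.map hdis, ?_, rfl⟩
    rw [hmap]
    refine ⟨?_, ?_, ?_⟩
    · intro h1
      apply hI.1
      rw [← h0, eq_comm, inf_eq_right]
      intro y hy
      rw [LinearMap.mem_ker]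
      have h2 : c y ∈ (LinearMap.range (ε a)).map c := ⟨y, hy, rfl⟩
      rw [h1] at h2
      exact h2
    · intro X hX
      unfold diag at hX
      induction hX using Submodule.span_induction with
      | mem X hX =>
        obtain ⟨Y, hY, rfl⟩ := hX
        rintro _ ⟨y, hy, rfl⟩
        exact ⟨Y y, hI.2.1 Y hY y hy, (hcX Y hY y).symm⟩
      | zero => exact fun y _ => zero_mem _
      | add X Y _ _ h1 h2 => exact fun y hy => add_mem (h1 y hy) (h2 y hy)
      | smul t X _ h1 => exact fun y hy => Submodule.smul_mem _ t (h1 y hy)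
    · intro W' hW' hst
      have h1 := hI.2.2 (W'.comap c ⊓ LinearMap.range (ε a)) inf_le_right (by
        rintro X hX y ⟨hy1, hy2⟩
        refine ⟨?_, hI.2.1 X hX y hy2⟩
        change c (X y) ∈ W'
        rw [← hcX X hX]
        exact hst _ (Submodule.subset_span ⟨X, hX, rfl⟩) _ hy1)
      rcases h1 with h1 | h1
      · left
        rw [eq_bot_iff]
        intro x hx
        obtain ⟨y, hy, rfl⟩ := hW' hx
        have h2 : y ∈ W'.comap c ⊓ LinearMap.range (ε a) := ⟨hx, hy⟩
        rw [h1, Submodule.mem_bot] at h2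
        rw [h2, map_zero]
        exact zero_mem _
      · right
        refine le_antisymm hW' ?_
        rintro _ ⟨y, hy, rfl⟩
        have h2 : y ∈ W'.comap c ⊓ LinearMap.range (ε a) := by
          rw [h1]
          exact hy
        exact h2.1
  · left
    have hd : 0 < d := by
      rcases Nat.eq_zero_or_pos d with rfl | h
      · exfalso
        apply hI.1
        rw [← hsp, Set.range_eq_empty, Submodule.span_empty]
      · exact h
    refine AlternatingMap.map_coord_zero _ (⟨0, hd⟩ : Fin d) ?_
    have h1 : e ⟨0, hd⟩ ∈ LinearMap.range (ε a) := by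
      rw [← hsp]
      exact Submodule.subset_span ⟨_, rfl⟩
    rw [← h0] at h1
    exact h1.1

end Pool.Agent.Lib.MP_640417_ag.Ws
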