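import Pool.Agent.Lib.MP_640417_ag.Ws.Spec

/-!
# The structure of the Tate classes: top forms of other types in the last copy
-/

set_option autoImplicit false

namespace Pool.Agent.Lib.MP_640417_ag.Ws

open Module Pool.Agent.Lib.MP_640417_ag Pool.Agent.Lib.MP_640417_ag.Tor
  Pool.Agent.Lib.MP_640417_ag.Lef Pool.Agent.Lib.MP_640417_ag.Dfr

theorem pTopG : STopG := by
  intro K V _ _ _ _ _ ψ C N st ε r u v hD a a' hra hra' hne n w hw
  obtain ⟨d, e, c, hli, hsp, hc, rfl⟩ := hw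
  have hrs : r (st a) = st a := by rw [hD.uv.rst, hra]
  have hzero : ∀ x ∈ LinearMap.range (ε a'), ∀ c₁ ∈ C, ε (st a) (c₁ x) = 0 := by
    rintro _ ⟨x, rfl⟩ c₁ hc₁
    obtain ⟨t, ht⟩ := hD.uv.one (st a) a' c₁ hc₁
    have h1 : u (st a) * v a' = 0 := by
      rw [← hD.uv.ue, ← hD.uv.ev, hrs, hra', mul_assoc, ← mul_assoc (ε (st a)),
        hD.sys.orth _ _ hne.symm, zero_mul, mul_zero]
    rw [h1, smul_zero] at ht
    exact LinearMap.congr_fun ht x
  refine ⟨ExteriorAlgebra.ιMulti K d fun q => out K V n (c (e q)),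
    ⟨d, e, out K V n ∘ₗ c, hli, hsp, fun i => hc i.castSucc, rfl⟩, ?_⟩
  rw [ExteriorAlgebra.map_apply_ιMulti, ExteriorAlgebra.map_apply_ιMulti]
  congr 1
  funext q
  have h2 : e q ∈ LinearMap.range (ε a') := by
    rw [← hsp]
    exact Submodule.subset_span ⟨q, rfl⟩
  change gb n (ε (st a)) (c (e q)) = inn K V n (out K V n (c (e q)))
  rw [gb_apply]
  have h3 : ε (st a) ((c (e q)) (Fin.last n)) = 0 := hzero _ h2 _ (hc (Fin.last n))
  rw [h3, map_zero, add_zero]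

end Pool.Agent.Lib.MP_640417_ag.Ws
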