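import Pool.Agent.Lib.MP_640417_ag.Ws.SpecB

/-!
# The structure of the Tate classes: top forms are killed by the derived algebra
-/

set_option autoImplicit false

namespace Pool.Agent.Lib.MP_640417_ag.Ws

open Module Pool.Agent.Lib.MP_640417_ag Pool.Agent.Lib.MP_640417_ag.Tor
  Pool.Agent.Lib.MP_640417_ag.Lef Pool.Agent.Lib.MP_640417_ag.Dfr

open Pool.Agent.Lib.MP_640417_ag.Four (Dv IsDer isDer_Dv)

/-- a basis of the range from a linearly independent family with the right span -/
theorem exists_basis_range {K V : Type} [Field K] [AddCommGroup V] [Module K V] {d : ℕ}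
    {e : Fin d → V} {W : Submodule K V} (he : LinearIndependent K e)
    (hs : Submodule.span K (Set.range e) = W) :
    ∃ b : Basis (Fin d) K W, ∀ q, (b q : V) = e q := by
  subst hs
  refine ⟨Basis.span he, fun q => ?_⟩
  rw [Basis.span_apply]

theorem pTopP (hT : SDvTop) : STopP := by
  intro K V _ _ _ _ _ ψ C N st ε r u v hD a n w hw X hX htr
  obtain ⟨d, e, c, hli, hsp, hc, rfl⟩ := hw
  obtain ⟨b, hb⟩ := exists_basis_range hli hsp
  have hXa : ∀ y, ε a (X y) = X (ε a y) := fun y =>
    (LinearMap.congr_fun (hX.2 (ε a) (hD.sys.mem a)) y).symm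
  have hfix : ∀ y ∈ LinearMap.range (ε a), ε a y = y := by
    rintro _ ⟨y, rfl⟩
    exact LinearMap.congr_fun (hD.sys.idem a) y
  have hmem : ∀ y, (ε a * X) y ∈ LinearMap.range (ε a) := fun y => ⟨X y, rfl⟩
  have hres : ∀ y : LinearMap.range (ε a), ((ε a * X).restrict (p := LinearMap.range (ε a))
      (fun x _ => hmem x) y : V) = X y := by
    intro y
    rw [LinearMap.restrict_coe_apply, Module.End.mul_apply, hXa, hfix _ y.2]
  have h1 : LinearMap.trace K (LinearMap.range (ε a)) ((ε a * X).restrict
      (p := LinearMap.range (ε a)) (fun x _ => hmem x)) = 0 := by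
    rw [LinearMap.trace_restrict_eq_of_forall_mem _ _ hmem]
    exact htr a
  rw [LinearMap.trace_eq_matrix_trace K b] at h1
  have h2 : ∀ q, X.compLeft (Fin n) (c (e q)) = ∑ p, (LinearMap.toMatrix b b
      ((ε a * X).restrict (p := LinearMap.range (ε a)) (fun x _ => hmem x))) p q • c (e p) := by
    intro q
    have h3 : X.compLeft (Fin n) (c (e q)) = c (X (e q)) := by
      funext i
      exact LinearMap.congr_fun (hX.2 _ (hc i)) (e q)
    have h4 : X (e q) = ∑ p, (LinearMap.toMatrix b b
        ((ε a * X).restrict (p := LinearMap.range (ε a)) (fun x _ => hmem x))) p q • e p := by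
      have h5 := b.sum_repr ((ε a * X).restrict (p := LinearMap.range (ε a))
        (fun x _ => hmem x) (b q))
      have h6 := congrArg (fun y : LinearMap.range (ε a) => (y : V)) h5
      simp only [hres, AddSubmonoidClass.coe_finset_sum, SetLike.val_smul, hb] at h6
      rw [← h6]
      refine Finset.sum_congr rfl fun p _ => ?_
      rw [LinearMap.toMatrix_apply]
    rw [h3, h4, map_sum]
    exact Finset.sum_congr rfl fun p _ => map_smul _ _ _
  have h7 := hT K V n d X (fun q => c (e q)) _ h2
  rw [h7, h1, zero_smul]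

end Pool.Agent.Lib.MP_640417_ag.Ws
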