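import Pool.Agent.Lib.MP_640417_ag.Ws.SpecB

/-!
# The structure of the Tate classes: Tate classes in the algebra generated by divisor classes and top forms
-/

set_option autoImplicit false

namespace Pool.Agent.Lib.MP_640417_ag.Ws

open Module TensorProduct Pool.Agent.Lib.MP_640417_ag Pool.Agent.Lib.MP_640417_ag.Frob
  Pool.Agent.Lib.MP_640417_ag.Tor Pool.Agent.Lib.MP_640417_ag.Tg
  Pool.Agent.Lib.MP_640417_ag.Lef Pool.Agent.Lib.MP_640417_ag.Dfr
  Pool.Agent.Lib.MP_640417_ag.Ty Pool.Agent.Lib.MP_640417_ag.Ctl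
  Pool.Agent.Lib.MP_640417_ag.Gen4

open Pool.Agent.Lib.MP_640417_ag.Four (Dv IsDer isDer_Dv be Semisimple)

section ext

variable {K W : Type} [Field K] [AddCommGroup W] [Module K W]

private theorem Weil_anti (x y : W) : ExteriorAlgebra.ι K x * ExteriorAlgebra.ι K y =
    - (ExteriorAlgebra.ι K y * ExteriorAlgebra.ι K x) :=
  eq_neg_of_add_eq_zero_left (ExteriorAlgebra.ι_add_mul_swap x y)

/-- products of two vectors are central -/
private theorem Weil_ιι_comm (x y : W) (z : ExteriorAlgebra K W) :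
    ExteriorAlgebra.ι K x * ExteriorAlgebra.ι K y * z =
      z * (ExteriorAlgebra.ι K x * ExteriorAlgebra.ι K y) := by
  induction z using CliffordAlgebra.left_induction with
  | algebraMap r => exact (Algebra.commutes r _).symm
  | add a b ha hb => rw [mul_add, add_mul, ha, hb]
  | ι_mul a m ha =>
    have h1 : ExteriorAlgebra.ι K x * ExteriorAlgebra.ι K y * ExteriorAlgebra.ι K m =
        ExteriorAlgebra.ι K m * (ExteriorAlgebra.ι K x * ExteriorAlgebra.ι K y) := by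
      rw [mul_assoc, Weil_anti y m, mul_neg, ← mul_assoc, Weil_anti x m, neg_mul, neg_neg,
        mul_assoc]
    change ExteriorAlgebra.ι K x * ExteriorAlgebra.ι K y * (ExteriorAlgebra.ι K m * a) =
      ExteriorAlgebra.ι K m * a * (ExteriorAlgebra.ι K x * ExteriorAlgebra.ι K y)
    rw [← mul_assoc, h1, mul_assoc (ExteriorAlgebra.ι K m), ha, mul_assoc]

private theorem Weil_two_comm {x : ExteriorAlgebra K W} (hx : x ∈ ⋀[K]^2 W)
    (z : ExteriorAlgebra K W) : x * z = z * x := by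
  have hx' : x ∈ LinearMap.range (ExteriorAlgebra.ι K (M := W)) *
      LinearMap.range (ExteriorAlgebra.ι K (M := W)) := by
    rw [← pow_two]
    exact hx
  refine Submodule.mul_induction_on hx' ?_ ?_
  · rintro _ ⟨v, rfl⟩ _ ⟨w, rfl⟩
    exact Weil_ιι_comm v w z
  · intro x y hx hy
    rw [add_mul, mul_add, hx, hy]

private theorem Weil_mul_mem {a b : ℕ} {x y : ExteriorAlgebra K W} (hx : x ∈ ⋀[K]^a W)
    (hy : y ∈ ⋀[K]^b W) : x * y ∈ ⋀[K]^(a + b) W :=
  SetLike.mul_mem_graded (A := fun i : ℕ => ⋀[K]^i W) hx hy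

private theorem Weil_one_mem : (1 : ExteriorAlgebra K W) ∈ ⋀[K]^0 W :=
  SetLike.one_mem_graded (fun i : ℕ => ⋀[K]^i W)

/-- the projection -/
private theorem Weil_pr (d : ℕ) : ∃ pr : ExteriorAlgebra K W →ₗ[K] ExteriorAlgebra K W,
    ∀ (a : ℕ) (x : ExteriorAlgebra K W), x ∈ ⋀[K]^a W → pr x = if a = d then x else 0 := by
  refine ⟨GradedAlgebra.proj (fun i : ℕ => ⋀[K]^i W) d, fun a x hx => ?_⟩
  rw [GradedAlgebra.proj_apply]
  split_ifs with h
  · subst h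
    exact DirectSum.decompose_of_mem_same (fun i : ℕ => ⋀[K]^i W) hx
  · exact DirectSum.decompose_of_mem_ne (fun i : ℕ => ⋀[K]^i W) hx h

end ext

private theorem Weil_open {Γ : Type} [Group Γ] [TopologicalSpace Γ] (m : ℕ)
    (f : Fin m → OpenSubgroup Γ) : ∃ G : OpenSubgroup Γ, ∀ γ ∈ G, ∀ j, γ ∈ f j := by
  induction m with
  | zero => exact ⟨⊤, fun _ _ j => j.elim0⟩
  | succ m ih =>
    obtain ⟨G, hG⟩ := ih fun j => f j.castSucc
    refine ⟨G ⊓ f (Fin.last m), fun γ hγ j => ?_⟩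
    rw [OpenSubgroup.mem_inf] at hγ
    refine Fin.lastCases ?_ (fun j => ?_) j
    · exact hγ.2
    · exact hG γ hγ.1 j

section abs

variable {K W Γ : Type} [Field K] [AddCommGroup W] [Module K W] [Group Γ] [TopologicalSpace Γ]
  (T : Γ → W →ₗ[K] W) (χ : Γ →* Kˣ) (U : OpenSubgroup Γ) (TF : Set (ExteriorAlgebra K W))

/-- The pieces. -/
private def Weil_P (x : ExteriorAlgebra K W) : Prop :=
  ∃ (k m : ℕ) (D t : ExteriorAlgebra K W), x = D * t ∧ D ∈ ⋀[K]^(2 * k) W ∧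
    D ∈ Algebra.adjoin K {z | TateClass T χ 1 z} ∧
    (∃ U' : OpenSubgroup Γ, ∀ γ ∈ U', ExteriorAlgebra.map (T γ) D = (((χ γ)⁻¹ : Kˣ) : K) ^ k • D) ∧
    (∀ z, D * z = z * D) ∧ t ∈ Submonoid.closure TF ∧ t ∈ ⋀[K]^m W ∧
    ∃ θ : Γ → K, ∀ γ ∈ U, ExteriorAlgebra.map (T γ) t = θ γ • t

private theorem Weil_inv {x y : ExteriorAlgebra K W} (c : Kˣ) (k : ℕ)
    (h : (c : K) ^ k • y = x) : y = ((c⁻¹ : Kˣ) : K) ^ k • x := by
  rw [← h, smul_smul, ← mul_pow, Units.inv_mul, one_pow, one_smul]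

private theorem Weil_closure (x : ExteriorAlgebra K W)
    (hx : x ∈ Submonoid.closure ({z | TateClass T χ 1 z} ∪ {t | t ∈ TF ∧
      (∃ m : ℕ, t ∈ ⋀[K]^m W) ∧ ∃ θ : Γ → K, ∀ γ ∈ U, ExteriorAlgebra.map (T γ) t = θ γ • t})) :
    Weil_P T χ U TF x := by
  induction hx using Submonoid.closure_induction with
  | mem x hx =>
    rcases hx with hx | ⟨hx, ⟨m, hm⟩, θ, hθ⟩
    · obtain ⟨h2, U', hU'⟩ := id hx
      refine ⟨1, 0, x, 1, (mul_one x).symm, h2, Algebra.subset_adjoin hx, ⟨U', fun γ hγ => ?_⟩,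
        fun z => Weil_two_comm h2 z, Submonoid.one_mem _, Weil_one_mem, fun _ => 1,
        fun γ _ => ?_⟩
      · exact Weil_inv (χ γ) 1 (hU' γ hγ)
      · rw [map_one, one_smul]
    · refine ⟨0, m, 1, x, (one_mul x).symm, Weil_one_mem, Subalgebra.one_mem _,
        ⟨⊤, fun γ _ => ?_⟩, fun z => by rw [one_mul, mul_one], Submonoid.subset_closure hx, hm,
        θ, hθ⟩
      rw [map_one, pow_zero, one_smul]
  | one =>
    refine ⟨0, 0, 1, 1, (one_mul 1).symm, Weil_one_mem, Subalgebra.one_mem _,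
      ⟨⊤, fun γ _ => ?_⟩, fun z => by rw [one_mul, mul_one], Submonoid.one_mem _, Weil_one_mem,
      fun _ => 1, fun γ _ => ?_⟩
    · rw [map_one, pow_zero, one_smul]
    · rw [map_one, one_smul]
  | mul x y _ _ hx hy =>
    obtain ⟨k, m, D, t, rfl, h1, h2, ⟨U1, h3⟩, h4, h5, h6, θ, h7⟩ := hx
    obtain ⟨k', m', D', t', rfl, h1', h2', ⟨U1', h3'⟩, h4', h5', h6', θ', h7'⟩ := hy
    refine ⟨k + k', m + m', D * D', t * t', ?_, ?_, Subalgebra.mul_mem _ h2 h2',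
      ⟨U1 ⊓ U1', fun γ hγ => ?_⟩, fun z => ?_, Submonoid.mul_mem _ h5 h5',
      Weil_mul_mem h6 h6', fun γ => θ γ * θ' γ, fun γ hγ => ?_⟩
    · rw [mul_assoc D t, ← mul_assoc t D', ← h4' t]
      simp only [mul_assoc]
    · have h8 := Weil_mul_mem h1 h1'
      rwa [← mul_add] at h8
    · rw [OpenSubgroup.mem_inf] at hγ
      rw [map_mul, h3 γ hγ.1, h3' γ hγ.2, smul_mul_smul_comm, pow_add]
    · rw [mul_assoc, h4' z, ← mul_assoc, h4 z, mul_assoc]
    · rw [map_mul, h7 γ hγ, h7' γ hγ, smul_mul_smul_comm]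

private theorem Weil_abs (hEig : SEig) (i : ℕ) (w : ExteriorAlgebra K W)
    (hw : TateClass T χ i w)
    (hwa : w ∈ Algebra.adjoin K ({z | TateClass T χ 1 z} ∪ {t | t ∈ TF ∧
      (∃ m : ℕ, t ∈ ⋀[K]^m W) ∧ ∃ θ : Γ → K, ∀ γ ∈ U, ExteriorAlgebra.map (T γ) t = θ γ • t})) :
    w ∈ Algebra.adjoin K ({z | TateClass T χ 1 z} ∪
      {t | (∃ i, TateClass T χ i t) ∧ t ∈ Submonoid.closure TF}) := by
  have hspan : w ∈ Submodule.span K ((Submonoid.closure ({z | TateClass T χ 1 z} ∪ {t | t ∈ TF ∧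
      (∃ m : ℕ, t ∈ ⋀[K]^m W) ∧ ∃ θ : Γ → K, ∀ γ ∈ U, ExteriorAlgebra.map (T γ) t = θ γ • t}) :
      Submonoid (ExteriorAlgebra K W)) : Set (ExteriorAlgebra K W)) := by
    rw [← Algebra.adjoin_eq_span]
    exact hwa
  obtain ⟨nn, f, g, hsum⟩ := Submodule.mem_span_set'.1 hspan
  have hP : ∀ j, Weil_P T χ U TF (g j : ExteriorAlgebra K W) := fun j =>
    Weil_closure T χ U TF _ (g j).2
  choose k m D t hg hD hDa hDU hDc ht htm htθ using hP
  choose U' hU' using hDU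
  choose θ hθ using htθ
  obtain ⟨pr, hpr⟩ := Weil_pr (K := K) (W := W) (2 * i)
  obtain ⟨hw2, Uw, hUw⟩ := hw
  set s : Finset (Fin nn) := Finset.univ.filter fun j => 2 * k j + m j = 2 * i with hs
  have hwsum : w = ∑ j ∈ s, f j • (g j : ExteriorAlgebra K W) := by
    have h1 : pr w = w := by rw [hpr (2 * i) w hw2, if_pos rfl]
    rw [← h1, ← hsum, map_sum, hs, Finset.sum_filter]
    refine Finset.sum_congr rfl fun j _ => ?_
    have h2 : (g j : ExteriorAlgebra K W) ∈ ⋀[K]^(2 * k j + m j) W := by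
      rw [hg j]
      exact Weil_mul_mem (hD j) (htm j)
    rw [map_smul, hpr _ _ h2, smul_ite, smul_zero]
  obtain ⟨G0, hG0⟩ := Weil_open nn U'
  set G : OpenSubgroup Γ := (G0 ⊓ U) ⊓ Uw with hG
  have hmem : ∀ γ ∈ G, (∀ j, γ ∈ U' j) ∧ γ ∈ U ∧ γ ∈ Uw := by
    intro γ hγ
    rw [hG, OpenSubgroup.mem_inf, OpenSubgroup.mem_inf] at hγ
    exact ⟨hG0 γ hγ.1.1, hγ.1.2, hγ.2⟩
  have hmain := hEig K (ExteriorAlgebra K W) {γ // γ ∈ G}
    (fun γ => (ExteriorAlgebra.map (T γ)).toLinearMap) (Fin nn) s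
    (fun j => f j • (g j : ExteriorAlgebra K W))
    (fun j γ => (((χ γ)⁻¹ : Kˣ) : K) ^ k j * θ j γ) (fun j _ γ => by
      obtain ⟨h1, h2, -⟩ := hmem γ.1 γ.2
      change ExteriorAlgebra.map (T γ) (f j • (g j : ExteriorAlgebra K W)) = _
      rw [map_smul, hg j, map_mul, hU' j γ (h1 j), hθ j γ h2, smul_mul_smul_comm, smul_smul,
        smul_smul, mul_comm (f j)]) w
    (fun γ => (((χ γ)⁻¹ : Kˣ) : K) ^ i) (fun γ => by
      obtain ⟨-, -, h3⟩ := hmem γ.1 γ.2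
      exact Weil_inv (χ γ) i (hUw γ h3)) hwsum
  have hle : Submodule.span K {z : ExteriorAlgebra K W | ∃ j ∈ s,
      (∀ γ : {γ // γ ∈ G}, (((χ γ)⁻¹ : Kˣ) : K) ^ k j * θ j γ = (((χ γ)⁻¹ : Kˣ) : K) ^ i) ∧
        z = f j • (g j : ExteriorAlgebra K W)} ≤
      Subalgebra.toSubmodule (Algebra.adjoin K ({z | TateClass T χ 1 z} ∪
        {t | (∃ i, TateClass T χ i t) ∧ t ∈ Submonoid.closure TF})) := by
    rw [Submodule.span_le]
    rintro _ ⟨j, hj, hη, rfl⟩
    rw [hs, Finset.mem_filter] at hj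
    have hj2 := hj.2
    have hmj : m j = 2 * (i - k j) := by omega
    have hki : i = (i - k j) + k j := by omega
    have htate : TateClass T χ (i - k j) (t j) := by
      refine ⟨?_, G, fun γ hγ => ?_⟩
      · rw [← hmj]
        exact htm j
      · obtain ⟨-, h2, -⟩ := hmem γ hγ
        have h4 : (((χ γ)⁻¹ : Kˣ) : K) ^ k j * θ j γ = (((χ γ)⁻¹ : Kˣ) : K) ^ i := hη ⟨γ, hγ⟩
        have h5 : (χ γ : K) ^ (i - k j) * θ j γ = 1 := by
          have h6 : (χ γ : K) ^ i * ((((χ γ)⁻¹ : Kˣ) : K) ^ k j * θ j γ) = 1 := by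
            rw [h4, ← mul_pow, Units.mul_inv, one_pow]
          have h7 : (χ γ : K) ^ i = (χ γ : K) ^ (i - k j) * (χ γ : K) ^ k j := by
            rw [← pow_add, ← hki]
          have h8 : (χ γ : K) ^ k j * (((χ γ)⁻¹ : Kˣ) : K) ^ k j = 1 := by
            rw [← mul_pow, Units.mul_inv, one_pow]
          rw [h7] at h6
          linear_combination h6 - (χ γ : K) ^ (i - k j) * θ j γ * h8
        rw [hθ j γ h2, smul_smul, h5, one_smul]
    refine Submodule.smul_mem _ _ ?_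
    change (g j : ExteriorAlgebra K W) ∈ Algebra.adjoin K _
    rw [hg j]
    refine Subalgebra.mul_mem _ ?_ ?_
    · exact Algebra.adjoin_mono Set.subset_union_left (hDa j)
    · exact Algebra.subset_adjoin (Or.inr ⟨⟨_, htate⟩, ht j⟩)
  exact hle hmain

end abs

theorem pWeil (hTopF : STopF) (hTopE : STopE) (hEig : SEig) (hKL : SKLdiv) : SWeil := by
  intro l _ Γ _ _ _ _ V _ _ _ ρ U K _ _ N st ε r u v hD n i S w hw hNN
  have hCK : CharZero K := charZero_of_injective_algebraMap (algebraMap ℚ_[l] K).injective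
  refine Weil_abs (fun γ => ((ρ.T γ).baseChange K).compLeft (Fin n))
    ((Units.map (algebraMap ℚ_[l] K : ℚ_[l] →* K)).comp ρ.χ) U
    {z | TopForm (LieK l ρ K) n z} hEig i w hw ?_
  refine (Algebra.adjoin_le ?_ : NN (ρ.form.baseChange K) (cenK K (res ρ U).T) ε S n ≤ _) hNN
  rintro x (hx | ⟨a, -, hx⟩)
  · exact Algebra.adjoin_mono Set.subset_union_left
      (hKL l Γ V ρ U K N st ε r u v hD n x hx)
  · rcases hTopF K (K ⊗[ℚ_[l]] V) _ _ _ hD.cc N st ε hD.dat.sys a n x hx with h0 | h1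
    · rw [h0]
      exact Subalgebra.zero_mem _
    · exact Algebra.subset_adjoin (Or.inr ⟨h1, hTopE l Γ V ρ U K N st ε r u v hD n a x hx⟩)

end Pool.Agent.Lib.MP_640417_ag.Ws
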