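import Pool.Agent.Lib.MP_640417_ag.Ws.Spec

/-!
# Decomposition into weight vectors
-/

set_option autoImplicit false

namespace Pool.Agent.Lib.MP_640417_ag.Ws

open Module Pool.Agent.Lib.MP_640417_ag Pool.Agent.Lib.MP_640417_ag.Tor
  Pool.Agent.Lib.MP_640417_ag.Lef Pool.Agent.Lib.MP_640417_ag.Dfr

open Pool.Agent.Lib.MP_640417_ag.Four (Dv IsDer isDer_Dv)

/-- Derivations preserve the degree. -/
theorem Wts_deg {K W : Type} [Field K] [AddCommGroup W] [Module K W]
    {D : Module.End K (ExteriorAlgebra K W)} {s : Module.End K W} (h : IsDer D s) (m : ℕ) :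
    ∀ y ∈ ⋀[K]^m W, D y ∈ ⋀[K]^m W := by
  induction m with
  | zero =>
    intro y hy
    change y ∈ (LinearMap.range (ExteriorAlgebra.ι K : W →ₗ[K] ExteriorAlgebra K W)) ^ 0 at hy
    rw [pow_zero, Submodule.mem_one] at hy
    obtain ⟨t, rfl⟩ := hy
    rw [h.1]
    exact Submodule.zero_mem _
  | succ m ih =>
    intro y hy
    change y ∈ (LinearMap.range (ExteriorAlgebra.ι K : W →ₗ[K] ExteriorAlgebra K W)) ^ (m + 1)
      at hy
    change D y ∈ (LinearMap.range (ExteriorAlgebra.ι K : W →ₗ[K] ExteriorAlgebra K W)) ^ (m + 1)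
    rw [pow_succ'] at hy ⊢
    refine Submodule.mul_induction_on hy ?_ ?_
    · rintro _ ⟨w, rfl⟩ z hz
      rw [h.2]
      exact Submodule.add_mem _ (Submodule.mul_mem_mul ⟨_, rfl⟩ hz)
        (Submodule.mul_mem_mul ⟨_, rfl⟩ (ih z hz))
    · intro a b ha hb
      rw [map_add]
      exact Submodule.add_mem _ ha hb

/-- Diagonalization of commuting operators. -/
theorem Wts_diag {K W I : Type} [Field K] [CharZero K] [AddCommGroup W] [Module K W]
    (E : Submodule K W) (D : I → Module.End K W) (m : ℕ)
    (hE : ∀ a, ∀ y ∈ E, D a y ∈ E) (hc : ∀ a b, D a * D b = D b * D a)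
    (hP : ∀ a, ∀ y ∈ E, (Polynomial.aeval (D a)) (∏ k ∈ Finset.Icc (-(m : ℤ)) (m : ℤ),
        (Polynomial.X - Polynomial.C (k : K))) y = 0) (A : Finset I) :
    ∀ x ∈ E, x ∈ Submodule.span K {y : W | y ∈ E ∧ ∀ a ∈ A, ∃ κ : K, D a y = κ • y} := by
  classical
  -- polynomials in the operators preserve `E`
  have hpol : ∀ a (p : Polynomial K), ∀ y ∈ E, Polynomial.aeval (D a) p y ∈ E := by
    intro a p
    induction p using Polynomial.induction_on' with
    | add p q hp hq =>
      intro y hy
      rw [map_add, LinearMap.add_apply]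
      exact E.add_mem (hp y hy) (hq y hy)
    | monomial k c =>
      intro y hy
      rw [Polynomial.aeval_monomial, Algebra.algebraMap_eq_smul_one, smul_mul_assoc, one_mul,
        LinearMap.smul_apply]
      refine E.smul_mem c ?_
      induction k with
      | zero => simpa using hy
      | succ k ih =>
        rw [pow_succ', Module.End.mul_apply]
        exact hE a _ ih
  -- they commute with the operators
  have hcom : ∀ a b (p : Polynomial K) (y : W), D b (Polynomial.aeval (D a) p y) =
      Polynomial.aeval (D a) p (D b y) := by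
    intro a b p y
    have h1 : Commute (D b) (Polynomial.aeval (D a) p) := by
      have h2 : Commute (D b) (D a) := hc b a
      induction p using Polynomial.induction_on' with
      | add p q hp hq => rw [map_add]; exact hp.add_right hq
      | monomial k c =>
        rw [Polynomial.aeval_monomial]
        have h3 : Commute (D b) (algebraMap K (Module.End K W) c) := (Algebra.commutes c (D b)).symm
        exact h3.mul_right (h2.pow_right k)
    exact LinearMap.congr_fun h1.eq y
  induction A using Finset.induction_on with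
  | empty =>
    intro x hx
    exact Submodule.subset_span ⟨hx, fun a ha => absurd ha (Finset.notMem_empty a)⟩
  | insert a A _ ih =>
    intro x hx
    refine (Submodule.span_le.2 ?_) (ih x hx)
    rintro y ⟨hyE, hyA⟩
    set s : Finset ℤ := Finset.Icc (-(m : ℤ)) (m : ℤ) with hs
    set f : ℤ → K := fun k => (k : K) with hf
    have hinj : Set.InjOn f s := fun i _ j _ h => Int.cast_injective h
    have hne : s.Nonempty := ⟨0, by rw [hs, Finset.mem_Icc]; omega⟩
    have hsum := Lagrange.sum_basis hinj hne
    have hy : y = ∑ j ∈ s, Polynomial.aeval (D a) (Lagrange.basis s f j) y := by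
      have h1 : Polynomial.aeval (D a) (∑ j ∈ s, Lagrange.basis s f j) y = y := by
        rw [hsum, map_one, Module.End.one_apply]
      rw [map_sum, LinearMap.sum_apply] at h1
      exact h1.symm
    rw [SetLike.mem_coe, hy]
    refine Submodule.sum_mem _ fun j hj => Submodule.subset_span ⟨hpol a _ y hyE, ?_⟩
    intro b hb
    rcases Finset.mem_insert.1 hb with rfl | hbA
    · refine ⟨f j, ?_⟩
      have e1 : (Polynomial.X - Polynomial.C (f j)) * Lagrange.basis s f j =
          Polynomial.C (Lagrange.nodalWeight s f j) *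
            ∏ k ∈ s, (Polynomial.X - Polynomial.C (k : K)) := by
        rw [Lagrange.basis_eq_prod_sub_inv_mul_nodal_div hj, ← Lagrange.nodal_erase_eq_nodal_div hj,
          mul_left_comm, ← Lagrange.nodal_eq_mul_nodal_erase hj]
        rfl
      have e2 : Polynomial.aeval (D b) ((Polynomial.X - Polynomial.C (f j)) *
          Lagrange.basis s f j) y = 0 := by
        rw [e1, map_mul, Module.End.mul_apply, hP b y hyE, map_zero]
      rw [map_mul, Module.End.mul_apply, map_sub, Polynomial.aeval_X, Polynomial.aeval_C,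
        LinearMap.sub_apply, Module.algebraMap_end_apply, sub_eq_zero] at e2
      exact e2
    · obtain ⟨κ, hκ⟩ := hyA b hbA
      refine ⟨κ, ?_⟩
      rw [hcom a b, hκ, map_smul]

theorem pWts (hKill : SKill) (hHh : SHh) : SWts := by
  intro K V _ _ _ _ _ ψ C N st ε r u v hD n m x hx hKP
  have hH := fun a => hHh K V ψ C N st ε r u v hD a
  set D : Fin N → Module.End K (ExteriorAlgebra K (Fin n → V)) := fun a => Dv n (hh ε r st a)
    with hDdef
  set E : Submodule K (ExteriorAlgebra K (Fin n → V)) :=
    { carrier := {y | y ∈ ⋀[K]^m (Fin n → V) ∧ KP ψ C ε n y}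
      add_mem' := fun {y z} hy hz => ⟨Submodule.add_mem _ hy.1 hz.1, fun X hX h => by
        rw [map_add, hy.2 X hX h, hz.2 X hX h, add_zero]⟩
      zero_mem' := ⟨Submodule.zero_mem _, fun X _ _ => map_zero _⟩
      smul_mem' := fun c y hy => ⟨Submodule.smul_mem _ c hy.1, fun X hX h => by
        rw [map_smul, hy.2 X hX h, smul_zero]⟩ } with hE
  have hcm : ∀ a, ∀ X : Module.End K V, (∀ c ∈ C, X * c = c * X) →
      Dv n X * Dv n (hh ε r st a) = Dv n (hh ε r st a) * Dv n X := by
    intro a X hX
    have h1 := (hH a).2.2 X hX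
    have h2 := Pool.Agent.Lib.MP_640417_ag.Four.Dv_comm (n := n) X (hh ε r st a)
    rw [h1, sub_self, Pool.Agent.Lib.MP_640417_ag.Four.Dv_zero] at h2
    exact (sub_eq_zero.1 h2.symm)
  have hmem : ∀ y, y ∈ E ↔ y ∈ ⋀[K]^m (Fin n → V) ∧ KP ψ C ε n y := fun y => Iff.rfl
  have hmain := Wts_diag E D m (by
      intro a y hy
      rw [hmem] at hy ⊢
      refine ⟨Wts_deg (isDer_Dv n _) m y hy.1, fun X hX h => ?_⟩
      have h1 := LinearMap.congr_fun (hcm a X hX.2) y
      rw [Module.End.mul_apply, Module.End.mul_apply, hy.2 X hX h, map_zero] at h1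
      exact h1) (by
      intro a b
      exact hcm b (hh ε r st a) (hH a).1.2) (by
      intro a y hy
      exact hKill K V n m (hh ε r st a) (hH a).2.1 y ((hmem y).1 hy).1) Finset.univ x
      ((hmem x).2 ⟨hx, hKP⟩)
  refine Submodule.span_mono ?_ hmain
  rintro y ⟨hy, hk⟩
  rw [hmem] at hy
  refine ⟨hy.1, hy.2, ?_⟩
  choose κ hκ using fun a => hk a (Finset.mem_univ a)
  exact ⟨κ, hκ⟩

end Pool.Agent.Lib.MP_640417_ag.Ws
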