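import Pool.Agent.Lib.MP_640417_ag.Ws.MainA
import Pool.Agent.Lib.MP_640417_ag.Ws.BeInj
import Pool.Agent.Lib.MP_640417_ag.Ws.CenK
import Pool.Agent.Lib.MP_640417_ag.Ws.CenL
import Pool.Agent.Lib.MP_640417_ag.Ws.CoreW
import Pool.Agent.Lib.MP_640417_ag.Ws.DB
import Pool.Agent.Lib.MP_640417_ag.Ws.DatK
import Pool.Agent.Lib.MP_640417_ag.Ws.Div
import Pool.Agent.Lib.MP_640417_ag.Ws.DivKL
import Pool.Agent.Lib.MP_640417_ag.Ws.DvTop
import Pool.Agent.Lib.MP_640417_ag.Ws.Eig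
import Pool.Agent.Lib.MP_640417_ag.Ws.Extr
import Pool.Agent.Lib.MP_640417_ag.Ws.Fft2
import Pool.Agent.Lib.MP_640417_ag.Ws.GenLef
import Pool.Agent.Lib.MP_640417_ag.Ws.Grad
import Pool.Agent.Lib.MP_640417_ag.Ws.Hh
import Pool.Agent.Lib.MP_640417_ag.Ws.Ind
import Pool.Agent.Lib.MP_640417_ag.Ws.Inj
import Pool.Agent.Lib.MP_640417_ag.Ws.Int
import Pool.Agent.Lib.MP_640417_ag.Ws.KLdiv
import Pool.Agent.Lib.MP_640417_ag.Ws.KPK
import Pool.Agent.Lib.MP_640417_ag.Ws.Kill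
import Pool.Agent.Lib.MP_640417_ag.Ws.Low
import Pool.Agent.Lib.MP_640417_ag.Ws.Polar
import Pool.Agent.Lib.MP_640417_ag.Ws.Pow
import Pool.Agent.Lib.MP_640417_ag.Ws.Rk1
import Pool.Agent.Lib.MP_640417_ag.Ws.TateK
import Pool.Agent.Lib.MP_640417_ag.Ws.TopB
import Pool.Agent.Lib.MP_640417_ag.Ws.TopE
import Pool.Agent.Lib.MP_640417_ag.Ws.TopF
import Pool.Agent.Lib.MP_640417_ag.Ws.TopG
import Pool.Agent.Lib.MP_640417_ag.Ws.TopP
import Pool.Agent.Lib.MP_640417_ag.Ws.TwoG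
import Pool.Agent.Lib.MP_640417_ag.Ws.Weil
import Pool.Agent.Lib.MP_640417_ag.Ws.Wts
import Pool.Agent.Lib.MP_640417_ag.T3.NoEx

/-!
# The structure of the Tate classes: the main theorem
-/

set_option autoImplicit false

namespace Pool.Agent.Lib.MP_640417_ag.Ws

open Module TensorProduct Pool.Agent.Lib.MP_640417_ag Pool.Agent.Lib.MP_640417_ag.Frob
  Pool.Agent.Lib.MP_640417_ag.Tor Pool.Agent.Lib.MP_640417_ag.Tg
  Pool.Agent.Lib.MP_640417_ag.Lef Pool.Agent.Lib.MP_640417_ag.Dfr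
  Pool.Agent.Lib.MP_640417_ag.Ty Pool.Agent.Lib.MP_640417_ag.Ctl
  Pool.Agent.Lib.MP_640417_ag.Gen4 Pool.Agent.Lib.MP_640417_ag.Wn
  Pool.Agent.Lib.MP_640417_ag.T3

open Pool.Agent.Lib.MP_640417_ag.Four (Semisimple NoExotic)

theorem extr : SExtr := pExtr pFft2 pTwoG pTopG pPow pPolar pGrad pInj

theorem ind : SInd := pInd pDvTop pHh pCenL pDB extr

theorem dvb : SDiv := pDiv (pInt pKill) pHh pRk1

theorem core : SCoreW := pCoreW (pWts pKill pHh) dvb pHh pCenL ind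

theorem kpk : SKPK := pKPK pTateK

theorem weil : SWeil := pWeil pTopF pTopE pEig (pKLdiv pFft2)

theorem genLef : SGenLef :=
  pGenLef pDatK pDivKL pTopB (pTopP pDvTop) pCenL pHh pCenK pBeInj

theorem low : SLow := pLow pDatK kpk core pBeInj

variable (l : ℕ) [Fact l.Prime] {Γ : Type} [Group Γ]
    [TopologicalSpace Γ] [IsTopologicalGroup Γ] [CompactSpace Γ] {V : Type} [AddCommGroup V]
    [Module ℚ_[l] V] [FiniteDimensional ℚ_[l] V] (ρ : H1Rep Γ ℚ_[l] V)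

/-- Equivalent forms of the generation by divisor classes and Weil classes. -/
theorem structure_tfae (hss : Semisimple ρ) (h3 : NoIII ρ) :
    List.TFAE [WeilGen l ρ (AlgebraicClosure ℚ_[l]), WeilAt l ρ (AlgebraicClosure ℚ_[l]) 4 2,
      AllBig l ρ (AlgebraicClosure ℚ_[l]) ∧
        NoTwist (ρ.form.baseChange (AlgebraicClosure ℚ_[l])) (LieK l ρ (AlgebraicClosure ℚ_[l])),
      PlacesDecide l ρ (AlgebraicClosure ℚ_[l]) ∧
        NoTwist (ρ.form.baseChange (AlgebraicClosure ℚ_[l]))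
          (LieK l ρ (AlgebraicClosure ℚ_[l]))] := by
  have h2 : HasSys ρ := hasSys_of_noIII ρ hss h3
  have h := tfae_weil l ρ pDatK kpk core weil genLef hss (AlgebraicClosure ℚ_[l])
    (hasSysK_of_hasSys l ρ h2)
  tfae_have 1 ↔ 2 := h.out 0 1 rfl rfl
  tfae_have 1 ↔ 3 := h.out 0 3 rfl rfl
  tfae_have 1 ↔ 4 := h.out 0 4 rfl rfl
  tfae_finish

/-- No exotic classes of low codimension. -/
theorem structure_low (hss : Semisimple ρ) (h3 : NoIII ρ)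
    (h : WeilGen l ρ (AlgebraicClosure ℚ_[l])) : LowOK l ρ (AlgebraicClosure ℚ_[l]) :=
  lowOK_of_weil l ρ pDatK kpk core weil genLef low hss (hasSys_of_noIII ρ hss h3) _
    (hasSysK_of_hasSys l ρ (hasSys_of_noIII ρ hss h3)) h

/-- Exotic classes. -/
theorem structure_exotic (hss : Semisimple ρ) (hF : Dense {γ | FrobLike ρ γ}) :
    NoExotic ρ ↔ NoIII ρ ∧ WeilGen l ρ (AlgebraicClosure ℚ_[l]) ∧ ¬ WeilRel ρ := by
  have key : NoIII ρ → (LefCond ρ 4 2 ↔ WeilGen l ρ (AlgebraicClosure ℚ_[l])) := fun h3 =>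
    (tfae_weil l ρ pDatK kpk core weil genLef hss (AlgebraicClosure ℚ_[l])
      (hasSysK_of_hasSys l ρ (hasSys_of_noIII ρ hss h3))).out 2 0 rfl rfl
  constructor
  · intro h
    have h3 := noIII_of_noExotic l ρ hss hF h
    obtain ⟨h4, h5⟩ := (noExotic_iff_rel l ρ hss (hasSys_of_noIII ρ hss h3)).1 h
    exact ⟨h3, (key h3).1 h4, h5⟩
  · rintro ⟨h3, h4, h5⟩
    exact (noExotic_iff_rel l ρ hss (hasSys_of_noIII ρ hss h3)).2 ⟨(key h3).2 h4, h5⟩

/-- Without factors of type IV there are no conditions. -/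
theorem structure_real (hss : Semisimple ρ) (hr : RealType ρ) :
    NoIII ρ ∧ NoRel l ρ (AlgebraicClosure ℚ_[l]) :=
  ⟨noIII_of_hasSys ρ hss (hasSys_of_noTypeIII ρ (noTypeIII_of_real hr)),
    real_ok l ρ hss hr _⟩

end Pool.Agent.Lib.MP_640417_ag.Ws
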