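import Pool.Agent.Lib.MP_640417_ag.Ws.Base

/-!
# The structure of the Tate classes: statements of the modules (algebra), with proofs

Every statement is a proposition `SName`; the module `Ws/Name.lean` proves `pName : SName`, or, if the
docstring names other statements, `pName` takes these as hypotheses. Definitions and first lemmas: `Ws/Base.lean`. `tr`, `rk`, `Skew`:
`Tor/Defs.lean` (there is also a `Four.Skew`, so do not open the namespace `Four` completely); `Sys`, `UV`, `ext`: `Lef/Defs.lean`, `Lef/Ext.lean`;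
`eC`: `Dfr/Cent.lean` (`eC_cen`, `eC_idem`, `eC_orth`, `eC_adj`); `Dv`: `Four/Der.lean` (`isDer_Dv`, `Dv_add`, `Dv_smul`, `Dv_comm`).
-/

set_option autoImplicit false

namespace Pool.Agent.Lib.MP_640417_ag.Ws

open Module Pool.Agent.Lib.MP_640417_ag Pool.Agent.Lib.MP_640417_ag.Tor
  Pool.Agent.Lib.MP_640417_ag.Lef Pool.Agent.Lib.MP_640417_ag.Dfr

open Pool.Agent.Lib.MP_640417_ag.Four (Dv IsDer isDer_Dv)

/-- **The derivation on a product of vectors.**
Proof. `Dv n X (ιMulti w) = ∑ q, ιMulti (Function.update w q (X w_q))` for all `w` (induction on `d` with `ιMulti_succ_apply` or for the list product, `Dv_ι`,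
`Dv_mul`). By multilinearity and the hypothesis this is `∑ q, ∑ p, M p q • ιMulti (update w q (w p))`; for `p ≠ q` two entries agree, so
the term is `0` (`AlternatingMap.map_update_self`), for `p = q` it is `M q q • ιMulti w`. -/
def SDvTop : Prop :=
  ∀ (K V : Type) [Field K] [AddCommGroup V] [Module K V] [FiniteDimensional K V] (n d : ℕ)
    (X : Module.End K V) (w : Fin d → (Fin n → V)) (M : Matrix (Fin d) (Fin d) K),
    (∀ q, X.compLeft (Fin n) (w q) = ∑ p, M p q • w p) →
      Dv n X (ExteriorAlgebra.ιMulti K d w) = M.trace • ExteriorAlgebra.ιMulti K d w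

/-- **A polynomial with simple integral roots kills `Dv n X` in degree `m`.**
Proof. `⋀^m` is spanned by the products of `m` vectors of `Vⁿ` which are eigenvectors of `X.compLeft` for `0`, `1`, `-1`: every vector `w` of `Vⁿ` is
`(w - X² w) + (X² w + X w) / 2 + (X² w - X w) / 2` (`X` applied to each component); use `Submodule.pow_induction_on_left'` or the span of
`ιMulti` (`ExteriorAlgebra.ιMulti_span`): prove by induction on `m` that every `y ∈ ⋀^m` is in the span of the `y` with `Dv n X y = k • y` for an integer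
`k` with `|k| ≤ m` (`Dv n X (ι w * y) = (a + k) • (ι w * y)` if `X w = a w`). On such a `y` the polynomial acts by `∏ (k - k')`, which contains the factor `0`. -/
def SKill : Prop :=
  ∀ (K V : Type) [Field K] [CharZero K] [AddCommGroup V] [Module K V] [FiniteDimensional K V]
    (n m : ℕ) (X : Module.End K V), X * X * X = X → ∀ y ∈ ⋀[K]^m (Fin n → V),
      (Polynomial.aeval (Dv n X)) (∏ k ∈ Finset.Icc (-(m : ℤ)) (m : ℤ),
        (Polynomial.X - Polynomial.C (k : K))) y = 0

/-- **Weights are integers** (from `SKill`).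
Proof. The polynomial acts on `y` by `∏ (μ - k)`. -/
def SInt : Prop :=
  ∀ (K V : Type) [Field K] [CharZero K] [AddCommGroup V] [Module K V] [FiniteDimensional K V]
    (n m : ℕ) (X : Module.End K V), X * X * X = X → ∀ y ∈ ⋀[K]^m (Fin n → V), y ≠ 0 →
      ∀ μ : K, Dv n X y = μ • y → ∃ k : ℤ, |k| ≤ (m : ℤ) ∧ μ = (k : K)

/-- **The central elements.**
Proof. Let `P = eC ε r a`, `P' = eC ε r (st a)`. Skew: `eC_adj` (`st (st a) = a`) and `anti`. In the commutant of `C`: `eC_cen`. `P P' = 0 = P' P` if `a ≠ st a` (`eC_orth`),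
so `(P - P')³ = P - P'` (`eC_idem`); if `a = st a` then `hh = 0`. The last claim: `hh ∈ C` (`eC_mem`). -/
def SHh : Prop :=
  ∀ (K V : Type) [Field K] [CharZero K] [AddCommGroup V] [Module K V] [FiniteDimensional K V]
    (ψ : LinearMap.BilinForm K V) (C : Subalgebra K (Module.End K V)) (N : ℕ)
    (st : Fin N → Fin N) (ε : Fin N → Module.End K V) (r : Fin N → Fin N)
    (u v : Fin N → Module.End K V) (_ : Dat ψ C N st ε r u v) (a : Fin N),
    IsLef ψ C (hh ε r st a) ∧ hh ε r st a * hh ε r st a * hh ε r st a = hh ε r st a ∧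
      ∀ X : Module.End K V, (∀ c ∈ C, X * c = c * X) → hh ε r st a * X = X * hh ε r st a

/-- **Elements of rank one on a block.**
Proof. `e ≠ 0` in the range of `ε a`, a functional `φ` with `φ e = 1`, `φ = φ ∘ ε a` (take any functional with value `1` at `e = ε a e` and compose). `f x = φ x • e`, so
`f f = f`, `ε a f = f = f ε a`. `f'` the adjoint of `f` (`ψ (f x) y = ψ x (f' y)`; by nondegeneracy, see `Adj_equiv` in `Tor/Adj.lean`): `f' f' = f'`,
`ε (st a) f' = f' = f' ε (st a)`, `f f' = 0 = f' f` (`orth`). `Y = f - f'` is skew, commutes with all `ε k`, `Y³ = Y`. `X = ext u v Y` (`ext_skew`, `ext_comm` in `Lef/Ext.lean`;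
`Four.Skew` differs from `Skew` only by the form of the equation), `X³ = ext (Y³) = X` (`ext_mul` in `Dfr/Comm.lean`). Traces: `ε j = u j v j`, so
`tr (ε j X) = tr (v j X u j) = tr (Y v j u j) = tr (Y ε (r j))` (`v_ext`), which is `1` if `r j = a`, `-1` if `r j = st a`, `0` otherwise (`tr f = 1 = tr f'`: `tr_idem`, `tr_adj`,
`Tor/Adj.lean`). `ε j hh a = ± ε j` or `0` in the same cases (`ε j eC a = ε j` if `r j = a`, else `0`), `tr (ε j) = rk (ε j)` (`tr_idem`),
`rk (ε j) = rk (ε (r j))` (`tr (u j v j) = tr (v j u j)`), `rk (ε (st a)) = rk (ε a)` (`rk_adj`). -/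
def SRk1 : Prop :=
  ∀ (K V : Type) [Field K] [CharZero K] [AddCommGroup V] [Module K V] [FiniteDimensional K V]
    (ψ : LinearMap.BilinForm K V) (C : Subalgebra K (Module.End K V)) (N : ℕ)
    (st : Fin N → Fin N) (ε : Fin N → Module.End K V) (r : Fin N → Fin N)
    (u v : Fin N → Module.End K V) (_ : Dat ψ C N st ε r u v) (a : Fin N), r a = a → st a ≠ a →
    ∃ X : Module.End K V, IsLef ψ C X ∧ X * X * X = X ∧
      ∀ j, (rk (ε a) : K) * tr (ε j * X) = tr (ε j * hh ε r st a)

/-- **The Lefschetz Lie algebra is the sum of its center and of the elements with trace zero.**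
Proof. Let `τ_j = tr (ε j X)`, `n_j = rk (ε j)`, `t a = τ_a / (2 n_a)` if `r a = a` and `0` otherwise. `τ_j = τ_(r j)`, `n_j = n_(r j)`, `τ_(st j) = - τ_j`, `n_(st j) = n_j` (see the proof of
`pSplit`, `Tg/Split.lean`). `ε j hh a = ([r j = a] - [r j = st a]) ε j`, so `tr (ε j ∑ a, t a • hh a) = n_j (t (r j) - t (st (r j))) = τ_j` (`st` preserves the set of the `a` with
`r a = a`, by `rst`). -/
def SCenL : Prop :=
  ∀ (K V : Type) [Field K] [CharZero K] [AddCommGroup V] [Module K V] [FiniteDimensional K V]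
    (ψ : LinearMap.BilinForm K V) (C : Subalgebra K (Module.End K V)) (N : ℕ)
    (st : Fin N → Fin N) (ε : Fin N → Module.End K V) (r : Fin N → Fin N)
    (u v : Fin N → Module.End K V) (_ : Dat ψ C N st ε r u v) (X : Module.End K V), IsLef ψ C X →
    ∃ t : Fin N → K, ∀ j, tr (ε j * (X - ∑ a, t a • hh ε r st a)) = 0

/-- **Divisibility of the weights** (from `SInt`, `SHh`, `SRk1`).
Proof. If `st a = a` then `hh a = 0`, so `μ = 0`, `k = 0`. Otherwise let `d = rk (ε a) > 0` and `X` from `SRk1`; `X - d⁻¹ • hh a` is in the Lefschetz algebra with trace zero on all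
blocks, so it kills `y`, and `Dv n X y = (μ / d) • y`. `SInt` for `X`: `μ / d = k` for an integer `k`. `SInt` for `hh a`: `μ = k'` with `|k'| ≤ m`, and
`k' = k d`. -/
def SDiv : Prop :=
  ∀ (K V : Type) [Field K] [CharZero K] [AddCommGroup V] [Module K V] [FiniteDimensional K V]
    (ψ : LinearMap.BilinForm K V) (C : Subalgebra K (Module.End K V)) (N : ℕ)
    (st : Fin N → Fin N) (ε : Fin N → Module.End K V) (r : Fin N → Fin N)
    (u v : Fin N → Module.End K V) (_ : Dat ψ C N st ε r u v) (n m : ℕ),
    ∀ y ∈ ⋀[K]^m (Fin n → V), y ≠ 0 → KP ψ C ε n y → ∀ a, r a = a → ∀ μ : K,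
      Dv n (hh ε r st a) y = μ • y →
        ∃ k : ℤ, μ = (k : K) * (rk (ε a) : K) ∧ |k| * (rk (ε a) : ℤ) ≤ (m : ℤ)

/-- **Decomposition into weight vectors** (from `SKill`, `SHh`).
Proof. Let `E` be the space of all `y ∈ ⋀^m` with `KP y`. The operators `D_a = Dv n (hh a)` preserve `E` (`Dv` preserves the degree; `[hh a, X] = 0` for `X` in the Lefschetz Lie algebra, so
`Dv X (D_a y) = D_a (Dv X y) = 0`, `Dv_comm`) and commute with each other (`hh a ∈ C`, `hh b` commutes with `C`). By `SKill` each of them is killed on `E` by `∏ (T - k)`, with simple roots. So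
by induction on a set `A` of indices `a`, `E` is the span of the elements of `E` which are eigenvectors of all `D_a`, `a ∈ A`: for the step decompose an eigenvector `y` for
`A` as `∑ k, p_k (D_a) y` with the Lagrange polynomials `p_k` of the roots (`∑ p_k = 1`, `(T - k) p_k` is a multiple of `∏ (T - k)`). -/
def SWts : Prop :=
  ∀ (K V : Type) [Field K] [CharZero K] [AddCommGroup V] [Module K V] [FiniteDimensional K V]
    (ψ : LinearMap.BilinForm K V) (C : Subalgebra K (Module.End K V)) (N : ℕ)
    (st : Fin N → Fin N) (ε : Fin N → Module.End K V) (r : Fin N → Fin N)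
    (u v : Fin N → Module.End K V) (_ : Dat ψ C N st ε r u v) (n m : ℕ),
    ∀ x ∈ ⋀[K]^m (Fin n → V), KP ψ C ε n x →
      x ∈ Submodule.span K {y : ExteriorAlgebra K (Fin n → V) | y ∈ ⋀[K]^m (Fin n → V) ∧
        KP ψ C ε n y ∧ ∃ κ : Fin N → K, ∀ a, Dv n (hh ε r st a) y = κ a • y}

/-- **The first fundamental theorem, in terms of elements of degree two.**
Proof. The homogeneous components of `x` are killed by the Lefschetz Lie algebra (`Dv` preserves the degree; `ExteriorAlgebra.gradedAlgebra`), so let `x ∈ ⋀^m`. Apply `fft_K`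
(`Lef/FftK.lean`) to the group `Γ` of all units `g` of `Module.End K V` with `g c = c g` for `c ∈ C` and `ψ (g x) (g y) = ψ x y`, with the indiscrete topology `⊤`, `T g = g`, `χ = 1`:
`x` is in the `divisorAlg`, i.e. in the algebra generated by the `z ∈ ⋀²` with `map (g.compLeft) z = z` for all `g` in some open subgroup, which
is the whole group. It remains to show `Dv n X z = 0` for `X` in the Lefschetz Lie algebra. For `t ∈ K` and `z ∈ ⋀²`: `map ((1 + t X).compLeft) z = z + t • Dv n X z + t² • q z` with `q z =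
map (X.compLeft) z` (check for `z = ι a * ι b`; `⋀²` is spanned by these). For `t ≠ 0` such that `1 - t X` and `1 + t X` are units (`K` is infinite; only finitely many `t` are
excluded) `g = (1 - t X)⁻¹ (1 + t X) ∈ Γ` (compare `Four/Expand.lean`, `Frob/CarB.lean`), `(1 + t X) = (1 - t X) g`, so
`map (1 + t X) z = map (1 - t X) (map g z) = map (1 - t X) z`, and the difference of the two formulas is `2 t • Dv n X z = 0`. -/
def SFft2 : Prop :=
  ∀ (K V : Type) [Field K] [CharZero K] [AddCommGroup V] [Module K V] [FiniteDimensional K V]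
    (ψ : LinearMap.BilinForm K V) (C : Subalgebra K (Module.End K V)) (N : ℕ)
    (st : Fin N → Fin N) (ε : Fin N → Module.End K V) (r : Fin N → Fin N)
    (u v : Fin N → Module.End K V) (_ : Dat ψ C N st ε r u v) (n : ℕ)
    (x : ExteriorAlgebra K (Fin n → V)), KL ψ C n x →
      x ∈ Algebra.adjoin K {z : ExteriorAlgebra K (Fin n → V) |
        z ∈ ⋀[K]^2 (Fin n → V) ∧ KL ψ C n z}

/-- **Dual bases.**
Proof. `ψ` induces a perfect pairing between `range (ε a)` and `range (ε (st a))`: `ψ (ε a x) y = ψ x (ε (st a) y)` (`adj`), nondegeneracy on both sides (`nd`, `anti`). Take a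
basis `e` of `range (ε a)`, and `f` the dual basis. `exp`: both sides are in the range of `ε a` and `ψ (ε a x) (f j) = ψ x (f j)`. `exq` in the same way. Linear
independence follows from `dual`. -/
def SDB : Prop :=
  ∀ (K V : Type) [Field K] [CharZero K] [AddCommGroup V] [Module K V] [FiniteDimensional K V]
    (ψ : LinearMap.BilinForm K V) (C : Subalgebra K (Module.End K V)) (N : ℕ)
    (st : Fin N → Fin N) (ε : Fin N → Module.End K V) (r : Fin N → Fin N)
    (u v : Fin N → Module.End K V) (_ : Dat ψ C N st ε r u v) (a : Fin N),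
    ∃ e f : Fin (rk (ε a)) → V, DB ψ (ε a) (ε (st a)) (rk (ε a)) e f ∧
      LinearIndependent K e ∧ LinearIndependent K f ∧
      Submodule.span K (Set.range e) = LinearMap.range (ε a) ∧
      Submodule.span K (Set.range f) = LinearMap.range (ε (st a))

/-- **Elements of degree two, projected in the last copy.**
Proof. Let `b = st a`, `q = ε b`, `z₀ = map (out) z`; it is killed by the Lefschetz Lie algebra (`Dv_map`, `compLeft_out`). For `t ∈ K`: `map (gb n (t • q)) z = map inn z₀ + t • z₁ + t² • z₂`, where (for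
`z = ι x * ι y`, `x = inn x' + las x''`, and linearly) `z₁ = ι (inn x') * ι (las (q y'')) + ι (las (q x'')) * ι (inn y')`, `z₂ = ι (las (q x'')) * ι (las (q y''))`. All `X` in the Lefschetz Lie algebra
commute with `t • q`, so they kill `map (gb n (t • q)) z` (`Dv_gb`) for all `t`; `t = 1, -1`: they kill `z₁` and `z₂`. `z₂ = 0`: `hh a` is in the Lefschetz Lie algebra
(`eC_adj`, `eC_cen`) and `hh a q = - q` (`r b = b` by `rst`, `b ≠ a`), so `Dv (hh a) z₂ = - 2 • z₂` (check for `ι (las (q x'')) * ι (las (q y''))`). `z₁`: expand the vectors `q y''` in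
the `f i` (`exq`): `z₁ = ∑ i, ι (inn (w i)) * ι (las (f i))` for some `w i : Fin n → V` (`ι x ι y = - ι y ι x`). Let `c x = ∑ i, ψ x (f i) • w i`; `c (e i) = w i` (`dual`), so `z₁ = Th n d e f c`. The components
of `c` are in `C` by `bic`: let `X` be in the Lefschetz Lie algebra; `0 = Dv X z₁ = ∑ i, (ι (inn (X w i)) * ι (las (f i)) + ι (inn (w i)) * ι (las (X f i)))` and `X f i = q X f i = ∑ j, ψ (e j) (X (f i)) • f j`; so
`∑ j, ι (inn (X w j + ∑ i, ψ (e j) (X (f i)) • w i)) * ι (las (f j)) = 0`, and the vectors in the brackets vanish (a lemma: if `∑ j, ι (inn (y j)) * ι (las (f j)) = 0` with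
linearly independent `f j` then `y = 0`; e.g. contract with a functional of the last copy which is `1` on `f j` and `0` on the other `f i`, `CliffordAlgebra.contractLeft`). So
`X w j = - ∑ i, ψ (e j) (X (f i)) • w i = ∑ i, ψ (X (e j)) (f i) • w i = c (X e j)`. As `ψ x (f i) = ψ x (ε b (f i)) = ψ (ε a x) (f i)`, `c x = c (ε a x)`, and `ε a x = ∑ ψ x (f i) • e i`, so
`c (X x) = c (X ε a x) = ∑ ψ x (f i) • c (X (e i)) = ∑ ψ x (f i) • X (w i) = X (c x)`. -/
def STwoG : Prop :=
  ∀ (K V : Type) [Field K] [CharZero K] [AddCommGroup V] [Module K V] [FiniteDimensional K V]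
    (ψ : LinearMap.BilinForm K V) (C : Subalgebra K (Module.End K V)) (N : ℕ)
    (st : Fin N → Fin N) (ε : Fin N → Module.End K V) (r : Fin N → Fin N)
    (u v : Fin N → Module.End K V) (_ : Dat ψ C N st ε r u v) (a : Fin N), r a = a → st a ≠ a →
    ∀ (d : ℕ) (e f : Fin d → V), DB ψ (ε a) (ε (st a)) d e f → ∀ n : ℕ,
    ∀ z ∈ ⋀[K]^2 (Fin (n + 1) → V), KL ψ C (n + 1) z →
      ∃ z₀ : ExteriorAlgebra K (Fin n → V), KL ψ C n z₀ ∧ ∃ c : V →ₗ[K] (Fin n → V),
        (∀ i, (LinearMap.proj i ∘ₗ c : Module.End K V) ∈ C) ∧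
        ExteriorAlgebra.map (gb n (ε (st a))) z =
          ExteriorAlgebra.map (inn K V n) z₀ + Th n d e f c

/-- **Top forms of other types, projected in the last copy.**
Proof. Let `w = ιMulti (c (e q))`, `e` a basis of `range (ε a')`, `c₁` the last component of `c`, `c₀ = out ∘ c`. `gb n (ε (st a)) (c (e q)) = inn (c₀ (e q)) + las (ε (st a) (c₁ (e q)))`, and `e q = ε a' (e q)`,
`ε (st a) c₁ ε a' = t • u (st a) v a' = 0`: `r (st a) = st a` (`rst`), `u (st a) = u (st a) ε (st a)` (`ue`), `v a' = ε a' v a'` (`ev`), `orth`. So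
`map (gb ..) w = ιMulti (inn (c₀ (e q))) = map inn (ιMulti (c₀ (e q)))` (`ExteriorAlgebra.map_apply_ιMulti`). -/
def STopG : Prop :=
  ∀ (K V : Type) [Field K] [CharZero K] [AddCommGroup V] [Module K V] [FiniteDimensional K V]
    (ψ : LinearMap.BilinForm K V) (C : Subalgebra K (Module.End K V)) (N : ℕ)
    (st : Fin N → Fin N) (ε : Fin N → Module.End K V) (r : Fin N → Fin N)
    (u v : Fin N → Module.End K V) (_ : Dat ψ C N st ε r u v) (a a' : Fin N), r a = a →
    r a' = a' → a' ≠ st a → ∀ n : ℕ, ∀ w ∈ Tops C (ε a') (n + 1),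
      ∃ w₀ ∈ Tops C (ε a') n, ExteriorAlgebra.map (gb n (ε (st a))) w =
        ExteriorAlgebra.map (inn K V n) w₀

/-- **The power of a sum of squares of vectors.**
Proof. The elements `A i = ι (a i) * ι (b i)` commute with each other and `A i * A i = 0`. So `(∑ A i)^d = d! • ∏ A i` (induction on a finite set `s`: `(∑ s)^(card s) = (card s)! • ∏ s` and
`(∑ s)^(card s + 1) = 0`; with `Commute.add_pow` and `A² = 0`: `(S + A)^m = S^m + m S^(m-1) A`). And `∏ (ι (a i) * ι (b i)) = ± ιMulti a * ιMulti b` with a sign which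
depends only on `d` (induction on `d`: `List.ofFn`, moving `ι (a d)` to the left over `d` factors `ι (b i)`). -/
def SPow : Prop :=
  ∀ (K W : Type) [Field K] [AddCommGroup W] [Module K W] (d : ℕ), ∃ s : K, ∀ a b : Fin d → W,
    (∑ i, ExteriorAlgebra.ι K (a i) * ExteriorAlgebra.ι K (b i)) ^ d =
      s • (ExteriorAlgebra.ιMulti K d a * ExteriorAlgebra.ιMulti K d b)

/-- **Polarization.**
Proof. `d! ∏ T (θ i) = ∑_(s ⊆ Fin d) (-1)^(d - card s) (∑_(i ∈ s) T (θ i))^d`, and `∑_(i ∈ s) T (θ i) = T (∑_(i ∈ s) θ i)`. The identity holds in commutative rings; apply it in the subalgebra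
generated by the range of `T`, which is commutative (`Algebra.adjoinCommRingOfComm`). Another proof: by induction on `d`, for all `x, y`: the products `T x ^ i * T y ^ (d - i)` are in the
span of the `(T (x + t y))^d` (Vandermonde). -/
def SPolar : Prop :=
  ∀ (K A M : Type) [Field K] [CharZero K] [Ring A] [Algebra K A] [AddCommGroup M] [Module K M]
    (T : M →ₗ[K] A), (∀ x y, T x * T y = T y * T x) → ∀ (d : ℕ) (θ : Fin d → M),
      (List.ofFn fun i => T (θ i)).prod ∈ Submodule.span K (Set.range fun x => T x ^ d)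

/-- **The component of degree `D` in the last copy.**
Proof. `Th n d e f c` is central (sums of products of two vectors). Let `W_q` be the span of the `map inn t * ∏_(i < q) Th (θ i)`, `t ∈ B`. `W_p * W_q ≤ W_(p + q)` (central), the generators
are in `W_0`, `W_1`, so `w = ∑_(q < Q) w_q` with `w_q ∈ W_q` (`Algebra.adjoin_induction`). `map (gb n (s • 1))` is an algebra homomorphism, the identity on `map inn t` (`gb_inn`) and it multiplies
`Th` by `s` (`gb_las`), so it acts on `W_q` by `s^q`. So `∑ s^q • w_q = s^D • w` for all `s ∈ K`, an infinite field; comparing coefficients (apply functionals and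
polynomials with infinitely many zeros) `w = w_D` if `D < Q`, and `w = 0` otherwise. -/
def SGrad : Prop :=
  ∀ (K V : Type) [Field K] [CharZero K] [AddCommGroup V] [Module K V] [FiniteDimensional K V]
    (C : Subalgebra K (Module.End K V)) (n d D : ℕ) (e f : Fin d → V)
    (B : Subalgebra K (ExteriorAlgebra K (Fin n → V)))
    (w : ExteriorAlgebra K (Fin (n + 1) → V)),
    w ∈ Algebra.adjoin K ({x | ∃ t ∈ B, x = ExteriorAlgebra.map (inn K V n) t} ∪
      {x | ∃ c : V →ₗ[K] (Fin n → V), (∀ i, (LinearMap.proj i ∘ₗ c : Module.End K V) ∈ C) ∧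
        x = Th n d e f c}) →
    (∀ s : K, ExteriorAlgebra.map (gb n (s • (1 : Module.End K V))) w = s ^ D • w) →
      w ∈ Submodule.span K {x | ∃ t ∈ B, ∃ θ : Fin D → (V →ₗ[K] (Fin n → V)),
        (∀ j i, (LinearMap.proj i ∘ₗ θ j : Module.End K V) ∈ C) ∧
        x = ExteriorAlgebra.map (inn K V n) t * (List.ofFn fun j => Th n d e f (θ j)).prod}

/-- **Multiplication by the top form of the last copy is injective.**
Proof. Induction on `d`. Let `φ` be a functional on `V` with `φ (f (last)) = 1`, `φ (f i) = 0` for the other `i`, and `φ'` its composition with the projection to the last copy. Contraction with `φ'`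
(`CliffordAlgebra.contractLeft`, or `contractRight`; an antiderivation, `contractLeft_ι_mul`, `contractLeft_mul..`) kills `map inn y`, and maps `map inn y * ιMulti (las f)` to
`± map inn y' * ιMulti (las f')`, `f'` the first `d - 1` vectors, `y'` the image of `y` under the grade involution (with `contractRight`: no sign, `y' = y`). For `d = 0`:
`map inn y = 0` gives `y = map out (map inn y) = 0`. -/
def SInj : Prop :=
  ∀ (K V : Type) [Field K] [AddCommGroup V] [Module K V] [FiniteDimensional K V] (n d : ℕ)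
    (f : Fin d → V), LinearIndependent K f → ∀ y : ExteriorAlgebra K (Fin n → V),
      ExteriorAlgebra.map (inn K V n) y *
        ExteriorAlgebra.ιMulti K d (fun i => las K V n (f i)) = 0 → y = 0

/-- **Extraction** (from `SFft2`, `STwoG`, `STopG`, `SPow`, `SPolar`, `SGrad`, `SInj`).
Proof. Let `g = map (gb n (ε (st a)))`, `τ = ιMulti (las f)`, `z = map inn y * τ`. `g z = z` (`gb_inn`, `gb_las`, `qf`). `g` maps the generators of `NN (n + 1)` (for the elements killed by the
Lefschetz Lie algebra: those of degree two, by `SFft2`) into the algebra generated by `map inn t`, `t ∈ B = NN n`, and the `Th c` with `c` with components in `C`, by `STwoG`, `STopG`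
(`a' ∈ S` is not `st a`). So `z = g z` is in this algebra. `map (gb n (s • 1)) z = s^d • z` (`gb_las`, `ιMulti` is multilinear: `MultilinearMap.map_smul_univ`), so by `SGrad` (`D = d`) `z` is in the
span of the `map inn t * ∏_(i < d) Th (θ i)`; by `SPolar` (`T` = `Th` restricted to the submodule of the `c` with components in `C`; it is linear) in the span of the
`map inn t * (Th c)^d`, and by `SPow` `(Th c)^d = s • (ιMulti (inn (c (e i))) * τ) = s • (map inn (ιMulti (c (e i))) * τ)` with `ιMulti (c (e i)) ∈ Tops (ε a) n ⊆ B`. So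
`z = map inn t * τ` with `t ∈ B`, and `y = t` by `SInj`. -/
def SExtr : Prop :=
  ∀ (K V : Type) [Field K] [CharZero K] [AddCommGroup V] [Module K V] [FiniteDimensional K V]
    (ψ : LinearMap.BilinForm K V) (C : Subalgebra K (Module.End K V)) (N : ℕ)
    (st : Fin N → Fin N) (ε : Fin N → Module.End K V) (r : Fin N → Fin N)
    (u v : Fin N → Module.End K V) (_ : Dat ψ C N st ε r u v) (S : Set (Fin N)),
    (∀ s ∈ S, r s = s) → ∀ a ∈ S, st a ≠ a → st a ∉ S → ∀ (d : ℕ) (e f : Fin d → V),
    DB ψ (ε a) (ε (st a)) d e f → LinearIndependent K e →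
    Submodule.span K (Set.range e) = LinearMap.range (ε a) → LinearIndependent K f →
    ∀ (n : ℕ) (y : ExteriorAlgebra K (Fin n → V)),
      ExteriorAlgebra.map (inn K V n) y *
        ExteriorAlgebra.ιMulti K d (fun i => las K V n (f i)) ∈ NN ψ C ε S (n + 1) →
      y ∈ NN ψ C ε S n

/-- **Weight vectors are in the algebra** (from `SDvTop`, `SHh`, `SCenL`, `SDB`, `SExtr`).
Proof. Induction on `∑ a with r a = a, (κ a).toNat`, for all `n`, `y`, `κ`. We may assume `y ≠ 0`. `hh (st a) = - hh a` and `rk (ε (st a)) = rk (ε a) ≠ 0`, so `κ (st a) = - κ a` for `r a = a` (and `r (st a) = st a`, `rst`). If the sum is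
`0` then `κ a ≤ 0`, and so `κ a = 0`, for all `a` with `r a = a`; `hh a = 0` if `r a ≠ a` (empty sums); so all `hh a` kill `y`, and `SCenL` shows `KL y` (`X - ∑ t a • hh a` is in the
Lefschetz Lie algebra with trace zero on the blocks), so `y ∈ NN`. Otherwise let `a` be with `r a = a`, `κ a > 0`; `a ∈ S`, `b = st a ∉ S`, so `b ≠ a`. `e`, `f` from `SDB` for `a`, `τ = ιMulti (las f)`,
`y' = map inn y * τ`. For `X` in the Lefschetz Lie algebra `X (f q) = X ε b (f q) = ε b X (f q) = ∑ p, ψ (e p) (X (f q)) • f p` (`exq`), so by `SDvTop` (with `compLeft_las`) `Dv X τ = (∑ q, ψ (e q) (X (f q))) • τ =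
tr (ε b X) • τ` (`ε b X = ∑ ψ (e i) (X ·) • f i`, the trace of a sum of operators of rank one). So `KP y'` (`Dv_mul`, `Dv_inn`). `ε b hh a' = ([b = a'] - [b = st a']) ε b` for `r a' = a'` (`r b = b`), so
`Dv (hh a') y' = (κ a' rk (ε a') + rk (ε b) ([a' = b] - [a' = a])) • y'`: the weights of `y'` are `κ' = κ` except `κ' a = κ a - 1`, `κ' b = κ b + 1 = 1 - κ a ≤ 0`. By induction
`y' ∈ NN S (n + 1)`, and `SExtr` gives `y ∈ NN S n`. -/
def SInd : Prop :=
  ∀ (K V : Type) [Field K] [CharZero K] [AddCommGroup V] [Module K V] [FiniteDimensional K V]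
    (ψ : LinearMap.BilinForm K V) (C : Subalgebra K (Module.End K V)) (N : ℕ)
    (st : Fin N → Fin N) (ε : Fin N → Module.End K V) (r : Fin N → Fin N)
    (u v : Fin N → Module.End K V) (_ : Dat ψ C N st ε r u v) (S : Set (Fin N)),
    (∀ s ∈ S, r s = s) → (∀ s ∈ S, st s ∉ S) → ∀ (n : ℕ) (y : ExteriorAlgebra K (Fin n → V)),
    KP ψ C ε n y → ∀ κ : Fin N → ℤ,
    (∀ a, r a = a → Dv n (hh ε r st a) y = (((κ a * (rk (ε a) : ℤ) : ℤ)) : K) • y) →
    (∀ a, r a = a → 0 < κ a → a ∈ S) → y ∈ NN ψ C ε S n

/-- **The structure theorem, algebraic form** (from `SWts`, `SDiv`, `SHh`, `SCenL`, `SInd`).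
Proof. By `SWts` we may assume that `x = y` is a weight vector, not zero, with weights `κ' a`; `SDiv` gives integers `κ a` (for `r a = a`; put `κ a = 0` for the others) with `κ' a = κ a rk (ε a)`,
`|κ a| rk (ε a) ≤ m`. `S = {a | r a = a, 0 < κ a}`; `st a ≠ a` for `a ∈ S` (otherwise `hh a = 0`), `st a ∉ S` (`hh (st a) = - hh a`). `SInd`, `NN_mono`. For the second claim: all `κ a = 0` for
`r a = a` (also if `st a = a`: `hh a = 0`), so all `hh a` kill `y` and `SCenL` gives `KL y` as in `SInd`; for `x` itself by linearity. -/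
def SCoreW : Prop :=
  ∀ (K V : Type) [Field K] [CharZero K] [AddCommGroup V] [Module K V] [FiniteDimensional K V]
    (ψ : LinearMap.BilinForm K V) (C : Subalgebra K (Module.End K V)) (N : ℕ)
    (st : Fin N → Fin N) (ε : Fin N → Module.End K V) (r : Fin N → Fin N)
    (u v : Fin N → Module.End K V) (_ : Dat ψ C N st ε r u v) (n m : ℕ),
    ∀ x ∈ ⋀[K]^m (Fin n → V), KP ψ C ε n x →
      x ∈ NN ψ C ε {a | r a = a ∧ st a ≠ a} n ∧
        ((∀ a, r a = a → st a ≠ a → m < rk (ε a)) → KL ψ C n x)

end Pool.Agent.Lib.MP_640417_ag.Ws
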