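import Pool.Agent.Lib.MP_640417_ag.Ws.Spec
import Pool.Agent.Lib.MP_640417_ag.Ws.DefsW
import Pool.Agent.Lib.MP_640417_ag.Tg.DefsX
import Pool.Agent.Lib.MP_640417_ag.Tg.SysK
import Pool.Agent.Lib.MP_640417_ag.Gen4.Cor

/-!
# The structure of the Tate classes: statements of the modules (representations), with proofs

As in `Ws/Spec.lean`. `cenK`: `Lef/Defs.lean`; `res`, `exists_U0`: `Ty/Res.lean`; `Cc`: `Tg/SpecR.lean`; `LieK`, `Tangent`: `Tor/DefsL.lean`;
`be`: `Four/Descent.lean`; `tate_span`: `Dfr/Base.lean`; `CentralSkew`, `Lefschetz`: `Ctl/Defs.lean`; `LefCond`: `Gen4/Main.lean`.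
-/

set_option autoImplicit false

namespace Pool.Agent.Lib.MP_640417_ag.Ws

open Module TensorProduct Pool.Agent.Lib.MP_640417_ag Pool.Agent.Lib.MP_640417_ag.Frob
  Pool.Agent.Lib.MP_640417_ag.Tor Pool.Agent.Lib.MP_640417_ag.Tg
  Pool.Agent.Lib.MP_640417_ag.Lef Pool.Agent.Lib.MP_640417_ag.Dfr
  Pool.Agent.Lib.MP_640417_ag.Ty Pool.Agent.Lib.MP_640417_ag.Ctl
  Pool.Agent.Lib.MP_640417_ag.Gen4

open Pool.Agent.Lib.MP_640417_ag.Four (Dv IsDer isDer_Dv be Semisimple)

/-- The data over `K`: `U` is the subgroup of all `γ` which commute with the commutant, `cenK K (res ρ U).T` is the commutant over `K`. -/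
structure DK {Γ : Type} [Group Γ] [TopologicalSpace Γ] {V : Type} [AddCommGroup V] (l : ℕ)
    [Fact l.Prime] [Module ℚ_[l] V] (ρ : H1Rep Γ ℚ_[l] V) (U : OpenSubgroup Γ) (K : Type)
    [Field K] [Algebra ℚ_[l] K] (N : ℕ) (st : Fin N → Fin N)
    (ε : Fin N → Module.End K (K ⊗[ℚ_[l]] V)) (r : Fin N → Fin N)
    (u v : Fin N → Module.End K (K ⊗[ℚ_[l]] V)) : Prop where
  hU : ∀ γ, γ ∈ U ↔ ∀ c, CommF ρ c → c * ρ.T γ = ρ.T γ * c
  cc : Cc (ρ.form.baseChange K) (LieK l ρ K) (cenK K (res ρ U).T)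
  dat : Dat (ρ.form.baseChange K) (cenK K (res ρ U).T) N st ε r u v

/-- **The data exist** (uses `pCcL` from `Tg/CcL.lean`; compare the proof of `pLefX`, `Tg/LefX.lean`).
Proof. `U` from `exists_U0`, `Cc` from `pCcL`, `Sys` from `exists_sys`, `UV` from `exists_uv`. `bic`: let `c` commute with all skew `X` which commute with the
commutant. Let `X ∈ LieK` with multiplier `m`; `X - (m / 2) • 1` is skew and commutes with the commutant (`Cc.com`), so `c` commutes with it and with `X`;
`Cc.bic`. -/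
def SDatK : Prop :=
  ∀ (l : ℕ) [Fact l.Prime] (Γ : Type) [Group Γ] [TopologicalSpace Γ] [IsTopologicalGroup Γ]
    [CompactSpace Γ] (V : Type) [AddCommGroup V] [Module ℚ_[l] V] [FiniteDimensional ℚ_[l] V]
    (ρ : H1Rep Γ ℚ_[l] V) (_ : Semisimple ρ) (K : Type) [Field K]
    [Algebra ℚ_[l] K] [IsAlgClosed K] (_ : HasSysK l ρ K),
    ∃ (U : OpenSubgroup Γ) (N : ℕ) (st : Fin N → Fin N)
      (ε : Fin N → Module.End K (K ⊗[ℚ_[l]] V)) (r : Fin N → Fin N)
      (u v : Fin N → Module.End K (K ⊗[ℚ_[l]] V)), DK l ρ U K N st ε r u v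

/-- **The Lie algebra of the image kills all Tate classes.**
Proof. By `tate_span` `w` is in the `K`-span of the `be K n x`, `x` a Tate class over `ℚ_[l]`; let `w = be K n x`. `X + s • 1 ∈ LieK` for a scalar `s`. For a basis `b` of `K` over
`ℚ_[l]`: `X = ∑ t, b t • (X_t).baseChange K`, `X_t = cp (b.coord t) X` (`sum_cp` in `Four/Span.lean`). `X_t` is skew (`form_cp`, see the proof of `skew_K`, `Lef/SkewL.lean`), and `X_t + s_t • 1` is in the
span of `Tangent l ρ` for some `s_t` (`DescT_cp` in `Tg/DescT.lean`, applied to `X + s • 1`). With `R`, `e` from `exists_coord` (`Glob/Coord.lean`): the matrix of `X_t` is in `Hh R l` (see the end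
of the proof of `pDescT`, `Tg/DescT.lean`: `coord_skew`, `CoordT_tan`), so `Dv n X_t x = 0` by `coord_dv` (`Ctl/CoordD.lean`) and `hh_tate` (`Ctl/Tang.lean`), compare `der_F` in
`Dfr/Der.lean`. `Dv_be` (`Lef/SkewL.lean`), `Dv_sum`, `Dv_smul`. -/
def STateK : Prop :=
  ∀ (l : ℕ) [Fact l.Prime] (Γ : Type) [Group Γ] [TopologicalSpace Γ] [IsTopologicalGroup Γ]
    [CompactSpace Γ] (V : Type) [AddCommGroup V] [Module ℚ_[l] V] [FiniteDimensional ℚ_[l] V]
    (ρ : H1Rep Γ ℚ_[l] V) (K : Type) [Field K] [Algebra ℚ_[l] K] (n i : ℕ)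
    (w : ExteriorAlgebra K (Fin n → K ⊗[ℚ_[l]] V)), TateK l ρ K n i w →
    ∀ X ∈ skp (ρ.form.baseChange K) (LieK l ρ K), Dv n X w = 0

/-- **What the Lefschetz Lie algebra kills is in the divisor algebra** (from `SFft2`).
Proof. By `SFft2` let `w ∈ ⋀²` with `KL w`. `fft_K` (`Lef/FftK.lean`) for the group `U`, `T γ = (ρ.T γ).baseChange K` (as in `TK`, `Lef/Main.lean`, but with the field `K`),
`χ γ = Units.map (algebraMap) (ρ.χ γ)`, `C = cenK K (res ρ U).T` (its elements commute with the `T γ` by definition), `m = 2`: `w` is in the `divisorAlg` for `U`, i.e. in the algebra generated by the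
Tate classes of codimension one for `U` over `K`; these are Tate classes for `Γ` (an open subgroup of `U` is an open subgroup of `Γ`, compare `Gn.tate_resG`, `Gn/ResG.lean`). The
equivariance of the form: `equivariant_baseChange` (see `formK_eq` in `Lef/Main.lean`). -/
def SKLdiv : Prop :=
  ∀ (l : ℕ) [Fact l.Prime] (Γ : Type) [Group Γ] [TopologicalSpace Γ] [IsTopologicalGroup Γ]
    [CompactSpace Γ] (V : Type) [AddCommGroup V] [Module ℚ_[l] V] [FiniteDimensional ℚ_[l] V]
    (ρ : H1Rep Γ ℚ_[l] V) (U : OpenSubgroup Γ) (K : Type) [Field K] [Algebra ℚ_[l] K]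
    (N : ℕ) (st : Fin N → Fin N) (ε : Fin N → Module.End K (K ⊗[ℚ_[l]] V)) (r : Fin N → Fin N)
    (u v : Fin N → Module.End K (K ⊗[ℚ_[l]] V)) (_ : DK l ρ U K N st ε r u v) (n : ℕ)
    (w : ExteriorAlgebra K (Fin n → K ⊗[ℚ_[l]] V)),
    KL (ρ.form.baseChange K) (cenK K (res ρ U).T) n w →
      w ∈ Algebra.adjoin K {z | TateK l ρ K n 1 z}

/-- **Divisor classes are killed by the Lefschetz Lie algebra.**
Proof. `z` is a `K`-combination of `be K n x`, `x` a Tate class of codimension one (`tate_span`). Let `X` be in the Lefschetz Lie algebra over `K`. As in `STateK`: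
`X = ∑ t, b t • (X_t).baseChange K`; `X_t` commutes with every `c` with `CommF ρ c` and is skew (see `skew_K`), i.e. `Lefschetz ρ X_t`; `Dv n X_t x = 0` by `div_killed` (`Gen4/DivK.lean`). -/
def SDivKL : Prop :=
  ∀ (l : ℕ) [Fact l.Prime] (Γ : Type) [Group Γ] [TopologicalSpace Γ] [IsTopologicalGroup Γ]
    [CompactSpace Γ] (V : Type) [AddCommGroup V] [Module ℚ_[l] V] [FiniteDimensional ℚ_[l] V]
    (ρ : H1Rep Γ ℚ_[l] V) (U : OpenSubgroup Γ) (K : Type) [Field K] [Algebra ℚ_[l] K]
    (N : ℕ) (st : Fin N → Fin N) (ε : Fin N → Module.End K (K ⊗[ℚ_[l]] V)) (r : Fin N → Fin N)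
    (u v : Fin N → Module.End K (K ⊗[ℚ_[l]] V)) (_ : DK l ρ U K N st ε r u v) (n : ℕ)
    (z : ExteriorAlgebra K (Fin n → K ⊗[ℚ_[l]] V)), TateK l ρ K n 1 z →
    KL (ρ.form.baseChange K) (cenK K (res ρ U).T) n z

/-- **Top forms of type `a` are top forms of irreducible submodules.**
Proof. `w = ιMulti (c (e q))`. The kernel of `c` in `range (ε a)` is `L`-stable (the components of `c` commute with `L`), so `c` is zero or injective on `range (ε a)` (`pIrrE`, `Tg/IrrE.lean`). If zero: `w = 0` since `ε a ≠ 0`,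
so `d > 0`. Otherwise `u = c ∘ e` is linearly independent (`e` is), its span is `c (range (ε a))`, not zero, stable under `diag n L` (span of the `X.compLeft`, which satisfy
`X.compLeft (c x) = c (X x)`), and a stable subspace of it is `c (W')` with `W'` the preimage in `range (ε a)`, which is `L`-stable. -/
def STopF : Prop :=
  ∀ (K V : Type) [Field K] [CharZero K] [AddCommGroup V] [Module K V] [FiniteDimensional K V]
    (ψ : LinearMap.BilinForm K V) (L : Submodule K (Module.End K V))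
    (C : Subalgebra K (Module.End K V)) (_ : Cc ψ L C) (N : ℕ) (st : Fin N → Fin N)
    (ε : Fin N → Module.End K V) (_ : Sys ψ C N st ε) (a : Fin N) (n : ℕ),
    ∀ w ∈ Tops C (ε a) n, w = 0 ∨ TopForm L n w

/-- **Top forms of irreducible submodules are top forms of type `a`.**
Proof. Let `W' = span (range u)`, irreducible under `diag n L`. `W' ≠ 0`, so some component `proj i` does not vanish on `W'`, and some `ε j ∘ proj i` does not (`Sys.sum`), so `g = v j ∘ proj i` does not
(`u j v j = ε j`). Let `a = r j`; `g : Vⁿ → V` has values in `range (ε a)` (`ev`), `g (X.compLeft y) = X (g y)` for `X ∈ L`. The kernel of `g` in `W'` is stable, so `g` is injective on `W'`; `g (W')` is `L`-stable, not zero,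
so it is `range (ε a)` (`pIrrE`). Let `c : V → Vⁿ` be `ε a` followed by the inverse `range (ε a) ≃ W'`; `c (X x) = X.compLeft (c x)` for `X ∈ L` (apply `g`), so the components of `c` commute with `L` and are
in `C` (`Cc.bic`). `e q = g (u q)` is a basis of `range (ε a)` and `c (e q) = u q`. -/
def STopB : Prop :=
  ∀ (K V : Type) [Field K] [CharZero K] [AddCommGroup V] [Module K V] [FiniteDimensional K V]
    (ψ : LinearMap.BilinForm K V) (L : Submodule K (Module.End K V))
    (C : Subalgebra K (Module.End K V)) (_ : Cc ψ L C) (N : ℕ) (st : Fin N → Fin N)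
    (ε : Fin N → Module.End K V) (_ : Sys ψ C N st ε) (r : Fin N → Fin N)
    (u v : Fin N → Module.End K V) (_ : UV ψ C N st ε r u v) (n : ℕ)
    (w : ExteriorAlgebra K (Fin n → V)), TopForm L n w → ∃ a, r a = a ∧ w ∈ Tops C (ε a) n

/-- **Top forms are killed by the elements with trace zero on the blocks** (from `SDvTop`).
Proof. `w = ιMulti (c (e q))`, `X` in the Lefschetz Lie algebra with `tr (ε a X) = 0`. `X (e q) = X ε a (e q) = ε a X (e q) = ∑ p, M p q • e p` for a matrix `M` (`e` is a basis of `range (ε a)`), and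
`X.compLeft (c (e q)) = c (X (e q)) = ∑ p, M p q • c (e p)` (the components of `c` are in `C`). The trace of `M` is `tr (ε a X) = 0` (the operator `ε a X` has image in `range (ε a)`; its trace is that of
its restriction to `range (ε a)`, `LinearMap.trace_restrict_eq_of_forall_mem` or similar, `Tor/*.lean` may have it). `SDvTop`. -/
def STopP : Prop :=
  ∀ (K V : Type) [Field K] [CharZero K] [AddCommGroup V] [Module K V] [FiniteDimensional K V]
    (ψ : LinearMap.BilinForm K V) (C : Subalgebra K (Module.End K V)) (N : ℕ)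
    (st : Fin N → Fin N) (ε : Fin N → Module.End K V) (r : Fin N → Fin N)
    (u v : Fin N → Module.End K V) (_ : Dat ψ C N st ε r u v) (a : Fin N) (n : ℕ),
    ∀ w ∈ Tops C (ε a) n, KP ψ C ε n w

/-- **Top forms are eigenvectors of the group, and homogeneous.**
Proof. `w = ιMulti (c (e q))`. `ε a ∈ C` commutes with `T γ`, `γ ∈ U`, so `T γ (e q) = ∑ p, M p q • e p`, and `map (T γ.compLeft) w = ιMulti (c (T γ (e q))) = det M • w`
(`ExteriorAlgebra.map_apply_ιMulti`, `AlternatingMap.map_linearDependent..`; e.g. `AlternatingMap` composed with a linear map: write `ιMulti (c (T γ e)) = det • ιMulti (c e)` with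
`AlternatingMap.map_basis..`/`LinearMap.det` of the restriction, or the lemma `AlternatingMap.map_matrix..`: for an alternating map `f` on `Fin d`: `f (fun q => ∑ p, M p q • w p) = M.det • f w`, see
`MultilinearMap.map_sum`, `Matrix.det_apply`). `ιMulti K d _ ∈ ⋀^d` (`ExteriorAlgebra.ιMulti_range`). -/
def STopE : Prop :=
  ∀ (l : ℕ) [Fact l.Prime] (Γ : Type) [Group Γ] [TopologicalSpace Γ] [IsTopologicalGroup Γ]
    [CompactSpace Γ] (V : Type) [AddCommGroup V] [Module ℚ_[l] V] [FiniteDimensional ℚ_[l] V]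
    (ρ : H1Rep Γ ℚ_[l] V) (U : OpenSubgroup Γ) (K : Type) [Field K] [Algebra ℚ_[l] K]
    (N : ℕ) (st : Fin N → Fin N) (ε : Fin N → Module.End K (K ⊗[ℚ_[l]] V)) (r : Fin N → Fin N)
    (u v : Fin N → Module.End K (K ⊗[ℚ_[l]] V)) (_ : DK l ρ U K N st ε r u v) (n : ℕ)
    (a : Fin N), ∀ w ∈ Tops (cenK K (res ρ U).T) (ε a) n,
      (∃ m : ℕ, w ∈ ⋀[K]^m (Fin n → K ⊗[ℚ_[l]] V)) ∧ ∃ θ : Γ → K, ∀ γ ∈ U,
        ExteriorAlgebra.map (((ρ.T γ).baseChange K).compLeft (Fin n)) w = θ γ • w

/-- **Joint eigenvectors with the right eigenvalues.**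
Proof. Joint eigenvectors of a family of operators with distinct systems of eigenvalues are linearly independent. Group the terms by their systems of eigenvalues (`j ~ j'` if `η j γ = η j' γ` for all `γ ∈ G`;
the terms with `x j = 0` can be left out): `x = ∑_c y_c` with `y_c` joint eigenvectors with distinct systems `η_c`. `x` is a joint eigenvector with the system `η₀`. So `y_c = 0` for
`η_c ≠ η₀` (linear independence of `x` and the nonzero `y_c`, or: `x - y_(c₀)` is an eigenvector with the system `η₀` and a sum of eigenvectors with other systems). Induction on the number of classes: choose `γ` with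
`η_c γ ≠ η₀ γ` and apply `T γ - η_c γ`. -/
def SEig : Prop :=
  ∀ (K M G : Type) [Field K] [AddCommGroup M] [Module K M] (T : G → Module.End K M)
    (J : Type) (s : Finset J) (x : J → M) (η : J → G → K) (_ : ∀ j ∈ s, ∀ γ, T γ (x j) = η j γ • x j)
    (y : M) (η₀ : G → K) (_ : ∀ γ, T γ y = η₀ γ • y), y = ∑ j ∈ s, x j →
    y ∈ Submodule.span K {z | ∃ j ∈ s, (∀ γ, η j γ = η₀ γ) ∧ z = x j}

/-- **Tate classes in the algebra generated by divisor classes and top forms** (from `STopF`, `STopE`, `SEig`, `SKLdiv`).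
Proof. `NN` is generated by the algebra of the `z` with `KL z`, which is contained in the algebra generated by the `z` with `TateK l ρ K n 1 z` (`SKLdiv`), and by top forms (`STopF`; zero can be left out), eigenvectors
of `U` (`STopE`), homogeneous. So `w = ∑ x j` (a finite sum; `Algebra.adjoin_eq_span`, products in the monoid closure), each `x j = D j * t j` with `D j` a product of `k j` classes of codimension one (central elements: they have
degree two) and a scalar, `t j` in the monoid generated by the top forms (`TopForm`), homogeneous of some degree. `w ∈ ⋀^(2 i)`; projecting to degree `2 i` we may assume that all `x j` with `x j ≠ 0` have degree `2 i` (leave out the others), so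
`t j ∈ ⋀^(2 (i - k j))`, `k j ≤ i`. Let `G` be an open subgroup contained in `U` and in all open subgroups which occur in the finitely many classes of codimension one and in `TateK w`. For `γ ∈ G`, with `χ' = algebraMap (χ γ)`:
`map γ` multiplies `D j` by `χ' ^ (- k j)`, `w` by `χ' ^ (- i)`, and `t j` by some `θ j γ`. `SEig` for `G`: `w` is in the span of the `x j` with `χ' ^ (- k j) θ j γ = χ' ^ (- i)` for all `γ ∈ G`, i.e. `TateK (i - k j) (t j)`, so
`t j` is a `WeilClass`. -/
def SWeil : Prop :=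
  ∀ (l : ℕ) [Fact l.Prime] (Γ : Type) [Group Γ] [TopologicalSpace Γ] [IsTopologicalGroup Γ]
    [CompactSpace Γ] (V : Type) [AddCommGroup V] [Module ℚ_[l] V] [FiniteDimensional ℚ_[l] V]
    (ρ : H1Rep Γ ℚ_[l] V) (U : OpenSubgroup Γ) (K : Type) [Field K] [Algebra ℚ_[l] K]
    (N : ℕ) (st : Fin N → Fin N) (ε : Fin N → Module.End K (K ⊗[ℚ_[l]] V)) (r : Fin N → Fin N)
    (u v : Fin N → Module.End K (K ⊗[ℚ_[l]] V)) (_ : DK l ρ U K N st ε r u v) (n i : ℕ)
    (S : Set (Fin N)) (w : ExteriorAlgebra K (Fin n → K ⊗[ℚ_[l]] V)), TateK l ρ K n i w →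
    w ∈ NN (ρ.form.baseChange K) (cenK K (res ρ U).T) ε S n →
      w ∈ Algebra.adjoin K ({z | TateK l ρ K n 1 z} ∪ {z | WeilClass l ρ K n z})

/-- **The derived algebra kills all Tate classes** (from `STateK`; uses `Tg.pFullX` with its hypotheses, see `lefX` in `Tg/MainX.lean`: `pFullX pIrrE pDualE (pTwistE pIrrE pDualE) allX`).
Proof. If `X` is in the Lefschetz Lie algebra and has trace zero on the blocks then `X ∈ skp ψ L` by `SFullX`; `STateK`. -/
def SKPK : Prop :=
  ∀ (l : ℕ) [Fact l.Prime] (Γ : Type) [Group Γ] [TopologicalSpace Γ] [IsTopologicalGroup Γ]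
    [CompactSpace Γ] (V : Type) [AddCommGroup V] [Module ℚ_[l] V] [FiniteDimensional ℚ_[l] V]
    (ρ : H1Rep Γ ℚ_[l] V) (U : OpenSubgroup Γ) (K : Type) [Field K] [Algebra ℚ_[l] K]
    [IsAlgClosed K] (N : ℕ) (st : Fin N → Fin N) (ε : Fin N → Module.End K (K ⊗[ℚ_[l]] V))
    (r : Fin N → Fin N) (u v : Fin N → Module.End K (K ⊗[ℚ_[l]] V))
    (_ : DK l ρ U K N st ε r u v) (_ : ConstH (ρ.form.baseChange K) (LieK l ρ K))
    (_ : NoTwist (ρ.form.baseChange K) (LieK l ρ K)) (n i : ℕ)
    (w : ExteriorAlgebra K (Fin n → K ⊗[ℚ_[l]] V)), TateK l ρ K n i w →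
    KP (ρ.form.baseChange K) (cenK K (res ρ U).T) ε n w

/-- **Central elements over `K`.**
Proof. `z` is central in `C = cenK K (res ρ U).T` and skew: `z = ∑ t, b t • (z_t).baseChange K`, `z_t = cp (b.coord t) z`, `CentralSkew ρ z_t` (see the proof of `pNtK`, `Tg/NtK.lean`, and of `pDescT`). `w = be K n x`: `Dv_be`, `Dv_sum`,
`Dv_smul`. -/
def SCenK : Prop :=
  ∀ (l : ℕ) [Fact l.Prime] (Γ : Type) [Group Γ] [TopologicalSpace Γ] [IsTopologicalGroup Γ]
    [CompactSpace Γ] (V : Type) [AddCommGroup V] [Module ℚ_[l] V] [FiniteDimensional ℚ_[l] V]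
    (ρ : H1Rep Γ ℚ_[l] V) (U : OpenSubgroup Γ)
    (_ : ∀ γ, γ ∈ U ↔ ∀ c, CommF ρ c → c * ρ.T γ = ρ.T γ * c) (K : Type) [Field K]
    [Algebra ℚ_[l] K] (n : ℕ) (x : ExteriorAlgebra ℚ_[l] (Fin n → V))
    (_ : ∀ z, CentralSkew ρ z → Dv n z x = 0) (z : Module.End K (K ⊗[ℚ_[l]] V)),
    z ∈ cenK K (res ρ U).T → (∀ c ∈ cenK K (res ρ U).T, z * c = c * z) →
    Skew (ρ.form.baseChange K) z → Dv n z (be K n x) = 0

/-- **Injectivity of the base change of the exterior algebra** (any extension `K`; `be_inj` in `Dfr/BeInj.lean` may be general enough).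
Proof. `Descent_al` is a left inverse up to `x ↦ 1 ⊗ x`, see `Four/Descent.lean`, `Dfr/BeInj.lean`. -/
def SBeInj : Prop :=
  ∀ (l : ℕ) [Fact l.Prime] (V : Type) [AddCommGroup V] [Module ℚ_[l] V]
    [FiniteDimensional ℚ_[l] V] (K : Type) [Field K] [Algebra ℚ_[l] K] (n : ℕ)
    (x : ExteriorAlgebra ℚ_[l] (Fin n → V)), be K n x = 0 → x = 0

/-- **The converse** (from `SDatK`, `SDivKL`, `STopB`, `STopP`, `SCenL`, `SHh`, `SCenK`, `SBeInj`).
Proof. Data from `SDatK`. Let `x` be a Tate class of codimension two on the fourth power, killed by the central skew elements, `X` with `Lefschetz ρ X`. `w = be K 4 x` is `TateK` (`tate_be` in `Four`/`Gen4`, used in `Dfr/Main.lean`: `center_kills`), so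
it is in the algebra generated by the divisor classes and the Weil classes, which are `KP` (`SDivKL` with `KL → KP`; `STopB`, `STopP` and `KPalg` is a subalgebra), so `KP w`. `X_K = X.baseChange K` is in the Lefschetz Lie algebra over `K` (skew: `NilT_base`; commutes with
`C`: `LefT_comm`, see `Tg/LefX.lean`). By `SCenL` `X_K = X' + ∑ t a • hh a` with `X'` of trace zero on the blocks, in the Lefschetz Lie algebra (`SHh`), so `Dv X' w = 0`, and `Dv (hh a) w = 0` by `SCenK` (`hh a ∈ C` (`eC_mem`) is central (`SHh`, applied to elements of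
`C`... `hh a` commutes with `C` since it is in the Lefschetz Lie algebra) and skew). So `be (Dv X x) = Dv X_K w = 0` (`Dv_be`), `SBeInj`. -/
def SGenLef : Prop :=
  ∀ (l : ℕ) [Fact l.Prime] (Γ : Type) [Group Γ] [TopologicalSpace Γ] [IsTopologicalGroup Γ]
    [CompactSpace Γ] (V : Type) [AddCommGroup V] [Module ℚ_[l] V] [FiniteDimensional ℚ_[l] V]
    (ρ : H1Rep Γ ℚ_[l] V) (_ : Semisimple ρ) (K : Type) [Field K]
    [Algebra ℚ_[l] K] [IsAlgClosed K] (_ : HasSysK l ρ K), WeilAt l ρ K 4 2 → LefCond ρ 4 2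

/-- **Low codimension** (from `SDatK`, `SKPK`, `SCoreW`, `SBeInj`).
Proof. Let `x` be a Tate class of codimension `i`, `w = be K n x`, `KP w` (`SKPK`), `w ∈ ⋀^(2 i)` (`be_mem`). For `r a = a`, `st a ≠ a`: `range (ε a)` is irreducible (`pIrrE`) and not self-dual (`pDualE` with `j = k = a`), so
`2 i < rk (ε a)`. `SCoreW`: `KL w`. So for `Lefschetz ρ X`: `be (Dv X x) = Dv X_K w = 0`, `Dv X x = 0`, and `Lef.fft` (`Lef/Main.lean`) shows that `x` is in the divisor algebra. -/
def SLow : Prop :=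
  ∀ (l : ℕ) [Fact l.Prime] (Γ : Type) [Group Γ] [TopologicalSpace Γ] [IsTopologicalGroup Γ]
    [CompactSpace Γ] (V : Type) [AddCommGroup V] [Module ℚ_[l] V] [FiniteDimensional ℚ_[l] V]
    (ρ : H1Rep Γ ℚ_[l] V) (_ : Semisimple ρ) (_ : HasSys ρ) (K : Type) [Field K]
    [Algebra ℚ_[l] K] [IsAlgClosed K] (_ : HasSysK l ρ K),
    ConstH (ρ.form.baseChange K) (LieK l ρ K) →
    NoTwist (ρ.form.baseChange K) (LieK l ρ K) → LowOK l ρ K

end Pool.Agent.Lib.MP_640417_ag.Ws
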