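import Pool.Agent.Lib.MP_640417_ag.Ws.Spec
import Pool.Agent.Lib.MP_640417_ag.Ws.Hh

/-!
# The structure of the Tate classes: elements of degree two, projected in the last copy
-/

set_option autoImplicit false

namespace Pool.Agent.Lib.MP_640417_ag.Ws

open Module Pool.Agent.Lib.MP_640417_ag Pool.Agent.Lib.MP_640417_ag.Tor
  Pool.Agent.Lib.MP_640417_ag.Lef Pool.Agent.Lib.MP_640417_ag.Dfr

open Pool.Agent.Lib.MP_640417_ag.Four (Dv IsDer isDer_Dv)

section

variable {K V : Type} [Field K] [AddCommGroup V] [Module K V]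

/-- The mixed element. -/
noncomputable def TwoG_B {n d : ℕ} (f : Fin d → V) (w : Fin d → (Fin n → V)) :
    ExteriorAlgebra K (Fin (n + 1) → V) :=
  ∑ i, ExteriorAlgebra.ι K (inn K V n (w i)) * ExteriorAlgebra.ι K (las K V n (f i))

theorem TwoG_B_add {n d : ℕ} (f : Fin d → V) (w w' : Fin d → (Fin n → V)) :
    TwoG_B (K := K) f (w + w') = TwoG_B f w + TwoG_B f w' := by
  simp only [TwoG_B, Pi.add_apply, map_add, add_mul, Finset.sum_add_distrib]

theorem TwoG_B_smul {n d : ℕ} (f : Fin d → V) (t : K) (w : Fin d → (Fin n → V)) :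
    TwoG_B (K := K) f (t • w) = t • TwoG_B f w := by
  simp only [TwoG_B, Pi.smul_apply, map_smul, smul_mul_assoc, Finset.smul_sum]

theorem TwoG_ι_mul {W : Type} [AddCommGroup W] [Module K W] (x y : W) :
    ExteriorAlgebra.ι K x * ExteriorAlgebra.ι K y =
      -(ExteriorAlgebra.ι K y * ExteriorAlgebra.ι K x) :=
  eq_neg_of_add_eq_zero_left (ExteriorAlgebra.ι_add_mul_swap x y)

/-- The operator `q` on the last copy, zero on the others. -/
def TwoG_Q (n : ℕ) (q : Module.End K V) : Module.End K (Fin (n + 1) → V) :=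
  las K V n ∘ₗ q ∘ₗ LinearMap.proj (Fin.last n)

theorem TwoG_induct {W : Type} [AddCommGroup W] [Module K W]
    (P : ExteriorAlgebra K W → Prop) (_h0 : P 0) (ha : ∀ x y, P x → P y → P (x + y))
    (hm : ∀ x y : W, P (ExteriorAlgebra.ι K x * ExteriorAlgebra.ι K y))
    (z : ExteriorAlgebra K W) (hz : z ∈ ⋀[K]^2 W) : P z := by
  change z ∈ LinearMap.range (ExteriorAlgebra.ι K : W →ₗ[K] ExteriorAlgebra K W) ^ 2 at hz
  rw [pow_two] at hz
  induction hz using Submodule.mul_induction_on' with
  | mem_mul_mem x hx y hy =>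
    obtain ⟨x', rfl⟩ := hx
    obtain ⟨y', rfl⟩ := hy
    exact hm x' y'
  | add x _ y _ hx hy => exact ha x y hx hy

theorem TwoG_poly {ψ : LinearMap.BilinForm K V} {p q : Module.End K V} {d : ℕ} {e f : Fin d → V}
    (hDB : DB ψ p q d e f) (n : ℕ) (z : ExteriorAlgebra K (Fin (n + 1) → V))
    (hz : z ∈ ⋀[K]^2 (Fin (n + 1) → V)) : ∃ w : Fin d → (Fin n → V), ∀ t : K,
    ExteriorAlgebra.map (gb n (t • q)) z =
      ExteriorAlgebra.map (inn K V n) (ExteriorAlgebra.map (out K V n) z) + t • TwoG_B f w +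
        t ^ 2 • ExteriorAlgebra.map (TwoG_Q n q) z := by
  refine TwoG_induct (fun z => ∃ w : Fin d → (Fin n → V), ∀ t : K,
    ExteriorAlgebra.map (gb n (t • q)) z =
      ExteriorAlgebra.map (inn K V n) (ExteriorAlgebra.map (out K V n) z) + t • TwoG_B f w +
        t ^ 2 • ExteriorAlgebra.map (TwoG_Q n q) z) ?_ ?_ ?_ z hz
  · refine ⟨0, fun t => ?_⟩
    have h1 : TwoG_B (K := K) f (0 : Fin d → (Fin n → V)) = 0 := by
      simp [TwoG_B]
    rw [h1, map_zero, map_zero, map_zero, map_zero, smul_zero, smul_zero, add_zero, add_zero]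
  · rintro x y ⟨w, hw⟩ ⟨w', hw'⟩
    refine ⟨w + w', fun t => ?_⟩
    rw [map_add, hw, hw', TwoG_B_add, map_add, map_add, map_add, smul_add, smul_add]
    abel
  · intro x y
    refine ⟨fun i => ψ (e i) (y (Fin.last n)) • out K V n x -
      ψ (e i) (x (Fin.last n)) • out K V n y, fun t => ?_⟩
    have hg : ∀ x : Fin (n + 1) → V, gb n (t • q) x =
        inn K V n (out K V n x) + t • las K V n (q (x (Fin.last n))) := by
      intro x
      rw [gb_apply, LinearMap.smul_apply, map_smul]
    have hQ : ∀ x : Fin (n + 1) → V, TwoG_Q n q x = las K V n (q (x (Fin.last n))) :=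
      fun x => rfl
    have hB : TwoG_B (K := K) f (fun i => ψ (e i) (y (Fin.last n)) • out K V n x -
        ψ (e i) (x (Fin.last n)) • out K V n y) =
        ExteriorAlgebra.ι K (inn K V n (out K V n x)) *
          ExteriorAlgebra.ι K (las K V n (q (y (Fin.last n)))) +
        ExteriorAlgebra.ι K (las K V n (q (x (Fin.last n)))) *
          ExteriorAlgebra.ι K (inn K V n (out K V n y)) := by
      rw [TwoG_ι_mul (las K V n (q (x (Fin.last n)))), hDB.exq (y (Fin.last n)),
        hDB.exq (x (Fin.last n)), TwoG_B]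
      simp only [map_sum, map_smul, map_sub, Finset.mul_sum, mul_smul_comm, sub_mul,
        smul_mul_assoc, Finset.sum_sub_distrib]
      exact sub_eq_add_neg _ _
    rw [map_mul, map_mul, map_mul, map_mul, hB]
    simp only [ExteriorAlgebra.map_apply_ι, hg, hQ, map_add, map_smul, add_mul, mul_add,
      smul_mul_assoc, mul_smul_comm, smul_add, smul_smul]
    rw [pow_two]
    abel

theorem TwoG_unique {ψ : LinearMap.BilinForm K V} {p q : Module.End K V} {d : ℕ} {e f : Fin d → V}
    (hDB : DB ψ p q d e f) (n : ℕ) (y : Fin d → (Fin n → V))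
    (h : TwoG_B (K := K) f y = 0) (j : Fin d) : y j = 0 := by
  classical
  let φ : Module.Dual K (Fin (n + 1) → V) := (ψ (e j)) ∘ₗ LinearMap.proj (Fin.last n)
  have h1 := congrArg (CliffordAlgebra.contractLeft (Q := (0 : QuadraticForm K (Fin (n + 1) → V)))
    φ) h
  rw [TwoG_B, map_sum, map_zero] at h1
  have h2 : ∀ i, CliffordAlgebra.contractLeft (Q := (0 : QuadraticForm K (Fin (n + 1) → V))) φ
      (ExteriorAlgebra.ι K (inn K V n (y i)) * ExteriorAlgebra.ι K (las K V n (f i))) =
      if i = j then - ExteriorAlgebra.ι K (inn K V n (y i)) else 0 := by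
    intro i
    rw [ExteriorAlgebra.ι, CliffordAlgebra.contractLeft_ι_mul, CliffordAlgebra.contractLeft_ι]
    have e1 : φ (inn K V n (y i)) = 0 := by
      change ψ (e j) (inn K V n (y i) (Fin.last n)) = 0
      rw [inn_last, map_zero]
    have e2 : φ (las K V n (f i)) = if i = j then 1 else 0 := by
      change ψ (e j) (las K V n (f i) (Fin.last n)) = _
      rw [las_last, hDB.dual]
      by_cases hij : i = j
      · rw [if_pos hij, if_pos hij.symm]
      · rw [if_neg hij, if_neg (Ne.symm hij)]
    rw [e1, e2, zero_smul]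
    split_ifs
    · rw [map_one, mul_one, zero_sub]
    · rw [map_zero, mul_zero, sub_zero]
  rw [Finset.sum_congr rfl fun i _ => h2 i, Finset.sum_ite_eq' Finset.univ j,
    if_pos (Finset.mem_univ _), neg_eq_zero] at h1
  have h3 : inn K V n (y j) = 0 := (ExteriorAlgebra.ι_eq_zero_iff _).mp h1
  have h4 := out_inn (K := K) n (y j)
  rw [← h4, h3, map_zero]

end

theorem pTwoG : STwoG := by
  intro K V _ _ _ _ _ ψ C N st ε r u v hD a hra hsta d e f hDB n z hz hKL
  obtain ⟨w, hw⟩ := TwoG_poly hDB n z hz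
  have hqC : ε (st a) ∈ C := hD.sys.mem _
  -- the operators which commute with `ε (st a)` kill all parts
  have hX : ∀ X, IsLef ψ C X → ∀ t : K, Dv (n + 1) X (ExteriorAlgebra.map (inn K V n)
      (ExteriorAlgebra.map (out K V n) z)) + t • Dv (n + 1) X (TwoG_B f w) +
        t ^ 2 • Dv (n + 1) X (ExteriorAlgebra.map (TwoG_Q n (ε (st a))) z) = 0 := by
    intro X hXL t
    have h1 : (t • ε (st a)) * X = X * (t • ε (st a)) := by
      rw [smul_mul_assoc, mul_smul_comm, hXL.2 _ hqC]
    have h2 := Dv_gb n h1 z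
    rw [hKL X hXL, map_zero, hw, map_add, map_add, map_smul, map_smul] at h2
    exact h2
  have hX0 : ∀ X, IsLef ψ C X → Dv (n + 1) X (ExteriorAlgebra.map (inn K V n)
      (ExteriorAlgebra.map (out K V n) z)) = 0 := by
    intro X hXL
    have h1 := hX X hXL 0
    rwa [zero_smul, zero_pow two_ne_zero, zero_smul, add_zero, add_zero] at h1
  have h2K : (2 : K) ≠ 0 := two_ne_zero
  have hX1 : ∀ X, IsLef ψ C X → Dv (n + 1) X (TwoG_B (K := K) f w) = 0 := by
    intro X hXL
    have h1 := hX X hXL 1
    have h2 := hX X hXL (-1)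
    rw [hX0 X hXL, zero_add] at h1 h2
    have h3 : (2 : K) • Dv (n + 1) X (TwoG_B (K := K) f w) = 0 := by
      rw [two_smul]
      rw [one_smul, one_pow, one_smul] at h1
      rw [neg_one_smul, neg_one_sq, one_smul] at h2
      have h4 := congrArg₂ (· - ·) h1 h2
      simp only [sub_zero] at h4
      rw [← h4]
      abel
    exact (smul_eq_zero.mp h3).resolve_left h2K
  have hX2 : ∀ X, IsLef ψ C X →
      Dv (n + 1) X (ExteriorAlgebra.map (TwoG_Q n (ε (st a))) z) = 0 := by
    intro X hXL
    have h1 := hX X hXL 1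
    rwa [hX0 X hXL, zero_add, hX1 X hXL, smul_zero, zero_add, one_pow, one_smul] at h1
  -- the part of degree two in the last copy is zero
  have hhq : hh ε r st a * ε (st a) = (-1 : K) • ε (st a) := by
    rw [hh_eps hD.sys, wt, rst_eq hD.uv hra, if_neg hsta, if_pos rfl, zero_sub]
  have hQ2 : ExteriorAlgebra.map (TwoG_Q n (ε (st a))) z = 0 := by
    have h1 : Dv (n + 1) (hh ε r st a) (ExteriorAlgebra.map (TwoG_Q n (ε (st a))) z) =
        (-2 : K) • ExteriorAlgebra.map (TwoG_Q n (ε (st a))) z := by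
      refine TwoG_induct (fun z => Dv (n + 1) (hh ε r st a)
        (ExteriorAlgebra.map (TwoG_Q n (ε (st a))) z) =
        (-2 : K) • ExteriorAlgebra.map (TwoG_Q n (ε (st a))) z) ?_ ?_ ?_ z hz
      · rw [map_zero, map_zero, smul_zero]
      · intro x y hx hy
        rw [map_add, map_add, smul_add, hx, hy]
      · intro x y
        have hv : ∀ x : Fin (n + 1) → V, (hh ε r st a).compLeft (Fin (n + 1))
            (TwoG_Q n (ε (st a)) x) = (-1 : K) • TwoG_Q n (ε (st a)) x := by
          intro x
          change (hh ε r st a).compLeft (Fin (n + 1)) (las K V n (ε (st a) (x (Fin.last n)))) =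
            (-1 : K) • las K V n (ε (st a) (x (Fin.last n)))
          have h3 : hh ε r st a (ε (st a) (x (Fin.last n))) =
              (-1 : K) • ε (st a) (x (Fin.last n)) := LinearMap.congr_fun hhq _
          rw [compLeft_las, h3, map_smul]
        rw [map_mul, ExteriorAlgebra.map_apply_ι, ExteriorAlgebra.map_apply_ι, Dv_mul, Dv_ι, Dv_ι,
          hv, hv, map_smul, map_smul, smul_mul_assoc, mul_smul_comm, ← add_smul]
        congr 1
        norm_num
    rw [hX2 _ (hh_lef hD a)] at h1
    exact (smul_eq_zero.mp h1.symm).resolve_left (neg_ne_zero.mpr h2K)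
  -- the map
  let c : V →ₗ[K] (Fin n → V) := ∑ i, (ψ.flip (f i)).smulRight (w i)
  have hc : ∀ x, c x = ∑ i, ψ x (f i) • w i := by
    intro x
    simp [c]
  have hce : ∀ i, c (e i) = w i := by
    intro i
    rw [hc, Finset.sum_eq_single i]
    · rw [hDB.dual, if_pos rfl, one_smul]
    · intro j _ hj
      rw [hDB.dual, if_neg (Ne.symm hj), zero_smul]
    · intro h
      exact absurd (Finset.mem_univ _) h
  have hcε : ∀ x, c x = c (ε a x) := by
    intro x
    rw [hc, hc]
    refine Finset.sum_congr rfl fun i _ => ?_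
    rw [hD.sys.adj, hDB.qf]
  have hcX : ∀ X, IsLef ψ C X → ∀ x, c (X x) = X.compLeft (Fin n) (c x) := by
    intro X hXL
    -- the vectors
    have h1 : TwoG_B (K := K) f (fun j => X.compLeft (Fin n) (w j) +
        ∑ i, ψ (e j) (X (f i)) • w i) = 0 := by
      have h2 := hX1 X hXL
      rw [TwoG_B, map_sum] at h2
      have h3 : ∀ i, X (f i) = ∑ j, ψ (e j) (X (f i)) • f j := by
        intro i
        have h4 : X (f i) = ε (st a) (X (f i)) := by
          have h5 : X (ε (st a) (f i)) = ε (st a) (X (f i)) :=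
            LinearMap.congr_fun (hXL.2 _ hqC) (f i)
          rw [hDB.qf] at h5
          exact h5
        exact h4.trans (hDB.exq (X (f i)))
      have h4 : ∀ i, Dv (n + 1) X (ExteriorAlgebra.ι K (inn K V n (w i)) *
          ExteriorAlgebra.ι K (las K V n (f i))) =
          ExteriorAlgebra.ι K (inn K V n (X.compLeft (Fin n) (w i))) *
            ExteriorAlgebra.ι K (las K V n (f i)) +
          ∑ j, ψ (e j) (X (f i)) • (ExteriorAlgebra.ι K (inn K V n (w i)) *
            ExteriorAlgebra.ι K (las K V n (f j))) := by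
        intro i
        rw [Dv_mul, Dv_ι, Dv_ι, compLeft_inn, compLeft_las]
        congr 1
        conv_lhs => rw [h3 i]
        simp only [map_sum, map_smul, Finset.mul_sum, mul_smul_comm]
      rw [Finset.sum_congr rfl fun i _ => h4 i, Finset.sum_add_distrib, Finset.sum_comm,
        ← Finset.sum_add_distrib] at h2
      rw [TwoG_B]
      rw [← h2]
      refine Finset.sum_congr rfl fun j _ => ?_
      simp only [map_add, map_sum, map_smul, add_mul, Finset.sum_mul, smul_mul_assoc]
    have h5 : ∀ j, X.compLeft (Fin n) (w j) = c (X (e j)) := by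
      intro j
      have h6 := TwoG_unique hDB n _ h1 j
      rw [hc]
      rw [eq_neg_of_add_eq_zero_left h6, ← Finset.sum_neg_distrib]
      refine Finset.sum_congr rfl fun i _ => ?_
      rw [hXL.1, neg_smul]
    intro x
    have h6 : c (X x) = c (X (ε a x)) := by
      rw [hcε]
      congr 1
      exact (LinearMap.congr_fun (hXL.2 _ (hD.sys.mem a)) x).symm
    rw [h6, hDB.exp x, hc x]
    simp only [map_sum, map_smul]
    exact Finset.sum_congr rfl fun i _ => by rw [h5]
  refine ⟨ExteriorAlgebra.map (out K V n) z, ?_, c, ?_, ?_⟩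
  · intro X hXL
    have h1 := Dv_map (m := n + 1) (n := n) X (out K V n) (fun w => compLeft_out n X w) z
    rw [h1, hKL X hXL, map_zero]
  · intro i
    refine hD.bic _ fun X hXs hXc => ?_
    refine LinearMap.ext fun x => ?_
    exact congrFun (hcX X ⟨hXs, hXc⟩ x) i
  · have h1 := hw 1
    rw [one_smul, one_smul, one_pow, one_smul, hQ2, add_zero] at h1
    rw [h1]
    congr 1
    rw [TwoG_B, Th]
    exact Finset.sum_congr rfl fun i _ => by rw [hce]

end Pool.Agent.Lib.MP_640417_ag.Ws
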